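import Pool.Agent.KS6_97.Sch.Full

/-!
# The covariance matrix of a log-concave measure: eigenvalues and traces of powers
-/

set_option autoImplicit false

namespace Pool.Agent.KS6_97.Sch

open MeasureTheory Set Filter Topology
open scoped ENNReal InnerProductSpace ContDiff Matrix
open Pool.Agent.H212R2.KLS (mu Bdd)
open Pool.Agent.Q188.TS (Euc LCF)

variable {n : ℕ} {μ : Measure (Euc n)}

theorem coord_mem (hlin : ∀ w : Euc n, MemLp (fun x => ⟪w, x⟫_ℝ) 2 μ) (i : Fin n) :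
    MemLp (fun x : Euc n => x i) 2 μ := by
  have := hlin (EuclideanSpace.single i 1)
  have e : (fun x : Euc n => ⟪EuclideanSpace.single i (1 : ℝ), x⟫_ℝ) = fun x => x i := by
    funext x
    rw [EuclideanSpace.inner_single_left]
    simp
  rwa [e] at this

theorem cvm_eq [IsProbabilityMeasure μ] (hlin : ∀ w : Euc n, MemLp (fun x => ⟪w, x⟫_ℝ) 2 μ) :
    (Matrix.of fun i j => ProbabilityTheory.covariance (fun x : Euc n => x i) (fun x => x j) μ) =
      cvm μ := by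
  ext i j
  rw [Matrix.of_apply, ProbabilityTheory.covariance_eq_sub (coord_mem hlin i) (coord_mem hlin j)]
  rfl

theorem cvm_herm (μ : Measure (Euc n)) : (cvm μ).IsHermitian := by
  ext i j
  rw [Matrix.conjTranspose_apply]
  show star ((∫ x, x j * x i ∂μ) - (∫ x, x j ∂μ) * ∫ x, x i ∂μ) =
    (∫ x, x i * x j ∂μ) - (∫ x, x i ∂μ) * ∫ x, x j ∂μ
  simp only [star_trivial]
  rw [mul_comm (∫ x, x j ∂μ)]
  congr 2
  funext x
  ring

theorem quad [IsProbabilityMeasure μ] (hlin : ∀ w : Euc n, MemLp (fun x => ⟪w, x⟫_ℝ) 2 μ)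
    (w : Euc n) : ProbabilityTheory.variance (fun x => ⟪w, x⟫_ℝ) μ =
      (w : Fin n → ℝ) ⬝ᵥ (cvm μ).mulVec (w : Fin n → ℝ) := by
  have hc := coord_mem hlin
  have hi1 : ∀ i, Integrable (fun x : Euc n => x i) μ := fun i => (hc i).integrable one_le_two
  have hi2 : ∀ i j, Integrable (fun x : Euc n => x i * x j) μ := fun i j =>
    (hc i).integrable_mul (hc j)
  have hin : ∀ x : Euc n, ⟪w, x⟫_ℝ = ∑ i, w i * x i := fun x => by
    rw [PiLp.inner_apply]
    exact Finset.sum_congr rfl fun i _ => by simp [mul_comm]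
  rw [ProbabilityTheory.variance_eq_sub (hlin w)]
  have e1 : ∫ x, ⟪w, x⟫_ℝ ∂μ = ∑ i, w i * ∫ x : Euc n, x i ∂μ := by
    simp_rw [hin]
    rw [integral_finsetSum _ fun i _ => (hi1 i).const_mul _]
    simp_rw [integral_const_mul]
  have e2 : ∫ x, ((fun x => ⟪w, x⟫_ℝ) ^ 2) x ∂μ =
      ∑ i, ∑ j, w i * w j * ∫ x : Euc n, x i * x j ∂μ := by
    have h1 : ∀ x : Euc n, ((fun x => ⟪w, x⟫_ℝ) ^ 2) x = ∑ i, ∑ j, (w i * w j) * (x i * x j) := by
      intro x
      simp only [Pi.pow_apply]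
      rw [hin, pow_two, Finset.sum_mul_sum]
      exact Finset.sum_congr rfl fun i _ => Finset.sum_congr rfl fun j _ => by ring
    simp_rw [h1]
    rw [integral_finsetSum _ fun i _ => integrable_finsetSum _ fun j _ => (hi2 i j).const_mul _]
    refine Finset.sum_congr rfl fun i _ => ?_
    rw [integral_finsetSum _ fun j _ => (hi2 i j).const_mul _]
    simp_rw [integral_const_mul]
  rw [e1, e2, pow_two, Finset.sum_mul_sum, ← Finset.sum_sub_distrib, dotProduct]
  refine Finset.sum_congr rfl fun i _ => ?_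
  rw [← Finset.sum_sub_distrib, Matrix.mulVec, dotProduct, Finset.mul_sum]
  refine Finset.sum_congr rfl fun j _ => ?_
  show _ = w i * (((∫ x, x i * x j ∂μ) - (∫ x, x i ∂μ) * ∫ x, x j ∂μ) * w j)
  ring

/-- eigenvalues -/
theorem cvm_eig [IsProbabilityMeasure μ] (hlin : ∀ w : Euc n, MemLp (fun x => ⟪w, x⟫_ℝ) 2 μ) :
    ∃ lam : Fin n → ℝ, (∀ i, 0 ≤ lam i) ∧ (∀ q : ℕ, (cvm μ ^ q).trace = ∑ i, lam i ^ q) ∧
      ∀ s : ℝ, (∀ θ : Euc n, ‖θ‖ = 1 → ProbabilityTheory.variance (fun x => ⟪x, θ⟫_ℝ) μ ≤ s) →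
        ∀ i, lam i ≤ s := by
  have hA := cvm_herm μ
  have h2 : ∀ i, ProbabilityTheory.variance (fun x => ⟪hA.eigenvectorBasis i, x⟫_ℝ) μ =
      hA.eigenvalues i := by
    intro i
    rw [quad hlin, hA.mulVec_eigenvectorBasis i, dotProduct_smul]
    have h := hA.eigenvectorBasis.inner_eq_one i
    rw [PiLp.inner_apply] at h
    have h3 : ((hA.eigenvectorBasis i : Euc n) : Fin n → ℝ) ⬝ᵥ
        ((hA.eigenvectorBasis i : Euc n) : Fin n → ℝ) = 1 := by
      rw [← h]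
      unfold dotProduct
      refine Finset.sum_congr rfl fun k _ => ?_
      simp [pow_two]
    rw [h3, smul_eq_mul, mul_one]
  refine ⟨hA.eigenvalues, fun i => ?_, fun q => ?_, fun s hs i => ?_⟩
  · rw [← h2]
    exact ProbabilityTheory.variance_nonneg _ _
  · exact tr_pow (b := hA.eigenvectorBasis) (fun a => hA.mulVec_eigenvectorBasis a) q
  · rw [← h2]
    have h3 := hs (hA.eigenvectorBasis i) (hA.eigenvectorBasis.norm_eq_one i)
    have e2 : (fun x : Euc n => ⟪x, hA.eigenvectorBasis i⟫_ℝ) =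
        fun x => ⟪hA.eigenvectorBasis i, x⟫_ℝ := funext fun x => real_inner_comm _ _
    rwa [e2] at h3

/-- the choice `q = 1 + ⌊log r⌋` -/
theorem eff_rank {lam : Fin n → ℝ} (hl : ∀ i, 0 ≤ lam i) {s r : ℝ} (hs : 0 < s) (hr : 1 ≤ r)
    (hls : ∀ i, lam i ≤ s) (htr : ∑ i, lam i ≤ r * s) :
    ∃ q : ℕ, 1 ≤ q ∧ (q : ℝ) * (∑ i, lam i ^ q) ^ ((1 : ℝ) / q) ≤ 3 * ((1 + Real.log r) * s) := by
  have hlog : 0 ≤ Real.log r := Real.log_nonneg hr
  have hr0 : 0 < r := by linarith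
  obtain ⟨q, hq⟩ : ∃ q : ℕ, q = ⌊Real.log r⌋₊ + 1 := ⟨_, rfl⟩
  have hq1 : 1 ≤ q := by omega
  have hq0 : (0 : ℝ) < q := by exact_mod_cast hq1
  have hqu : (q : ℝ) ≤ 1 + Real.log r := by
    rw [hq]
    push_cast
    have := Nat.floor_le hlog
    linarith
  have hql : Real.log r ≤ q := by
    rw [hq]
    push_cast
    exact (Nat.lt_floor_add_one _).le
  refine ⟨q, hq1, ?_⟩
  have h1 : ∑ i, lam i ^ q ≤ r * s ^ q := by
    obtain ⟨p, hp⟩ : ∃ p : ℕ, q = p + 1 := ⟨⌊Real.log r⌋₊, hq⟩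
    rw [hp]
    calc ∑ i, lam i ^ (p + 1) ≤ ∑ i, s ^ p * lam i := Finset.sum_le_sum fun i _ => by
          rw [pow_succ]
          exact mul_le_mul_of_nonneg_right (pow_le_pow_left₀ (hl i) (hls i) p) (hl i)
      _ = s ^ p * ∑ i, lam i := by rw [Finset.mul_sum]
      _ ≤ s ^ p * (r * s) := mul_le_mul_of_nonneg_left htr (by positivity)
      _ = r * s ^ (p + 1) := by ring
  have h0 : 0 ≤ ∑ i, lam i ^ q := Finset.sum_nonneg fun i _ => pow_nonneg (hl i) q
  have h2 : (∑ i, lam i ^ q) ^ ((1 : ℝ) / q) ≤ 3 * s := by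
    calc (∑ i, lam i ^ q) ^ ((1 : ℝ) / q) ≤ (r * s ^ q) ^ ((1 : ℝ) / q) :=
          Real.rpow_le_rpow h0 h1 (by positivity)
      _ = r ^ ((1 : ℝ) / q) * s := by
          rw [Real.mul_rpow hr0.le (by positivity), one_div, Real.pow_rpow_inv_natCast hs.le (by omega)]
      _ ≤ 3 * s := by
          refine mul_le_mul_of_nonneg_right ?_ hs.le
          rw [Real.rpow_def_of_pos hr0]
          have h3 : Real.log r * ((1 : ℝ) / q) ≤ 1 := by
            rw [mul_one_div, div_le_one hq0]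
            exact hql
          have h4 := Real.exp_le_exp.2 h3
          have h5 := Real.exp_one_lt_d9
          linarith
  calc (q : ℝ) * (∑ i, lam i ^ q) ^ ((1 : ℝ) / q) ≤ (1 + Real.log r) * (3 * s) :=
        mul_le_mul hqu h2 (Real.rpow_nonneg h0 _) (by linarith)
    _ = 3 * ((1 + Real.log r) * s) := by ring

end Pool.Agent.KS6_97.Sch
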