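import Pool.Agent.KS6_97.Sch.Mil
import Pool.Graph.R_pool_sql_team_seeded_3997aac3.Q188.TS.Iso

/-!
# The Poincare inequality for all log-concave densities
-/

set_option autoImplicit false

namespace Pool.Agent.KS6_97.Sch

open MeasureTheory Set Filter Topology
open scoped ENNReal InnerProductSpace ContDiff Matrix
open Pool.Agent.H888R2.KT (LC)
open Pool.Agent.H212R2.KLS (mu Bdd)
open Pool.Agent.Q188.TS (Euc LCF Bl tr lc_tr int_tr mu_tr Bl_tendsto)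

/-- the covariance matrix -/
noncomputable def cvm {n : ℕ} (μ : Measure (Euc n)) : Matrix (Fin n) (Fin n) ℝ :=
  Matrix.of fun i j => (∫ x, x i * x j ∂μ) - (∫ x, x i ∂μ) * ∫ x, x j ∂μ

theorem Cv_zero {n : ℕ} {μ : Measure (Euc n)} (h1 : μ univ = 1) : Cv μ (0, 0) = cvm μ := by
  ext i j
  rw [Cv_apply, Ex_zero h1, Ex_zero h1, Ex_zero h1]
  rfl

theorem full : ∃ C : ℝ, 0 < C ∧ ∀ (n : ℕ) (ρ : Euc n → ℝ), LCF ρ → IsProbabilityMeasure (mu ρ) →
    (∀ w : Euc n, MemLp (fun x => ⟪w, x⟫_ℝ) 2 (mu ρ)) →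
    ∀ (q : ℕ), q ≠ 0 → ∀ G : ℝ, 0 ≤ G → ((cvm (mu ρ)) ^ q).trace ≤ G ^ q →
    ∀ f : Euc n → ℝ, ContDiff ℝ 1 f → MemLp f 2 (mu ρ) →
      Integrable (fun x => ‖fderiv ℝ f x‖ ^ 2) (mu ρ) →
      ∫ x, f x ^ 2 ∂(mu ρ) - (∫ x, f x ∂(mu ρ)) ^ 2 ≤
        C * (q * G) * ∫ x, ‖fderiv ℝ f x‖ ^ 2 ∂(mu ρ) := by
  obtain ⟨C, hC, hmain⟩ := poin_bs
  refine ⟨C, hC, ?_⟩
  intro n ρ hρ hP hlin q hq G hG hGq f hf h2 h3
  have hf2 : Integrable (fun x => f x ^ 2) (mu ρ) := h2.integrable_sq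
  have hf1 : Integrable f (mu ρ) := h2.integrable one_le_two
  have t0 : Tendsto (fun N => ∫ x in Bl n N, (1 : ℝ) ∂(mu ρ)) atTop (𝓝 1) := by
    have := Bl_tendsto (mu ρ) (fun _ => (1 : ℝ)) (integrable_const _)
    simpa using this
  have t1 := Bl_tendsto (mu ρ) f hf1
  have t2 := Bl_tendsto (mu ρ) (fun x => f x ^ 2) hf2
  have t3 := Bl_tendsto (mu ρ) (fun x => ‖fderiv ℝ f x‖ ^ 2) h3
  have t0i : Tendsto (fun N => (∫ x in Bl n N, (1 : ℝ) ∂(mu ρ))⁻¹) atTop (𝓝 1) := by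
    have := t0.inv₀ one_ne_zero
    rwa [inv_one] at this
  -- moments of the coordinates
  have hcoord : ∀ i, MemLp (fun x : Euc n => x i) 2 (mu ρ) := fun i => by
    have := hlin (EuclideanSpace.single i 1)
    have e : (fun x : Euc n => ⟪EuclideanSpace.single i (1 : ℝ), x⟫_ℝ) = fun x => x i := by
      funext x
      rw [EuclideanSpace.inner_single_left]
      simp
    rwa [e] at this
  have hi1 : ∀ i, Integrable (fun x : Euc n => x i) (mu ρ) := fun i =>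
    (hcoord i).integrable one_le_two
  have hi2 : ∀ i j, Integrable (fun x : Euc n => x i * x j) (mu ρ) := fun i j =>
    (hcoord i).integrable_mul (hcoord j)
  obtain ⟨m, hm⟩ : ∃ m : ℕ → ℝ, ∀ N, m N = ∫ x in Bl n N, (1 : ℝ) ∂(mu ρ) := ⟨_, fun N => rfl⟩
  obtain ⟨A, hA⟩ : ∃ A : ℕ → Matrix (Fin n) (Fin n) ℝ, ∀ N, A N = Matrix.of fun i j =>
      (m N)⁻¹ * (∫ x in Bl n N, x i * x j ∂(mu ρ)) -
        ((m N)⁻¹ * ∫ x in Bl n N, x i ∂(mu ρ)) * ((m N)⁻¹ * ∫ x in Bl n N, x j ∂(mu ρ)) :=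
    ⟨_, fun N => rfl⟩
  have tA : Tendsto A atTop (𝓝 (cvm (mu ρ))) := by
    have : ∀ i j, Tendsto (fun N => A N i j) atTop (𝓝 (cvm (mu ρ) i j)) := by
      intro i j
      have e : (fun N => A N i j) = fun N => (m N)⁻¹ * (∫ x in Bl n N, x i * x j ∂(mu ρ)) -
        ((m N)⁻¹ * ∫ x in Bl n N, x i ∂(mu ρ)) * ((m N)⁻¹ * ∫ x in Bl n N, x j ∂(mu ρ)) := by
        funext N
        rw [hA]
        rfl
      have l1 := (t0i.mul (Bl_tendsto (mu ρ) _ (hi2 i j))).sub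
        ((t0i.mul (Bl_tendsto (mu ρ) _ (hi1 i))).mul (t0i.mul (Bl_tendsto (mu ρ) _ (hi1 j))))
      simp only [one_mul, ← hm] at l1
      rw [e]
      exact l1
    exact tendsto_pi_nhds.2 fun i => tendsto_pi_nhds.2 fun j => this i j
  have tT : Tendsto (fun N => (A N ^ q).trace) atTop (𝓝 ((cvm (mu ρ) ^ q).trace)) := by
    have hc : Continuous fun M : Matrix (Fin n) (Fin n) ℝ => (M ^ q).trace :=
      (continuous_pow q).matrix_trace
    exact (hc.tendsto _).comp tA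
  have key : ∀ G' : ℝ, G < G' → ∫ x, f x ^ 2 ∂(mu ρ) - (∫ x, f x ∂(mu ρ)) ^ 2 ≤
      C * (q * G') * ∫ x, ‖fderiv ℝ f x‖ ^ 2 ∂(mu ρ) := by
    intro G' hG'
    have hG0' : 0 < G' := lt_of_le_of_lt hG hG'
    have L1 := (t0i.mul t2).sub ((t0i.mul t1).pow 2)
    have L2 := (t0i.mul t3).const_mul (C * (q * G'))
    simp only [one_mul] at L1 L2
    have hev : ∀ᶠ N in atTop, (1 / 2 : ℝ) < ∫ x in Bl n N, (1 : ℝ) ∂(mu ρ) :=
      t0.eventually (lt_mem_nhds (by norm_num))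
    have hlt : (cvm (mu ρ) ^ q).trace < G' ^ q :=
      lt_of_le_of_lt hGq (pow_lt_pow_left₀ hG' hG hq)
    have hev2 : ∀ᶠ N in atTop, (A N ^ q).trace < G' ^ q := tT.eventually (gt_mem_nhds hlt)
    refine le_of_tendsto_of_tendsto L1 L2 ?_
    filter_upwards [hev, hev2] with N hN hN2
    set M := ∫ x in Bl n N, (1 : ℝ) ∂(mu ρ) with hM
    have hM0 : 0 < M := by linarith
    have hMm : M = (mu ρ (Bl n N)).toReal := by
      rw [hM]; simp [Measure.real]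
    have hne : mu ρ (Bl n N) ≠ 0 := by
      intro h0
      rw [hMm, h0] at hM0
      simp at hM0
    have hL := lc_tr hρ (measure_ne_top _ _) hM0 N hne
    have hu : mu (tr ρ M N) univ = 1 := by
      rw [mu_tr hρ hM0, Measure.smul_apply, Measure.restrict_apply_univ, smul_eq_mul,
        ENNReal.ofReal_inv_of_pos hM0, hMm, ENNReal.ofReal_toReal (measure_ne_top _ _)]
      exact ENNReal.inv_mul_cancel hne (measure_ne_top _ _)
    have hAN : Cv (mu (tr ρ M N)) (0, 0) = A N := by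
      rw [Cv_zero hu, hA, hm]
      ext i j
      show (∫ x, x i * x j ∂(mu (tr ρ M N))) - (∫ x, x i ∂(mu (tr ρ M N))) *
        ∫ x, x j ∂(mu (tr ρ M N)) = _
      rw [int_tr hρ hM0, int_tr hρ hM0, int_tr hρ hM0]
      rfl
    have hTP : TP (mu (tr ρ M N)) q (0, 0) ≤ G' ^ q := by
      unfold TP
      rw [hAN]
      exact hN2.le
    have := hmain (Fin n) (tr ρ M N) hL hu q hq G' hG0' hTP f hf
    rw [int_tr hρ hM0, int_tr hρ hM0, int_tr hρ hM0] at this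
    exact this
  have hc : Continuous fun G' : ℝ => C * (q * G') * ∫ x, ‖fderiv ℝ f x‖ ^ 2 ∂(mu ρ) := by
    fun_prop
  refine ge_of_tendsto ((hc.tendsto G).mono_left (nhdsWithin_le_nhds (s := Ioi G))) ?_
  filter_upwards [self_mem_nhdsWithin] with G' hG'
  exact key G' hG'

end Pool.Agent.KS6_97.Sch
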