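import Pool.Agent.KS6_97.Sch.Post

/-!
# The expectation `E F(t, t X + √t G)` and its derivative
-/

set_option autoImplicit false

namespace Pool.Agent.KS6_97.Sch

open MeasureTheory Set Filter Topology
open scoped ENNReal InnerProductSpace ContDiff
open Pool.Agent.H888R2.KT (LC pst gs zz gc)
open Pool.Agent.H212R2.KLS (mu Bdd)
open Pool.Agent.Q86.FIB
open Pool.Agent.Q86.EM

variable {κ : Type} [Fintype κ]

theorem bs_lc {ρ : Eu κ → ℝ} (hρ : LC ρ) : BS (mu ρ) := by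
  obtain ⟨R, hR0, hR⟩ := Pool.Agent.H888R2.KT.N3x.ae_bdd hρ
  exact ⟨Pool.Agent.H888R2.KT.N7x.fin_mu hρ, hρ.ne, R, hR0, hR⟩

/-- the Gaussian weight -/
noncomputable def ge (z : Eu κ) : ℝ := Real.exp (-(‖z‖ ^ 2 / (2 * 1)))

theorem ge_cont : Continuous (ge (κ := κ)) := by
  unfold ge
  fun_prop

theorem ge_pos (z : Eu κ) : 0 < ge z := Real.exp_pos _

theorem ge_int : Integrable (ge (κ := κ)) := Pool.Agent.Q31.EM.COL.gi

theorem gc1_pos : 0 < gc κ 1 := (Pool.Agent.H888R2.KT.gc_pos (κ := κ) 1 one_pos).1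

theorem ge_int1 : Integrable (fun z : Eu κ => ‖z‖ * ge z) := by
  -- ‖z‖ exp(-‖z‖²/2) ≤ 2 exp(-‖z‖²/4)
  have h1 : Integrable (fun z : Eu κ => Real.exp (-(‖z‖ ^ 2 / (2 * 2)))) := by
    have := (Pool.Agent.H888R2.KT.gc_pos (κ := κ) 2 two_pos).2.2.1 0
    refine this.congr (Filter.Eventually.of_forall fun z => ?_)
    simp only [zero_sub, norm_neg]
  refine (h1.const_mul 2).mono' (by
    exact (continuous_norm.mul ge_cont).aestronglyMeasurable) (Eventually.of_forall fun z => ?_)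
  rw [Real.norm_of_nonneg (mul_nonneg (norm_nonneg _) (ge_pos z).le)]
  unfold ge
  have e : Real.exp (-(‖z‖ ^ 2 / (2 * 1))) =
      Real.exp (-(‖z‖ ^ 2 / (2 * 2))) * Real.exp (-(‖z‖ ^ 2 / (2 * 2))) := by
    rw [← Real.exp_add]
    congr 1
    ring
  rw [e, ← mul_assoc]
  refine mul_le_mul_of_nonneg_right ?_ (Real.exp_nonneg _)
  have h3 := Real.add_one_le_exp (‖z‖ ^ 2 / (2 * 2))
  rw [Real.exp_neg, ← div_eq_mul_inv, div_le_iff₀ (Real.exp_pos _)]
  nlinarith [sq_nonneg (‖z‖ - 1), norm_nonneg z]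

/-- smooth, bounded, with bounded derivatives of order at most two -/
structure Nice (F : ℝ × Eu κ → ℝ) : Prop where
  smooth : ContDiff ℝ ∞ F
  b0 : ∃ B : ℝ, ∀ p, |F p| ≤ B
  b1 : ∀ v, ∃ B : ℝ, ∀ p, |pd v F p| ≤ B
  b2 : ∀ v w, ∃ B : ℝ, ∀ p, |pd w (pd v F) p| ≤ B

theorem Al.nice {μ : Measure (Eu κ)} (hμ : BS μ) {F : ℝ × Eu κ → ℝ} (hF : Al μ F) : Nice F :=
  ⟨hF.smooth hμ, hF.bdd hμ, fun v => (hF.pd hμ v).bdd hμ, fun v w => ((hF.pd hμ v).pd hμ w).bdd hμ⟩

/-- the expectation of `F(t, t X + √t G)` -/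
noncomputable def EE (ρ : Eu κ → ℝ) (F : ℝ × Eu κ → ℝ) (t : ℝ) : ℝ :=
  (∫ q : Eu κ × Eu κ, F (t, t • q.1 + √t • q.2) * ge q.2 ∂((mu ρ).prod volume)) / gc κ 1

theorem prod_int {ρ : Eu κ → ℝ} (hρ : LC ρ) {H : Eu κ × Eu κ → ℝ} (hH : Continuous H) {B : ℝ}
    (hB : ∀ᵐ x ∂(mu ρ), ∀ z, |H (x, z)| ≤ B * (1 + ‖z‖)) :
    Integrable (fun q : Eu κ × Eu κ => H q * ge q.2) ((mu ρ).prod volume) := by
  have hf := (bs_lc hρ).fin
  have h1 : Integrable (fun q : Eu κ × Eu κ => (1 : ℝ) * (B * (1 + ‖q.2‖) * ge q.2))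
      ((mu ρ).prod volume) := by
    refine Integrable.mul_prod (f := fun _ : Eu κ => (1 : ℝ))
      (g := fun z : Eu κ => B * (1 + ‖z‖) * ge z) (integrable_const _) ?_
    have := (ge_int (κ := κ).add ge_int1).const_mul B
    refine this.congr (Eventually.of_forall fun z => ?_)
    simp only [Pi.add_apply]
    ring
  refine h1.mono' ((hH.mul (ge_cont.comp continuous_snd)).aestronglyMeasurable) ?_
  have h2 := Measure.ae_prod_mem_iff_ae_ae_mem (μ := mu ρ) (ν := (volume : Measure (Eu κ)))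
    (s := {q : Eu κ × Eu κ | |H q| ≤ B * (1 + ‖q.2‖)})
    (measurableSet_le (by fun_prop) (by fun_prop))
  have h3 : ∀ᵐ q ∂((mu ρ).prod volume), |H q| ≤ B * (1 + ‖q.2‖) := by
    refine h2.2 ?_
    filter_upwards [hB] with x hx
    exact Eventually.of_forall fun z => hx z
  filter_upwards [h3] with q hq
  rw [norm_mul, Real.norm_of_nonneg (ge_pos _).le, Real.norm_eq_abs, one_mul]
  exact mul_le_mul_of_nonneg_right hq (ge_pos _).le

theorem prod_int_bd {ρ : Eu κ → ℝ} (hρ : LC ρ) {H : Eu κ × Eu κ → ℝ} (hH : Continuous H) {B : ℝ}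
    (hB : ∀ q, |H q| ≤ B) :
    Integrable (fun q : Eu κ × Eu κ => H q * ge q.2) ((mu ρ).prod volume) := by
  refine prod_int hρ hH (B := B) (Eventually.of_forall fun x z => ?_)
  have h0 : 0 ≤ B := (abs_nonneg _).trans (hB (x, z))
  have := norm_nonneg z
  have h1 := hB (x, z)
  nlinarith

theorem path_cont (t : ℝ) : Continuous fun q : Eu κ × Eu κ => (t, t • q.1 + √t • q.2) := by
  fun_prop

theorem EE_int {ρ : Eu κ → ℝ} (hρ : LC ρ) {F : ℝ × Eu κ → ℝ} (hF : Continuous F) {B : ℝ}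
    (hB : ∀ p, |F p| ≤ B) (t : ℝ) :
    Integrable (fun q : Eu κ × Eu κ => F (t, t • q.1 + √t • q.2) * ge q.2)
      ((mu ρ).prod volume) :=
  prod_int_bd hρ (hF.comp (path_cont t)) fun _ => hB _

theorem EE_add {ρ : Eu κ → ℝ} (hρ : LC ρ) {F G : ℝ × Eu κ → ℝ} (hF : Continuous F)
    (hG : Continuous G) {B : ℝ} (hB : ∀ p, |F p| ≤ B) (hB' : ∀ p, |G p| ≤ B) (t : ℝ) :
    EE ρ (fun p => F p + G p) t = EE ρ F t + EE ρ G t := by
  unfold EE
  rw [← add_div, ← integral_add (EE_int hρ hF hB t) (EE_int hρ hG hB' t)]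
  congr 2
  funext q
  ring

theorem EE_mono {ρ : Eu κ → ℝ} (hρ : LC ρ) {F G : ℝ × Eu κ → ℝ} (hF : Continuous F)
    (hG : Continuous G) {B : ℝ} (hB : ∀ p, |F p| ≤ B) (hB' : ∀ p, |G p| ≤ B) (t : ℝ)
    (h : ∀ y, F (t, y) ≤ G (t, y)) : EE ρ F t ≤ EE ρ G t := by
  unfold EE
  refine div_le_div_of_nonneg_right ?_ gc1_pos.le
  refine integral_mono (EE_int hρ hF hB t) (EE_int hρ hG hB' t) fun q => ?_
  exact mul_le_mul_of_nonneg_right (h _) (ge_pos _).le

theorem EE_const {ρ : Eu κ → ℝ} (hρ : LC ρ) (h1 : mu ρ univ = 1) (c t : ℝ) :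
    EE ρ (fun _ => c) t = c := by
  have hf := (bs_lc hρ).fin
  unfold EE
  rw [integral_prod_mul (fun _ : Eu κ => c) (ge (κ := κ))]
  have e : ∫ z : Eu κ, ge z = gc κ 1 := rfl
  rw [e, integral_const, Measure.real, h1]
  simp [mul_div_assoc, div_self gc1_pos.ne']

theorem EE_mul {ρ : Eu κ → ℝ} (c : ℝ) (F : ℝ × Eu κ → ℝ) (t : ℝ) :
    EE ρ (fun p => c * F p) t = c * EE ρ F t := by
  unfold EE
  rw [← mul_div_assoc, ← integral_const_mul]
  congr 2
  funext q
  ring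

theorem EE_sum {ρ : Eu κ → ℝ} (hρ : LC ρ) {ι : Type} (s : Finset ι) {F : ι → ℝ × Eu κ → ℝ}
    (hF : ∀ i, Continuous (F i)) (hB : ∀ i, ∃ B : ℝ, ∀ p, |F i p| ≤ B) (t : ℝ) :
    EE ρ (fun p => ∑ i ∈ s, F i p) t = ∑ i ∈ s, EE ρ (F i) t := by
  unfold EE
  rw [← Finset.sum_div, ← integral_finsetSum _ fun i _ => ?_]
  · congr 2
    funext q
    rw [Finset.sum_mul]
  · obtain ⟨B, hB⟩ := hB i
    exact EE_int hρ (hF i) hB t

/-- posterior means in the two parametrisations -/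
theorem pst_eq {ρ : Eu κ → ℝ} {t : ℝ} (ht : 0 < t) (u : Eu κ → ℝ) (z : Eu κ) :
    pst (1 / t) ρ u z = Ex (mu ρ) u (t, t • z) := by
  have key : ∀ x : Eu κ, Real.exp (-(‖x - z‖ ^ 2 / (2 * (1 / t)))) =
      Real.exp (-(t / 2 * ‖z‖ ^ 2)) * Real.exp (ell (t, t • z) x) := fun x => by
    rw [← Real.exp_add]
    congr 1
    unfold ell
    simp only
    rw [real_inner_smul_left, norm_sub_sq_real, real_inner_comm]
    field_simp
    ring
  unfold pst zz Ex Nu
  simp_rw [key]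
  have e1 : ∫ x, u x * (Real.exp (-(t / 2 * ‖z‖ ^ 2)) * Real.exp (ell (t, t • z) x)) ∂(mu ρ) =
      Real.exp (-(t / 2 * ‖z‖ ^ 2)) * ∫ x, u x * Real.exp (ell (t, t • z) x) ∂(mu ρ) := by
    rw [← integral_const_mul]
    refine integral_congr_ae (Eventually.of_forall fun x => ?_)
    simp only
    ring
  rw [e1, integral_const_mul, mul_div_mul_left _ _ (Real.exp_pos _).ne']
  simp only [one_mul]

/-- Bayes' formula -/
theorem bayes {ρ : Eu κ → ℝ} (hρ : LC ρ) {t : ℝ} (ht : 0 < t) {u φ : Eu κ → ℝ} (hu : Continuous u)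
    (hφ : Continuous φ) {B : ℝ} (hB : ∀ y, |φ y| ≤ B) :
    ∫ q : Eu κ × Eu κ, u q.1 * φ (t • q.1 + √t • q.2) * ge q.2 ∂((mu ρ).prod volume) =
      ∫ q : Eu κ × Eu κ, Ex (mu ρ) u (t, t • q.1 + √t • q.2) * φ (t • q.1 + √t • q.2) * ge q.2
        ∂((mu ρ).prod volume) := by
  have hf := (bs_lc hρ).fin
  have hh : 0 < 1 / t := by positivity
  have hst : t * √(1 / t) = √t := by
    rw [Real.sqrt_div zero_le_one, Real.sqrt_one, mul_one_div, Real.div_sqrt]
  -- the inner integral as a Gaussian average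
  have hin : ∀ (ψ : Eu κ → ℝ) (x : Eu κ), ∫ z, ψ (t • x + √t • z) * ge z =
      gc κ 1 * gs (1 / t) (fun z => ψ (t • z)) x := fun ψ x => by
    rw [Pool.Agent.Q31.EM.COL.gs_scale _ hh, mul_div_cancel₀ _ gc1_pos.ne']
    refine integral_congr_ae (Eventually.of_forall fun z => ?_)
    simp only [ge]
    rw [smul_add, smul_smul, hst]
  have main : ∀ (v ψ : Eu κ → ℝ), Continuous v → Continuous ψ → ∀ M : ℝ, (∀ y, |ψ y| ≤ M) →
      ∫ q : Eu κ × Eu κ, v q.1 * ψ (t • q.1 + √t • q.2) * ge q.2 ∂((mu ρ).prod volume) =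
        gc κ 1 * ∫ x, v x * gs (1 / t) (fun z => ψ (t • z)) x ∂(mu ρ) := by
    intro v ψ hv hψ M hM
    obtain ⟨C, hC0, hC⟩ := Pool.Agent.H888R2.KT.N7x.ae_bound hρ v hv
    have hM0 : 0 ≤ M := (abs_nonneg _).trans (hM 0)
    have hi : Integrable (fun q : Eu κ × Eu κ => v q.1 * ψ (t • q.1 + √t • q.2) * ge q.2)
        ((mu ρ).prod volume) := by
      refine prod_int hρ (H := fun q : Eu κ × Eu κ => v q.1 * ψ (t • q.1 + √t • q.2)) (by fun_prop)
        (B := C * M) ?_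
      filter_upwards [hC] with x hx z
      rw [abs_mul]
      have h1 := mul_le_mul hx (hM (t • x + √t • z)) (abs_nonneg _) hC0
      have h2 := mul_nonneg (mul_nonneg hC0 hM0) (norm_nonneg z)
      linarith
    rw [integral_prod _ hi, ← integral_const_mul]
    refine integral_congr_ae (Eventually.of_forall fun x => ?_)
    simp only
    have e := hin ψ x
    calc ∫ z, v x * ψ (t • x + √t • z) * ge z = ∫ z, v x * (ψ (t • x + √t • z) * ge z) := by
          refine integral_congr_ae (Eventually.of_forall fun z => ?_)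
          simp only
          ring
      _ = v x * (gc κ 1 * gs (1 / t) (fun z => ψ (t • z)) x) := by rw [integral_const_mul, e]
      _ = _ := by ring
  obtain ⟨C, hC⟩ := Ex_bdd (bs_lc hρ) hu
  have hEc : Continuous fun y => Ex (mu ρ) u (t, y) :=
    (Ex_smooth (bs_lc hρ) hu).continuous.comp (by fun_prop)
  have hB0 : 0 ≤ B := (abs_nonneg _).trans (hB 0)
  have m1 := main u φ hu hφ B hB
  have m2 := main (fun _ => 1) (fun y => Ex (mu ρ) u (t, y) * φ y) continuous_const (hEc.mul hφ)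
    (C * B) fun y => by
      rw [abs_mul]
      exact mul_le_mul (hC _) (hB _) (abs_nonneg _) ((abs_nonneg _).trans (hC (t, y)))
  simp only [one_mul] at m2
  rw [m1, m2]
  congr 1
  have f1 := (Pool.Agent.H888R2.KT.fub hρ (1 / t) hh u (fun z => φ (t • z)) hu (by fun_prop) B
    fun y => hB _).2.2
  have hc2 : Continuous fun z : Eu κ => Ex (mu ρ) u (t, t • z) * φ (t • z) :=
    (hEc.comp (by fun_prop : Continuous fun z : Eu κ => t • z)).mul (by fun_prop)
  have f2 := (Pool.Agent.H888R2.KT.fub hρ (1 / t) hh (fun _ => 1)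
    (fun z => Ex (mu ρ) u (t, t • z) * φ (t • z)) continuous_const hc2 (C * B)
    fun y => by
      rw [abs_mul]
      exact mul_le_mul (hC _) (hB _) (abs_nonneg _) ((abs_nonneg _).trans (hC (t, y)))).2.2
  simp only [one_mul] at f2
  rw [f1, f2]
  congr 1
  refine integral_congr_ae (Eventually.of_forall fun z => ?_)
  simp only [pst_eq ht, Ex_const (bs_lc hρ), one_mul]

/-- Gaussian integration by parts -/
theorem stein [DecidableEq κ] {φ : Eu κ → ℝ} (hφ : ContDiff ℝ 1 φ) {B : ℝ} (hB : ∀ y, |φ y| ≤ B) (k : κ)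
    (hB' : ∀ y, |pd (bs κ k) φ y| ≤ B) :
    ∫ z, z k * φ z * ge z = ∫ z, pd (bs κ k) φ z * ge z := by
  have hB0 : 0 ≤ B := (abs_nonneg _).trans (hB 0)
  have hge : ContDiff ℝ 1 (ge (κ := κ)) := by
    unfold ge
    exact ((contDiff_norm_sq ℝ).div_const _).neg.exp
  have hpd : ∀ z, pd (bs κ k) (ge (κ := κ)) z = -(z k * ge z) := by
    intro z
    unfold ge
    rw [pd_exp (((contDiff_norm_sq ℝ).div_const _).neg)]
    have e1 : pd (bs κ k) (fun x : Eu κ => -(‖x‖ ^ 2 / (2 * 1))) z = -(z k) := by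
      have e2 : (fun x : Eu κ => -(‖x‖ ^ 2 / (2 * 1))) = fun x => (-(1 / 2)) * ‖x‖ ^ 2 := by
        funext x
        ring
      rw [e2, pd_const_mul (contDiff_norm_sq ℝ), Pool.Agent.Q190.EM.pd_sqn]
      unfold bs
      rw [EuclideanSpace.inner_single_left]
      simp
    rw [e1]
    ring
  have hki : ∀ z : Eu κ, |z k| ≤ ‖z‖ := fun z => by
    have := EuclideanSpace.norm_sq_eq z
    refine abs_le_of_sq_le_sq ?_ (norm_nonneg _)
    rw [this]
    have h1 := Finset.single_le_sum (f := fun j => ‖z j‖ ^ 2) (fun j _ => sq_nonneg _)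
      (Finset.mem_univ k)
    simpa using h1
  have i1 : Integrable fun z => pd (bs κ k) φ z * ge z := by
    refine (ge_int.const_mul B).mono' ((pd_cont hφ _).mul ge_cont).aestronglyMeasurable
      (Eventually.of_forall fun z => ?_)
    rw [norm_mul, Real.norm_of_nonneg (ge_pos _).le, Real.norm_eq_abs]
    exact mul_le_mul_of_nonneg_right (hB' z) (ge_pos _).le
  have i2 : Integrable fun z => φ z * ge z := by
    refine (ge_int.const_mul B).mono' (hφ.continuous.mul ge_cont).aestronglyMeasurable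
      (Eventually.of_forall fun z => ?_)
    rw [norm_mul, Real.norm_of_nonneg (ge_pos _).le, Real.norm_eq_abs]
    exact mul_le_mul_of_nonneg_right (hB z) (ge_pos _).le
  have i3 : Integrable fun z => φ z * pd (bs κ k) (ge (κ := κ)) z := by
    simp_rw [hpd]
    refine (ge_int1.const_mul B).mono'
      ((hφ.continuous.mul (by have := ge_cont (κ := κ); fun_prop)).aestronglyMeasurable)
      (Eventually.of_forall fun z => ?_)
    rw [norm_mul, norm_neg, norm_mul, Real.norm_of_nonneg (ge_pos _).le, Real.norm_eq_abs,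
      Real.norm_eq_abs]
    have h1 := mul_le_mul_of_nonneg_right (hki z) (ge_pos z).le
    exact mul_le_mul (hB z) h1 (mul_nonneg (abs_nonneg _) (ge_pos z).le) hB0
  have h := integral_mul_fderiv_eq_neg_fderiv_mul_of_integrable (f := φ) (g := ge (κ := κ))
    (v := bs κ k) (μ := (volume : Measure (Eu κ))) i1 i3 i2
    (fun x _ => hφ.differentiable one_ne_zero x) (fun x _ => hge.differentiable one_ne_zero x)
  have e1 : ∫ z, φ z * (fderiv ℝ (ge (κ := κ)) z) (bs κ k) = -∫ z, z k * φ z * ge z := by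
    rw [← integral_neg]
    refine integral_congr_ae (Eventually.of_forall fun z => ?_)
    have := hpd z
    unfold pd at this
    simp only [this]
    ring
  rw [e1] at h
  have e2 : ∫ z, (fderiv ℝ φ z) (bs κ k) * ge z = ∫ z, pd (bs κ k) φ z * ge z := rfl
  rw [e2] at h
  linarith

end Pool.Agent.KS6_97.Sch
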