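import Pool.Agent.KS6_97.Sch.Gen

/-!
# The derivative of `E F(t, t X + √t G)` is the expectation of the generator
-/

set_option autoImplicit false

namespace Pool.Agent.KS6_97.Sch

open MeasureTheory Set Filter Topology
open scoped ENNReal InnerProductSpace ContDiff
open Pool.Agent.H888R2.KT (LC pst gs zz gc)
open Pool.Agent.H212R2.KLS (mu Bdd)
open Pool.Agent.Q86.FIB
open Pool.Agent.Q86.EM

variable {κ : Type} [Fintype κ] [DecidableEq κ]

theorem coord_le (z : Eu κ) (k : κ) : |z k| ≤ ‖z‖ := by
  have := EuclideanSpace.norm_sq_eq z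
  refine abs_le_of_sq_le_sq ?_ (norm_nonneg _)
  rw [this]
  have h1 := Finset.single_le_sum (f := fun j => ‖z j‖ ^ 2) (fun j _ => sq_nonneg _)
    (Finset.mem_univ k)
  simpa using h1

theorem clm_expand (L : ℝ × Eu κ →L[ℝ] ℝ) (s : ℝ) (w : Eu κ) :
    L (s, w) = s * L et + ∑ k, w k * L (ek k) := by
  have h1 : w = ∑ k, w k • bs κ k := by
    ext i
    have : ∀ k : κ, (w k • bs κ k) i = if k = i then w k else 0 := fun k => by
      unfold bs
      simp only [PiLp.smul_apply, smul_eq_mul]
      by_cases h : k = i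
      · subst h
        simp
      · simp [h, Ne.symm h]
    rw [WithLp.ofLp_sum, Finset.sum_apply]
    simp_rw [this]
    simp
  have h2 : ((s, w) : ℝ × Eu κ) = s • et + ∑ k, w k • ek k := by
    unfold et ek
    have h3 : ∑ k, w k • ((0, bs κ k) : ℝ × Eu κ) = (0, w) := by
      have h4 : ∀ k, w k • ((0, bs κ k) : ℝ × Eu κ) = (0, w k • bs κ k) := fun k => by
        simp
      simp_rw [h4]
      refine Prod.ext ?_ ?_
      · rw [Prod.fst_sum]
        simp
      · rw [Prod.snd_sum]
        exact h1.symm
    rw [h3]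
    simp
  rw [h2, map_add, map_smul, map_sum]
  simp only [smul_eq_mul, map_smul]

theorem fd_le (L : ℝ × Eu κ →L[ℝ] ℝ) : ‖L‖ ≤ |L et| + ∑ k, |L (ek k)| := by
  refine ContinuousLinearMap.opNorm_le_bound _ (by positivity) fun v => ?_
  obtain ⟨s, w⟩ := v
  rw [clm_expand, Real.norm_eq_abs]
  refine (abs_add_le _ _).trans ?_
  rw [add_mul, Finset.sum_mul]
  refine add_le_add ?_ ((Finset.abs_sum_le_sum_abs _ _).trans (Finset.sum_le_sum fun k _ => ?_))
  · rw [abs_mul, mul_comm]
    exact mul_le_mul_of_nonneg_left (norm_fst_le (s, w)) (abs_nonneg _)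
  · rw [abs_mul, mul_comm]
    exact mul_le_mul_of_nonneg_left ((coord_le w k).trans (norm_snd_le (s, w))) (abs_nonneg _)

theorem Nice.fd {F : ℝ × Eu κ → ℝ} (hF : Nice F) : ∃ B : ℝ, 0 ≤ B ∧ ∀ p, ‖fderiv ℝ F p‖ ≤ B := by
  choose b hb using hF.b1
  refine ⟨|b et| + ∑ k, |b (ek k)|, by positivity, fun p => (fd_le _).trans ?_⟩
  refine add_le_add ((hb et p).trans (le_abs_self _)) (Finset.sum_le_sum fun k _ =>
    (hb (ek k) p).trans (le_abs_self _))

theorem EE_deriv {ρ : Eu κ → ℝ} (hρ : LC ρ) {F : ℝ × Eu κ → ℝ} (hF : Nice F) {t : ℝ} (ht : 0 < t) :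
    HasDerivAt (EE ρ F) (EE ρ (Dg (mu ρ) F) t) t := by
  have hμ := bs_lc hρ
  have hfin := hμ.fin
  obtain ⟨R, hR0, hR⟩ := hμ.bdd
  obtain ⟨B, hB0, hB⟩ := hF.fd
  have hdiff := hF.smooth.differentiable (by simp)
  have hfdc : Continuous (fderiv ℝ F) := hF.smooth.continuous_fderiv (by simp)
  set P := (mu ρ).prod (volume : Measure (Eu κ)) with hP
  obtain ⟨F', hF'⟩ : ∃ F' : ℝ → Eu κ × Eu κ → ℝ, ∀ s q, F' s q =
      fderiv ℝ F (s, s • q.1 + √s • q.2) (1, q.1 + (1 / (2 * √s)) • q.2) * ge q.2 :=
    ⟨_, fun s q => rfl⟩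
  have hRp : ∀ᵐ q ∂P, ‖q.1‖ ≤ R := by
    have h2 := Measure.ae_prod_mem_iff_ae_ae_mem (μ := mu ρ) (ν := (volume : Measure (Eu κ)))
      (s := {q : Eu κ × Eu κ | ‖q.1‖ ≤ R}) (measurableSet_le (by fun_prop) (by fun_prop))
    refine h2.2 ?_
    filter_upwards [hR] with x hx
    exact Eventually.of_forall fun z => hx
  set c := 1 / (2 * √(t / 2)) with hc
  have hst2 : 0 < √(t / 2) := Real.sqrt_pos.2 (by positivity)
  have hc0 : 0 < c := by positivity
  have key := hasDerivAt_integral_of_dominated_loc_of_deriv_le (𝕜 := ℝ) (μ := P)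
    (F := fun s q => F (s, s • q.1 + √s • q.2) * ge q.2) (F' := F') (x₀ := t)
    (s := Ioi (t / 2)) (bound := fun q => B * ((1 + R + c) * (1 + ‖q.2‖)) * ge q.2)
    (Ioi_mem_nhds (by linarith)) ?_ ?_ ?_ ?_ ?_ ?_
  · have hval : (∫ q, F' t q ∂P) / gc κ 1 = EE ρ (Dg (mu ρ) F) t := by
      -- expand
      have hst : 0 < √t := Real.sqrt_pos.2 ht
      have hex : ∀ q : Eu κ × Eu κ, F' t q =
          (pd et F (t, t • q.1 + √t • q.2) * ge q.2 +
            ∑ k, q.1 k * pd (ek k) F (t, t • q.1 + √t • q.2) * ge q.2) +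
            ∑ k, (1 / (2 * √t)) * (q.2 k * pd (ek k) F (t, t • q.1 + √t • q.2) * ge q.2) := by
        intro q
        rw [hF', clm_expand, one_mul]
        unfold pd
        rw [add_mul, Finset.sum_mul, add_assoc, ← Finset.sum_add_distrib]
        congr 1
        refine Finset.sum_congr rfl fun k _ => ?_
        simp only [PiLp.add_apply, PiLp.smul_apply, smul_eq_mul]
        ring
      have pc : ∀ v, Continuous (pd v F) := fun v => (pd_smooth hF.smooth v).continuous
      have pcp : ∀ v, Continuous fun q : Eu κ × Eu κ => pd v F (t, t • q.1 + √t • q.2) := fun v =>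
        (pc v).comp (path_cont t)
      obtain ⟨b, hb⟩ : ∃ b : ℝ × Eu κ → ℝ, ∀ v p, |pd v F p| ≤ b v := by
        choose b hb using hF.b1
        exact ⟨b, hb⟩
      have hb0 : ∀ v, 0 ≤ b v := fun v => (abs_nonneg _).trans (hb v 0)
      have i1 : Integrable (fun q : Eu κ × Eu κ => pd et F (t, t • q.1 + √t • q.2) * ge q.2) P :=
        prod_int_bd hρ (pcp et) fun q => hb et _
      have i2 : ∀ k, Integrable (fun q : Eu κ × Eu κ =>
          q.1 k * pd (ek k) F (t, t • q.1 + √t • q.2) * ge q.2) P := fun k => by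
        refine prod_int hρ (H := fun q : Eu κ × Eu κ =>
          q.1 k * pd (ek k) F (t, t • q.1 + √t • q.2))
          ((by fun_prop : Continuous fun q : Eu κ × Eu κ => q.1 k).mul (pcp _))
          (B := R * b (ek k)) ?_
        filter_upwards [hR] with x hx z
        rw [abs_mul]
        have h1 := mul_le_mul ((coord_le x k).trans hx) (hb (ek k) (t, t • x + √t • z))
          (abs_nonneg _) hR0
        have h2 := mul_nonneg (mul_nonneg hR0 (hb0 (ek k))) (norm_nonneg z)
        linarith
      have i3 : ∀ k, Integrable (fun q : Eu κ × Eu κ =>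
          q.2 k * pd (ek k) F (t, t • q.1 + √t • q.2) * ge q.2) P := fun k => by
        refine prod_int hρ (H := fun q : Eu κ × Eu κ =>
          q.2 k * pd (ek k) F (t, t • q.1 + √t • q.2))
          ((by fun_prop : Continuous fun q : Eu κ × Eu κ => q.2 k).mul (pcp _))
          (B := b (ek k)) ?_
        refine Eventually.of_forall fun x z => ?_
        rw [abs_mul]
        have h1 := mul_le_mul (coord_le z k) (hb (ek k) (t, t • x + √t • z))
          (abs_nonneg _) (norm_nonneg _)
        have h2 := hb0 (ek k)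
        linarith
      have hint : ∫ q, F' t q ∂P = (∫ q : Eu κ × Eu κ, pd et F (t, t • q.1 + √t • q.2) * ge q.2 ∂P) +
          (∑ k, ∫ q : Eu κ × Eu κ, q.1 k * pd (ek k) F (t, t • q.1 + √t • q.2) * ge q.2 ∂P) +
          ∑ k, (1 / (2 * √t)) *
            ∫ q : Eu κ × Eu κ, q.2 k * pd (ek k) F (t, t • q.1 + √t • q.2) * ge q.2 ∂P := by
        simp_rw [hex]
        have s2 : Integrable (fun q : Eu κ × Eu κ =>
            ∑ k, q.1 k * pd (ek k) F (t, t • q.1 + √t • q.2) * ge q.2) P :=
          integrable_finsetSum _ fun k _ => i2 k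
        have i3' : ∀ k, Integrable (fun q : Eu κ × Eu κ =>
            (1 / (2 * √t)) * (q.2 k * pd (ek k) F (t, t • q.1 + √t • q.2) * ge q.2)) P := fun k =>
          (i3 k).const_mul _
        have s3 : Integrable (fun q : Eu κ × Eu κ =>
            ∑ k, (1 / (2 * √t)) * (q.2 k * pd (ek k) F (t, t • q.1 + √t • q.2) * ge q.2)) P :=
          integrable_finsetSum _ fun k _ => i3' k
        have s12 : Integrable (fun q : Eu κ × Eu κ =>
            pd et F (t, t • q.1 + √t • q.2) * ge q.2 +
            ∑ k, q.1 k * pd (ek k) F (t, t • q.1 + √t • q.2) * ge q.2) P := i1.add s2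
        rw [integral_add s12 s3, integral_add i1 s2, integral_finsetSum _ fun k _ => i2 k,
          integral_finsetSum _ fun k _ => i3' k]
        simp_rw [integral_const_mul]
      -- Bayes
      have hbay : ∀ k, ∫ q : Eu κ × Eu κ, q.1 k * pd (ek k) F (t, t • q.1 + √t • q.2) * ge q.2 ∂P =
          ∫ q : Eu κ × Eu κ, Ex (mu ρ) (fun x => x k) (t, t • q.1 + √t • q.2) *
            pd (ek k) F (t, t • q.1 + √t • q.2) * ge q.2 ∂P := fun k =>
        bayes hρ ht (u := fun x => x k) (φ := fun y => pd (ek k) F (t, y)) (by fun_prop)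
          ((pc _).comp (by fun_prop)) (B := b (ek k)) fun y => hb _ _
      -- integration by parts
      have hst' : ∀ k, ∫ q : Eu κ × Eu κ, q.2 k * pd (ek k) F (t, t • q.1 + √t • q.2) * ge q.2 ∂P =
          √t * ∫ q : Eu κ × Eu κ, pd (ek k) (pd (ek k) F) (t, t • q.1 + √t • q.2) * ge q.2 ∂P := by
        intro k
        obtain ⟨b2, hb2⟩ := hF.b2 (ek k) (ek k)
        have i4 : Integrable (fun q : Eu κ × Eu κ =>
            pd (ek k) (pd (ek k) F) (t, t • q.1 + √t • q.2) * ge q.2) P :=
          prod_int_bd hρ ((pd_smooth (pd_smooth hF.smooth _) _).continuous.comp (path_cont t))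
            fun q => hb2 _
        rw [integral_prod _ (i3 k), integral_prod _ i4, ← integral_const_mul]
        refine integral_congr_ae (Eventually.of_forall fun x => ?_)
        simp only
        have hφ : ContDiff ℝ 1 fun z : Eu κ => pd (ek k) F (t, t • x + √t • z) :=
          (sm1 (pd_smooth hF.smooth _)).comp (by fun_prop)
        have hpd : ∀ z, pd (bs κ k) (fun z : Eu κ => pd (ek k) F (t, t • x + √t • z)) z =
            √t * pd (ek k) (pd (ek k) F) (t, t • x + √t • z) := by
          intro z
          have h1 : HasFDerivAt (fun z : Eu κ => ((t, t • x + √t • z) : ℝ × Eu κ))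
              (√t • ContinuousLinearMap.inr ℝ ℝ (Eu κ)) z := by
            have e : (fun z : Eu κ => ((t, t • x + √t • z) : ℝ × Eu κ)) = fun z =>
                (t, t • x) + (√t • ContinuousLinearMap.inr ℝ ℝ (Eu κ)) z := by
              funext z
              simp
            rw [e]
            exact ((√t • ContinuousLinearMap.inr ℝ ℝ (Eu κ)).hasFDerivAt).const_add _
          have h2 := ((sm1 (pd_smooth hF.smooth (ek k))).differentiable one_ne_zero
            (t, t • x + √t • z)).hasFDerivAt.comp z h1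
          unfold pd at h2 ⊢
          have h3 : (fun z : Eu κ => (fderiv ℝ F (t, t • x + √t • z)) (ek k)) =
            (fun x => (fderiv ℝ F x) (ek k)) ∘ fun z : Eu κ => (t, t • x + √t • z) := rfl
          rw [h3, h2.fderiv]
          simp only [ContinuousLinearMap.comp_apply, smul_apply,
            ContinuousLinearMap.inr_apply, map_smul, smul_eq_mul]
          rfl
        have hs := stein hφ (B := max (b (ek k)) (√t * b2)) (fun z => (hb _ _).trans (le_max_left _ _))
          k (fun z => by
            rw [hpd, abs_mul, abs_of_pos hst]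
            exact (mul_le_mul_of_nonneg_left (hb2 _) hst.le).trans (le_max_right _ _))
        rw [hs]
        simp_rw [hpd]
        rw [← integral_const_mul]
        refine integral_congr_ae (Eventually.of_forall fun z => ?_)
        simp only
        ring
      rw [hint]
      simp_rw [hbay, hst']
      unfold EE
      congr 1
      have j2 : ∀ k, Integrable (fun q : Eu κ × Eu κ =>
          pd (ek k) (pd (ek k) F) (t, t • q.1 + √t • q.2) * ge q.2) P := fun k => by
        obtain ⟨b2, hb2⟩ := hF.b2 (ek k) (ek k)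
        exact prod_int_bd hρ ((pd_smooth (pd_smooth hF.smooth _) _).continuous.comp (path_cont t))
            fun q => hb2 _
      have j3 : ∀ k, Integrable (fun q : Eu κ × Eu κ =>
          Ex (mu ρ) (fun x => x k) (t, t • q.1 + √t • q.2) *
            pd (ek k) F (t, t • q.1 + √t • q.2) * ge q.2) P := fun k => by
        have hxk : Continuous fun x : Eu κ => x k := by fun_prop
        obtain ⟨M, hM⟩ := Ex_bdd hμ hxk
        refine prod_int_bd hρ (H := fun q : Eu κ × Eu κ =>
          Ex (mu ρ) (fun x => x k) (t, t • q.1 + √t • q.2) *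
            pd (ek k) F (t, t • q.1 + √t • q.2))
            (((Ex_smooth hμ hxk).continuous.comp (path_cont t)).mul (pcp _)) (B := M * b (ek k))
            fun q => ?_
        rw [abs_mul]
        exact mul_le_mul (hM _) (hb _ _) (abs_nonneg _) ((abs_nonneg _).trans (hM 0))
      have hD : ∀ q : Eu κ × Eu κ, Dg (mu ρ) F (t, t • q.1 + √t • q.2) * ge q.2 =
          (pd et F (t, t • q.1 + √t • q.2) * ge q.2 +
            ∑ k, Ex (mu ρ) (fun x => x k) (t, t • q.1 + √t • q.2) *
              pd (ek k) F (t, t • q.1 + √t • q.2) * ge q.2) +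
            ∑ k, (1 / 2) * (pd (ek k) (pd (ek k) F) (t, t • q.1 + √t • q.2) * ge q.2) := by
        intro q
        unfold Dg
        rw [← Finset.mul_sum, ← Finset.sum_mul, ← Finset.sum_mul]
        ring
      simp_rw [hD]
      have u3 : Integrable (fun q : Eu κ × Eu κ =>
          ∑ k, Ex (mu ρ) (fun x => x k) (t, t • q.1 + √t • q.2) *
              pd (ek k) F (t, t • q.1 + √t • q.2) * ge q.2) P :=
        integrable_finsetSum _ fun k _ => j3 k
      have j2' : ∀ k, Integrable (fun q : Eu κ × Eu κ =>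
          (1 / 2) * (pd (ek k) (pd (ek k) F) (t, t • q.1 + √t • q.2) * ge q.2)) P := fun k =>
        (j2 k).const_mul _
      have u2 : Integrable (fun q : Eu κ × Eu κ =>
          ∑ k, (1 / 2) * (pd (ek k) (pd (ek k) F) (t, t • q.1 + √t • q.2) * ge q.2)) P :=
        integrable_finsetSum _ fun k _ => j2' k
      have u12 : Integrable (fun q : Eu κ × Eu κ =>
          pd et F (t, t • q.1 + √t • q.2) * ge q.2 +
            ∑ k, Ex (mu ρ) (fun x => x k) (t, t • q.1 + √t • q.2) *
              pd (ek k) F (t, t • q.1 + √t • q.2) * ge q.2) P := i1.add u3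
      rw [integral_add u12 u2, integral_add i1 u3, integral_finsetSum _ fun k _ => j3 k,
          integral_finsetSum _ fun k _ => j2' k]
      simp_rw [integral_const_mul]
      congr 1
      refine Finset.sum_congr rfl fun k _ => ?_
      field_simp
    have h2 := key.2.div_const (gc κ 1)
    rw [hval] at h2
    exact h2
  · refine Eventually.of_forall fun s => ?_
    exact ((hF.smooth.continuous.comp (path_cont s)).mul
      (ge_cont.comp continuous_snd)).aestronglyMeasurable
  · obtain ⟨B0, hB0'⟩ := hF.b0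
    exact EE_int hρ hF.smooth.continuous hB0' t
  · have : F' t = fun q => fderiv ℝ F (t, t • q.1 + √t • q.2) (1, q.1 + (1 / (2 * √t)) • q.2) *
        ge q.2 := by
      funext q
      exact hF' t q
    rw [this]
    exact (((hfdc.comp (path_cont t)).clm_apply (by fun_prop)).mul
      (ge_cont.comp continuous_snd)).aestronglyMeasurable
  · filter_upwards [hRp] with q hq s hs
    have hs' : t / 2 < s := hs
    rw [hF', norm_mul, Real.norm_of_nonneg (ge_pos _).le]
    refine mul_le_mul_of_nonneg_right ?_ (ge_pos _).le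
    refine (ContinuousLinearMap.le_opNorm _ _).trans ?_
    refine mul_le_mul (hB _) ?_ (norm_nonneg _) hB0
    have h1 : ‖((1, q.1 + (1 / (2 * √s)) • q.2) : ℝ × Eu κ)‖ ≤
        ‖(1 : ℝ)‖ + ‖q.1 + (1 / (2 * √s)) • q.2‖ := by
      rw [Prod.norm_mk]
      exact max_le_add_of_nonneg (norm_nonneg _) (norm_nonneg _)
    have h2 : ‖q.1 + (1 / (2 * √s)) • q.2‖ ≤ R + c * ‖q.2‖ := by
      refine (norm_add_le _ _).trans (add_le_add hq ?_)
      rw [norm_smul, Real.norm_of_nonneg (by positivity)]
      refine mul_le_mul_of_nonneg_right ?_ (norm_nonneg _)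
      rw [hc]
      refine one_div_le_one_div_of_le (by positivity) ?_
      exact mul_le_mul_of_nonneg_left (Real.sqrt_le_sqrt hs'.le) (by norm_num)
    rw [norm_one] at h1
    have h3 := norm_nonneg q.2
    have h4 : 0 ≤ R * ‖q.2‖ := by positivity
    nlinarith
  · have h1 := prod_int hρ (H := fun q : Eu κ × Eu κ => B * ((1 + R + c) * (1 + ‖q.2‖)))
      (by fun_prop) (B := B * (1 + R + c)) (Eventually.of_forall fun x z => by
        rw [abs_of_nonneg (by positivity)]
        exact le_of_eq (by ring))
    exact h1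
  · refine Eventually.of_forall fun q s hs => ?_
    have hs' : 0 < s := lt_trans (by positivity) hs
    rw [hF']
    have h1 : HasDerivAt (fun s : ℝ => ((s, s • q.1 + √s • q.2) : ℝ × Eu κ))
        (1, q.1 + (1 / (2 * √s)) • q.2) s := by
      have h2 := (hasDerivAt_id s).smul_const q.1
      rw [one_smul] at h2
      have h3 := (Real.hasDerivAt_sqrt hs'.ne').smul_const q.2
      exact (hasDerivAt_id s).prodMk (h2.add h3)
    have h4 := (hdiff (s, s • q.1 + √s • q.2)).hasFDerivAt.comp_hasDerivAt s h1
    exact h4.mul_const _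

/-- continuity at time zero -/
theorem EE_zero {ρ : Eu κ → ℝ} (hρ : LC ρ) (h1 : mu ρ univ = 1) {F : ℝ × Eu κ → ℝ}
    (hF : Continuous F) {B : ℝ} (hB : ∀ p, |F p| ≤ B) : ContinuousAt (EE ρ F) 0 ∧
      EE ρ F 0 = F (0, 0) := by
  have hfin := (bs_lc hρ).fin
  constructor
  · unfold EE
    refine ContinuousAt.div_const ?_ _
    refine continuousAt_of_dominated (bound := fun q => B * ge q.2) ?_ ?_ ?_ ?_
    · exact Eventually.of_forall fun t => (EE_int hρ hF hB t).aestronglyMeasurable
    · refine Eventually.of_forall fun t => Eventually.of_forall fun q => ?_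
      rw [norm_mul, Real.norm_of_nonneg (ge_pos _).le, Real.norm_eq_abs]
      exact mul_le_mul_of_nonneg_right (hB _) (ge_pos _).le
    · have := prod_int_bd hρ (H := fun _ : Eu κ × Eu κ => |B|) continuous_const (B := |B|)
        fun q => by simp
      refine this.mono' ((continuous_const.mul (ge_cont.comp continuous_snd)).aestronglyMeasurable)
        (Eventually.of_forall fun q => ?_)
      rw [norm_mul, Real.norm_of_nonneg (ge_pos _).le, Real.norm_eq_abs]
    · refine Eventually.of_forall fun q => ?_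
      have : Continuous fun t : ℝ => F (t, t • q.1 + √t • q.2) * ge q.2 := by fun_prop
      exact this.continuousAt
  · have := EE_const hρ h1 (F (0, 0)) 0
    unfold EE at this ⊢
    rw [← this]
    congr 2
    funext q
    simp

end Pool.Agent.KS6_97.Sch
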