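import Pool.Agent.KS6_97.Sch.IL

/-!
# The improved Lichnerowicz inequality for log-concave densities of bounded support times a Gaussian
-/

set_option autoImplicit false

namespace Pool.Agent.KS6_97.Sch

open MeasureTheory Set Filter Topology
open scoped ENNReal InnerProductSpace ContDiff
open Pool.Agent.H888R2.KT (LC pst gs zz gc)
open Pool.Agent.H212R2.KLS (mu Bdd)
open Pool.Agent.Q86.FIB
open Pool.Agent.Q86.EM
open Pool.Agent.Q31.EM.COL (gg gg_cont gg_pos gg_le gg_lin fubz int_tendsto)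
open Pool.Agent.Q190.EM (norm_fd)

variable {κ : Type} [Fintype κ]

theorem gg_sq (a : ℝ) (ha : 0 < a) (p x : Eu κ) : ‖x‖ ^ 2 * gg a p x ≤ 4 / a + 2 * ‖p‖ ^ 2 := by
  have h1 : ‖x‖ ^ 2 ≤ 2 * ‖x - p‖ ^ 2 + 2 * ‖p‖ ^ 2 := by
    have h2 : ‖x‖ ≤ ‖x - p‖ + ‖p‖ := by
      have := norm_add_le (x - p) p
      simpa using this
    have := norm_nonneg x
    nlinarith [sq_nonneg (‖x - p‖ - ‖p‖), norm_nonneg (x - p), norm_nonneg p]
  have h2 : ‖x - p‖ ^ 2 * gg a p x ≤ 2 / a := by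
    have e : gg a p x = (Real.exp (a / 2 * ‖x - p‖ ^ 2))⁻¹ := by
      unfold gg
      rw [Real.exp_neg]
    have h3 := Real.add_one_le_exp (a / 2 * ‖x - p‖ ^ 2)
    rw [e, ← div_eq_mul_inv, div_le_iff₀ (Real.exp_pos _)]
    have e2 : 2 / a * (a / 2 * ‖x - p‖ ^ 2 + 1) = ‖x - p‖ ^ 2 + 2 / a := by
      field_simp
    have h4 : 0 < 2 / a := by positivity
    have h5 := mul_le_mul_of_nonneg_left h3 h4.le
    linarith
  have h6 := gg_pos a p x
  have h7 := gg_le a ha p x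
  have h8 := mul_le_mul_of_nonneg_right h1 h6.le
  have h9 : ‖p‖ ^ 2 * gg a p x ≤ ‖p‖ ^ 2 := by
    have := mul_le_mul_of_nonneg_left h7 (sq_nonneg ‖p‖)
    linarith
  have e3 : (4 : ℝ) / a = 2 * (2 / a) := by ring
  rw [e3]
  linarith

/-- the inequality for compactly supported functions, with a slightly larger constant -/
theorem ilp_core {ρ : Eu κ → ℝ} (hρ : LC ρ) {a s s' : ℝ} (p : Eu κ) (ha : 0 < a) (hs0 : 0 ≤ s)
    (hss : s < s')
    (hLV : ∀ w : Eu κ, (∫ x, gg a p x ∂(mu ρ)) * (∫ x, ⟪w, x⟫_ℝ ^ 2 * gg a p x ∂(mu ρ)) -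
      (∫ x, ⟪w, x⟫_ℝ * gg a p x ∂(mu ρ)) ^ 2 ≤ s * ‖w‖ ^ 2 * (∫ x, gg a p x ∂(mu ρ)) ^ 2)
    (f : Eu κ → ℝ) (hf : ContDiff ℝ 1 f) (hfs : HasCompactSupport f) :
    (∫ x, gg a p x ∂(mu ρ)) * (∫ x, f x ^ 2 * gg a p x ∂(mu ρ)) -
      (∫ x, f x * gg a p x ∂(mu ρ)) ^ 2 ≤
      Real.sqrt (s' / a) * (∫ x, gg a p x ∂(mu ρ)) * ∫ x, ‖fderiv ℝ f x‖ ^ 2 * gg a p x ∂(mu ρ) := by
  classical
  have hgc := gg_cont a p
  have hfc := hf.continuous
  have hdc : Continuous fun x => ‖fderiv ℝ f x‖ := (hf.continuous_fderiv (by norm_num)).norm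
  obtain ⟨B1, hB1⟩ := hfs.exists_bound_of_continuous hfc
  obtain ⟨B2, hB2⟩ := (hfs.fderiv ℝ).exists_bound_of_continuous
    (hf.continuous_fderiv (by norm_num))
  obtain ⟨B, hBB⟩ : ∃ B : ℝ, B = max B1 B2 := ⟨_, rfl⟩
  have hB : ∀ x, |f x| ≤ B := fun x => by
    rw [hBB]
    exact (by simpa using hB1 x : |f x| ≤ B1).trans (le_max_left _ _)
  have hB' : ∀ x, ‖fderiv ℝ f x‖ ≤ B := fun x => by
    rw [hBB]
    exact (hB2 x).trans (le_max_right _ _)
  have hB0 : 0 ≤ B := (abs_nonneg _).trans (hB 0)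
  have hgab : ∀ x, |gg a p x| ≤ 1 := fun x => by
    rw [abs_of_pos (gg_pos a p x)]
    exact gg_le a ha p x
  -- bounded functions
  have bF2 : ∀ x, |f x ^ 2 * gg a p x| ≤ B ^ 2 := fun x => by
    rw [abs_mul, abs_pow]
    calc |f x| ^ 2 * |gg a p x| ≤ B ^ 2 * 1 :=
          mul_le_mul (pow_le_pow_left₀ (abs_nonneg _) (hB x) 2) (hgab x) (abs_nonneg _) (by positivity)
      _ = B ^ 2 := mul_one _
  have bF1 : ∀ x, |f x * gg a p x| ≤ B := fun x => by
    rw [abs_mul]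
    calc |f x| * |gg a p x| ≤ B * 1 := mul_le_mul (hB x) (hgab x) (abs_nonneg _) hB0
      _ = B := mul_one _
  have bFd : ∀ x, |‖fderiv ℝ f x‖ ^ 2 * gg a p x| ≤ B ^ 2 := fun x => by
    rw [abs_mul, abs_pow, abs_norm]
    calc ‖fderiv ℝ f x‖ ^ 2 * |gg a p x| ≤ B ^ 2 * 1 :=
          mul_le_mul (pow_le_pow_left₀ (norm_nonneg _) (hB' x) 2) (hgab x) (abs_nonneg _)
            (by positivity)
      _ = B ^ 2 := mul_one _
  have hxi : ∀ (i : κ) (x : Eu κ), |x i| ≤ ‖x‖ := fun i x => by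
    have := EuclideanSpace.norm_sq_eq x
    refine abs_le_of_sq_le_sq ?_ (norm_nonneg _)
    rw [this]
    have h1 := Finset.single_le_sum (f := fun j => ‖x j‖ ^ 2) (fun j _ => sq_nonneg _)
      (Finset.mem_univ i)
    simpa using h1
  have bL : ∀ (i : κ) (x : Eu κ), |x i * gg a p x| ≤ 1 + 2 / a + ‖p‖ := fun i x => by
    rw [abs_mul, abs_of_pos (gg_pos a p x)]
    exact (mul_le_mul_of_nonneg_right (hxi i x) (gg_pos a p x).le).trans (gg_lin a ha p x)
  have bQ : ∀ (i j : κ) (x : Eu κ), |x i * x j * gg a p x| ≤ 4 / a + 2 * ‖p‖ ^ 2 := fun i j x => by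
    rw [abs_mul, abs_mul, abs_of_pos (gg_pos a p x)]
    refine (mul_le_mul_of_nonneg_right ?_ (gg_pos a p x).le).trans (gg_sq a ha p x)
    rw [pow_two]
    exact mul_le_mul (hxi i x) (hxi j x) (abs_nonneg _) (norm_nonneg _)
  -- limits
  have t0 := int_tendsto hρ (fun x => gg a p x) hgc 1 hgab
  have t1 := int_tendsto hρ (fun x => f x * gg a p x) (by fun_prop) B bF1
  have t2 := int_tendsto hρ (fun x => f x ^ 2 * gg a p x) (by fun_prop) (B ^ 2) bF2
  have t3 := int_tendsto hρ (fun x => ‖fderiv ℝ f x‖ ^ 2 * gg a p x) (by fun_prop) (B ^ 2) bFd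
  have tl := fun i : κ => int_tendsto hρ (fun x => x i * gg a p x) (by fun_prop) _ (bL i)
  have tq := fun i j : κ => int_tendsto hρ (fun x => x i * x j * gg a p x) (by fun_prop) _ (bQ i j)
  -- finite measure facts
  have hfin := Pool.Agent.H888R2.KT.N7x.fin_mu hρ
  have intb : ∀ (F : Eu κ → ℝ) (M : ℝ), Continuous F → (∀ x, |F x| ≤ M) → Integrable F (mu ρ) :=
    fun F M hF hM => (integrable_const M).mono' hF.aestronglyMeasurable
      (Eventually.of_forall fun x => by rw [Real.norm_eq_abs]; exact hM x)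
  -- coordinates
  have exl : ∀ w x : Eu κ, ⟪w, x⟫_ℝ = ∑ i, w i * x i := fun w x => by
    rw [PiLp.inner_apply]
    refine Finset.sum_congr rfl fun i _ => ?_
    simp [mul_comm]
  have exq : ∀ w x : Eu κ, ⟪w, x⟫_ℝ ^ 2 = ∑ i, ∑ j, w i * w j * (x i * x j) := fun w x => by
    rw [exl, pow_two, Finset.sum_mul_sum]
    refine Finset.sum_congr rfl fun i _ => Finset.sum_congr rfl fun j _ => ?_
    ring
  set c0 := ∫ x, gg a p x ∂(mu ρ) with hc0
  obtain ⟨l0, hl0⟩ : ∃ l0 : κ → ℝ, ∀ i, l0 i = ∫ x, x i * gg a p x ∂(mu ρ) := ⟨_, fun i => rfl⟩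
  obtain ⟨q0, hq0⟩ : ∃ q0 : κ → κ → ℝ, ∀ i j, q0 i j = ∫ x, x i * x j * gg a p x ∂(mu ρ) :=
    ⟨_, fun i j => rfl⟩
  have il0 : ∀ w : Eu κ, ∫ x, ⟪w, x⟫_ℝ * gg a p x ∂(mu ρ) = ∑ i, w i * l0 i := fun w => by
    simp_rw [exl, Finset.sum_mul]
    rw [integral_finsetSum _ fun i _ => ?_]
    · refine Finset.sum_congr rfl fun i _ => ?_
      simp_rw [mul_assoc]
      rw [integral_const_mul, hl0]
    · simp_rw [mul_assoc]
      exact (intb _ _ (by fun_prop) (bL i)).const_mul _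
  have iq0 : ∀ w : Eu κ, ∫ x, ⟪w, x⟫_ℝ ^ 2 * gg a p x ∂(mu ρ) =
      ∑ i, ∑ j, w i * w j * q0 i j := fun w => by
    have ii : ∀ i j : κ, Integrable (fun x : Eu κ => w i * w j * (x i * x j) * gg a p x) (mu ρ) :=
      fun i j => by
        refine ((intb _ _ (by fun_prop) (bQ i j)).const_mul (w i * w j)).congr
          (Eventually.of_forall fun x => ?_)
        simp only
        ring
    simp_rw [exq, Finset.sum_mul]
    rw [integral_finsetSum _ fun i _ => integrable_finsetSum _ fun j _ => ii i j]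
    refine Finset.sum_congr rfl fun i _ => ?_
    rw [integral_finsetSum _ fun j _ => ii i j]
    refine Finset.sum_congr rfl fun j _ => ?_
    rw [hq0, ← integral_const_mul]
    refine integral_congr_ae (Eventually.of_forall fun x => ?_)
    simp only
    ring
  -- the regularised quantities
  obtain ⟨c, hc⟩ : ∃ c : ℝ → ℝ, ∀ h, c h = ∫ x, gs h (fun x => gg a p x) x ∂(mu ρ) :=
    ⟨_, fun h => rfl⟩
  obtain ⟨l, hl⟩ : ∃ l : κ → ℝ → ℝ, ∀ i h, l i h = ∫ x, gs h (fun x => x i * gg a p x) x ∂(mu ρ) :=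
    ⟨_, fun i h => rfl⟩
  obtain ⟨q, hq⟩ : ∃ q : κ → κ → ℝ → ℝ, ∀ i j h,
      q i j h = ∫ x, gs h (fun x => x i * x j * gg a p x) x ∂(mu ρ) := ⟨_, fun i j h => rfl⟩
  have tc : Tendsto c (𝓝[>] 0) (𝓝 c0) := t0.congr fun h => (hc h).symm
  have tl' : ∀ i, Tendsto (l i) (𝓝[>] 0) (𝓝 (l0 i)) := fun i => by
    rw [hl0]
    exact (tl i).congr fun h => (hl i h).symm
  have tq' : ∀ i j, Tendsto (q i j) (𝓝[>] 0) (𝓝 (q0 i j)) := fun i j => by
    rw [hq0]
    exact (tq i j).congr fun h => (hq i j h).symm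
  have hc0p : 0 < c0 := by
    have hne : mu ρ ≠ 0 := hρ.ne
    rw [hc0, integral_pos_iff_support_of_nonneg (fun x => (gg_pos a p x).le)
      (intb _ _ hgc hgab)]
    have : Function.support (fun x => gg a p x) = univ := by
      ext x
      simp [(gg_pos a p x).ne']
    rw [this]
    exact Measure.measure_univ_pos.2 hne
  obtain ⟨K, hK⟩ : ∃ K : κ → κ → ℝ → ℝ, ∀ i j h, K i j h = c h * q i j h - l i h * l j h :=
    ⟨_, fun i j h => rfl⟩
  obtain ⟨K0, hK0⟩ : ∃ K0 : κ → κ → ℝ, ∀ i j, K0 i j = c0 * q0 i j - l0 i * l0 j :=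
    ⟨_, fun i j => rfl⟩
  have tK : ∀ i j, Tendsto (K i j) (𝓝[>] 0) (𝓝 (K0 i j)) := fun i j => by
    rw [hK0]
    exact ((tc.mul (tq' i j)).sub ((tl' i).mul (tl' j))).congr fun h => (hK i j h).symm
  have te : Tendsto (fun h => ∑ i, ∑ j, |K i j h - K0 i j|) (𝓝[>] 0) (𝓝 0) := by
    have h1 : Tendsto (fun h => ∑ i, ∑ j, |K i j h - K0 i j|) (𝓝[>] 0)
        (𝓝 (∑ i : κ, ∑ j : κ, |K0 i j - K0 i j|)) :=
      tendsto_finsetSum _ fun i _ => tendsto_finsetSum _ fun j _ =>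
        ((tK i j).sub tendsto_const_nhds).abs
    simpa using h1
  have hev : ∀ᶠ h in 𝓝[>] (0 : ℝ), s * c0 ^ 2 + (∑ i, ∑ j, |K i j h - K0 i j|) < s' * c h ^ 2 := by
    have h1 : Tendsto (fun h => s * c0 ^ 2 + ∑ i, ∑ j, |K i j h - K0 i j|) (𝓝[>] 0)
        (𝓝 (s * c0 ^ 2 + 0)) := tendsto_const_nhds.add te
    have h2 : Tendsto (fun h => s' * c h ^ 2) (𝓝[>] 0) (𝓝 (s' * c0 ^ 2)) :=
      tendsto_const_nhds.mul (tc.pow 2)
    refine h1.eventually_lt h2 ?_
    rw [add_zero]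
    exact mul_lt_mul_of_pos_right hss (by positivity)
  refine le_of_tendsto_of_tendsto ((t0.mul t2).sub (t1.pow 2))
    (((tendsto_const_nhds (x := Real.sqrt (s' / a))).mul t0).mul t3) ?_
  filter_upwards [self_mem_nhdsWithin, hev] with h hh hevh
  have hh' : 0 < h := hh
  obtain ⟨z1, z2, z3⟩ := Pool.Agent.Q65.EM.smz κ ρ hρ h hh'
  set U : Eu κ → ℝ := fun x => -Real.log (zz h ρ x) + a / 2 * ‖x - p‖ ^ 2 with hU
  have hUs : ContDiff ℝ ∞ U := by
    rw [hU]
    exact z2.add ((contDiff_const.mul ((contDiff_id.sub contDiff_const).norm_sq ℝ)))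
  have hUc : SCv U a := by
    unfold SCv
    have e : (fun x : Eu κ => U x - a / 2 * ‖x‖ ^ 2) =
        (fun x => -Real.log (zz h ρ x)) + fun x => a / 2 * ‖p‖ ^ 2 - a * ⟪x, p⟫_ℝ := by
      funext x
      simp only [hU, Pi.add_apply]
      rw [norm_sub_sq_real]
      ring
    rw [e]
    refine z3.add ?_
    refine ⟨convex_univ, fun x _ y _ s t hs ht hst => ?_⟩
    simp only [smul_eq_mul]
    rw [inner_add_left, real_inner_smul_left, real_inner_smul_left]
    have : a / 2 * ‖p‖ ^ 2 = (s + t) * (a / 2 * ‖p‖ ^ 2) := by rw [hst, one_mul]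
    nlinarith [this]
  have hexp : ∀ x, Real.exp (-U x) = gg a p x * zz h ρ x := by
    intro x
    simp only [hU, gg]
    rw [neg_add, neg_neg, Real.exp_add, Real.exp_log (z1 x), mul_comm]
  have hg := (Pool.Agent.H888R2.KT.gc_pos (κ := κ) h hh').1
  set G := gc κ h
  have eF : ∀ (F : Eu κ → ℝ) (M : ℝ), Continuous F → (∀ x, |F x * gg a p x| ≤ M) →
      ∫ x, F x * Real.exp (-U x) = G * ∫ x, gs h (fun x => F x * gg a p x) x ∂(mu ρ) := by
    intro F M hF hM
    rw [← fubz hρ h hh' (fun x => F x * gg a p x) (by fun_prop) M hM]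
    refine integral_congr_ae (Eventually.of_forall fun x => ?_)
    simp only [hexp]
    ring
  have e0 : ∫ x, Real.exp (-U x) = G * c h := by
    rw [hc, ← fubz hρ h hh' (fun x => gg a p x) hgc 1 hgab]
    refine integral_congr_ae (Eventually.of_forall fun x => ?_)
    simp only [hexp]
  obtain ⟨hI, -⟩ := p_sci κ U a ha hUs hUc
  have hLVU : LV U s' := by
    intro w
    have el : ∀ i : κ, ∫ x : Eu κ, x i * Real.exp (-U x) = G * l i h := fun i => by
      rw [eF (fun x => x i) _ (by fun_prop) (bL i), hl]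
    have eq : ∀ i j : κ, ∫ x : Eu κ, x i * x j * Real.exp (-U x) = G * q i j h := fun i j => by
      rw [eF (fun x => x i * x j) _ (by fun_prop) (bQ i j), hq]
    have igl : ∀ i : κ, Integrable fun x : Eu κ => x i * Real.exp (-U x) := fun i =>
      Pool.Agent.Q190.EM.int_gr hUs hI (f := fun x : Eu κ => x i) (by fun_prop) (C := 1) (m := 1)
        fun x => by
          have := hxi i x
          rw [pow_one, one_mul]
          linarith
    have igq : ∀ i j : κ, Integrable fun x : Eu κ => x i * x j * Real.exp (-U x) := fun i j =>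
      Pool.Agent.Q190.EM.int_gr hUs hI (f := fun x : Eu κ => x i * x j) (by fun_prop) (C := 1)
        (m := 2) fun x => by
          rw [one_mul, abs_mul, pow_two]
          have h1 := hxi i x
          have h2 := hxi j x
          exact mul_le_mul (by linarith) (by linarith) (abs_nonneg _) (by positivity)
    have i1 : ∫ x, ⟪w, x⟫_ℝ * Real.exp (-U x) = G * ∑ i, w i * l i h := by
      simp_rw [exl, Finset.sum_mul]
      rw [integral_finsetSum _ fun i _ => ?_, Finset.mul_sum]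
      · refine Finset.sum_congr rfl fun i _ => ?_
        simp_rw [mul_assoc]
        rw [integral_const_mul, el]
        ring
      · simp_rw [mul_assoc]
        exact (igl i).const_mul _
    have i2 : ∫ x, ⟪w, x⟫_ℝ ^ 2 * Real.exp (-U x) = G * ∑ i, ∑ j, w i * w j * q i j h := by
      have ii : ∀ i j : κ, Integrable fun x : Eu κ => w i * w j * (x i * x j) * Real.exp (-U x) :=
        fun i j => by
          refine ((igq i j).const_mul (w i * w j)).congr (Eventually.of_forall fun x => ?_)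
          simp only
          ring
      simp_rw [exq, Finset.sum_mul]
      rw [integral_finsetSum _ fun i _ => integrable_finsetSum _ fun j _ => ii i j, Finset.mul_sum]
      refine Finset.sum_congr rfl fun i _ => ?_
      rw [integral_finsetSum _ fun j _ => ii i j, Finset.mul_sum]
      refine Finset.sum_congr rfl fun j _ => ?_
      have e1 : ∫ x : Eu κ, w i * w j * (x i * x j) * Real.exp (-U x) =
          w i * w j * ∫ x : Eu κ, x i * x j * Real.exp (-U x) := by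
        rw [← integral_const_mul]
        refine integral_congr_ae (Eventually.of_forall fun x => ?_)
        simp only
        ring
      rw [e1, eq]
      ring
    rw [i1, i2, e0]
    have hsum : ∀ (cc : ℝ) (ll : κ → ℝ) (qq : κ → κ → ℝ),
        cc * (∑ i, ∑ j, w i * w j * qq i j) - (∑ i, w i * ll i) ^ 2 =
          ∑ i, ∑ j, w i * w j * (cc * qq i j - ll i * ll j) := by
      intro cc ll qq
      rw [pow_two, Finset.sum_mul_sum, Finset.mul_sum, ← Finset.sum_sub_distrib]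
      refine Finset.sum_congr rfl fun i _ => ?_
      rw [Finset.mul_sum, ← Finset.sum_sub_distrib]
      refine Finset.sum_congr rfl fun j _ => ?_
      ring
    have k1 := hsum (c h) (fun i => l i h) (fun i j => q i j h)
    have k2 := hsum c0 l0 q0
    have k3 := hLV w
    rw [il0, iq0, k2] at k3
    simp_rw [← hK0] at k3
    simp_rw [← hK] at k1
    have hwi : ∀ i j : κ, |w i * w j| ≤ ‖w‖ ^ 2 := fun i j => by
      rw [abs_mul, pow_two]
      exact mul_le_mul (hxi i w) (hxi j w) (abs_nonneg _) (norm_nonneg _)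
    have k4 : ∑ i, ∑ j, w i * w j * K i j h ≤ (∑ i, ∑ j, w i * w j * K0 i j) +
        ‖w‖ ^ 2 * ∑ i, ∑ j, |K i j h - K0 i j| := by
      rw [Finset.mul_sum, ← Finset.sum_add_distrib]
      refine Finset.sum_le_sum fun i _ => ?_
      rw [Finset.mul_sum, ← Finset.sum_add_distrib]
      refine Finset.sum_le_sum fun j _ => ?_
      have h1 : w i * w j * (K i j h - K0 i j) ≤ ‖w‖ ^ 2 * |K i j h - K0 i j| := by
        refine (le_abs_self _).trans ?_
        rw [abs_mul]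
        exact mul_le_mul_of_nonneg_right (hwi i j) (abs_nonneg _)
      linarith
    have k5 : ∑ i, ∑ j, w i * w j * K i j h ≤ ‖w‖ ^ 2 * (s' * c h ^ 2) := by
      have := mul_le_mul_of_nonneg_left hevh.le (sq_nonneg ‖w‖)
      linarith
    have e1 : G * c h * (G * ∑ i, ∑ j, w i * w j * q i j h) - (G * ∑ i, w i * l i h) ^ 2 =
        G ^ 2 * (c h * (∑ i, ∑ j, w i * w j * q i j h) - (∑ i, w i * l i h) ^ 2) := by ring
    rw [e1, k1]
    have := mul_le_mul_of_nonneg_left k5 (sq_nonneg G)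
    linarith
  have hil := il ha hUs hUc (hs0.trans hss.le) hLVU f hf hfs
  have e9 : ∀ x, ‖fderiv ℝ f x‖ ^ 2 = ∑ i, (pd (bs κ i) f x) ^ 2 := fun x => norm_fd _
  simp_rw [← e9] at hil
  rw [e0, eF (fun x => f x ^ 2) _ (by fun_prop) bF2, eF f _ hfc bF1,
    eF (fun x => ‖fderiv ℝ f x‖ ^ 2) _ (by fun_prop) bFd, hc] at hil
  set I1 := ∫ x, gs h (fun x => gg a p x) x ∂(mu ρ)
  set I2 := ∫ x, gs h (fun x => f x ^ 2 * gg a p x) x ∂(mu ρ)
  set I3 := ∫ x, gs h (fun x => f x * gg a p x) x ∂(mu ρ)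
  set I4 := ∫ x, gs h (fun x => ‖fderiv ℝ f x‖ ^ 2 * gg a p x) x ∂(mu ρ)
  have q1 : G * I1 * (G * I2) - (G * I3) ^ 2 = G ^ 2 * (I1 * I2 - I3 ^ 2) := by ring
  have q2 : Real.sqrt (s' / a) * (G * I1) * (G * I4) =
      G ^ 2 * (Real.sqrt (s' / a) * I1 * I4) := by ring
  rw [q1, q2] at hil
  exact le_of_mul_le_mul_left hil (by positivity)

/-- **the improved Lichnerowicz inequality**, log-concave densities times a Gaussian -/
theorem ilp {ρ : Eu κ → ℝ} (hρ : LC ρ) {a s : ℝ} (p : Eu κ) (ha : 0 < a) (hs0 : 0 ≤ s)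
    (hLV : ∀ w : Eu κ, (∫ x, gg a p x ∂(mu ρ)) * (∫ x, ⟪w, x⟫_ℝ ^ 2 * gg a p x ∂(mu ρ)) -
      (∫ x, ⟪w, x⟫_ℝ * gg a p x ∂(mu ρ)) ^ 2 ≤ s * ‖w‖ ^ 2 * (∫ x, gg a p x ∂(mu ρ)) ^ 2)
    (f : Eu κ → ℝ) (hf : ContDiff ℝ 1 f) :
    (∫ x, gg a p x ∂(mu ρ)) * (∫ x, f x ^ 2 * gg a p x ∂(mu ρ)) -
      (∫ x, f x * gg a p x ∂(mu ρ)) ^ 2 ≤
      Real.sqrt (s / a) * (∫ x, gg a p x ∂(mu ρ)) * ∫ x, ‖fderiv ℝ f x‖ ^ 2 * gg a p x ∂(mu ρ) := by
  obtain ⟨R, hR0, hR⟩ := Pool.Agent.H888R2.KT.N3x.ae_bdd hρ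
  let χ : ContDiffBump (0 : Eu κ) := ⟨R + 1, R + 2, by linarith, by linarith⟩
  set v : Eu κ → ℝ := fun x => χ x * f x with hv
  have hvd : ContDiff ℝ 1 v := by
    rw [hv]
    exact χ.contDiff.mul hf
  have hvs : HasCompactSupport v := χ.hasCompactSupport.mul_right
  have hone : ∀ x : Eu κ, ‖x‖ ≤ R → v =ᶠ[𝓝 x] f := by
    intro x hx
    have : ∀ᶠ y in 𝓝 x, ‖y‖ < R + 1 :=
      continuous_norm.continuousAt.eventually_lt continuousAt_const (by linarith)
    filter_upwards [this] with y hy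
    have h5 : χ y = 1 := χ.one_of_mem_closedBall (by
      rw [mem_closedBall_zero_iff]
      exact hy.le)
    simp only [hv, h5, one_mul]
  have i1 : ∫ x, v x ^ 2 * gg a p x ∂(mu ρ) = ∫ x, f x ^ 2 * gg a p x ∂(mu ρ) := by
    refine integral_congr_ae ?_
    filter_upwards [hR] with x hx
    rw [(hone x hx).eq_of_nhds]
  have i3 : ∫ x, v x * gg a p x ∂(mu ρ) = ∫ x, f x * gg a p x ∂(mu ρ) := by
    refine integral_congr_ae ?_
    filter_upwards [hR] with x hx
    rw [(hone x hx).eq_of_nhds]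
  have i5 : ∫ x, ‖fderiv ℝ v x‖ ^ 2 * gg a p x ∂(mu ρ) =
      ∫ x, ‖fderiv ℝ f x‖ ^ 2 * gg a p x ∂(mu ρ) := by
    refine integral_congr_ae ?_
    filter_upwards [hR] with x hx
    rw [(hone x hx).fderiv_eq]
  rw [← i1, ← i3, ← i5]
  have hc : Continuous (fun s' : ℝ => Real.sqrt (s' / a) * (∫ x, gg a p x ∂(mu ρ)) *
      ∫ x, ‖fderiv ℝ v x‖ ^ 2 * gg a p x ∂(mu ρ)) := by fun_prop
  have h3 := (hc.tendsto s).mono_left (nhdsWithin_le_nhds (s := Ioi s))
  refine ge_of_tendsto h3 ?_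
  filter_upwards [self_mem_nhdsWithin] with s' hs'
  exact ilp_core hρ p ha hs0 hs' hLV v hvd hvs

end Pool.Agent.KS6_97.Sch
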