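import Mathlib

/-!
# Matrix algebra: the generator applied to a trace of a power, traces in an eigenbasis
-/

set_option autoImplicit false

namespace Pool.Agent.KS6_97.Sch

open Matrix Finset

variable {κ : Type} [Fintype κ] [DecidableEq κ]

section rec

variable {A : Matrix κ κ ℝ} {T : κ → Matrix κ κ ℝ} {P : κ → ℕ → Matrix κ κ ℝ}
  {Q : ℕ → Matrix κ κ ℝ}

theorem rec1 (hP0 : ∀ k, P k 0 = 0) (hP : ∀ k q, P k (q + 1) = T k * A ^ q + A * P k q)
    {q : ℕ} {W : ℝ}
    (h2 : ∀ r s, r + s + 2 = q → ∑ k, (A ^ r * T k * A ^ s * T k).trace ≤ W) :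
    ∀ j m l, m + l + j + 1 = q → ∑ k, (A ^ m * T k * A ^ l * P k j).trace ≤ j * W := by
  intro j
  induction j with
  | zero =>
    intro m l _
    simp [hP0]
  | succ j ih =>
    intro m l h
    have e : ∀ k, (A ^ m * T k * A ^ l * P k (j + 1)).trace =
        (A ^ (j + m) * T k * A ^ l * T k).trace + (A ^ m * T k * A ^ (l + 1) * P k j).trace := by
      intro k
      rw [hP, mul_add, trace_add]
      congr 1
      · rw [← mul_assoc, trace_mul_comm, pow_add]
        simp only [mul_assoc]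
      · rw [pow_succ]
        simp only [mul_assoc]
    simp_rw [e]
    rw [sum_add_distrib]
    have h3 := h2 (j + m) l (by omega)
    have h4 := ih m (l + 1) (by omega)
    push_cast
    linarith

theorem rec2 (hP0 : ∀ k, P k 0 = 0) (hP : ∀ k q, P k (q + 1) = T k * A ^ q + A * P k q)
    (hQ0 : Q 0 = 0) (hQ : ∀ q, Q (q + 1) = -(A * A) * A ^ q + A * Q q + ∑ k, T k * P k q)
    {q : ℕ} {W : ℝ} (h1 : 0 ≤ (A ^ (q + 1)).trace)
    (h2 : ∀ r s, r + s + 2 = q → ∑ k, (A ^ r * T k * A ^ s * T k).trace ≤ W) :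
    ∀ j m, m + j = q → (A ^ m * Q j).trace ≤ (j : ℝ) * (j - 1) / 2 * W := by
  intro j
  induction j with
  | zero =>
    intro m _
    simp [hQ0]
  | succ j ih =>
    intro m h
    have e : (A ^ m * Q (j + 1)).trace =
        -(A ^ (q + 1)).trace + (A ^ (m + 1) * Q j).trace +
          ∑ k, (A ^ m * T k * A ^ 0 * P k j).trace := by
      rw [hQ, mul_add, mul_add, trace_add, trace_add]
      congr 1
      · congr 1
        · rw [← trace_neg]
          congr 1
          have : q + 1 = m + (1 + 1 + j) := by omega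
          rw [this, pow_add, pow_add, pow_add, pow_one]
          simp only [neg_mul, mul_neg, mul_assoc]
        · rw [pow_succ, mul_assoc]
      · rw [mul_sum, trace_sum]
        refine sum_congr rfl fun k _ => ?_
        rw [pow_zero, mul_one, mul_assoc]
    rw [e]
    have h3 := rec1 hP0 hP h2 j m 0 (by omega)
    have h4 := ih (m + 1) (by omega)
    push_cast
    linarith

theorem rec3 (hP0 : ∀ k, P k 0 = 0) (hP : ∀ k q, P k (q + 1) = T k * A ^ q + A * P k q)
    (hQ0 : Q 0 = 0) (hQ : ∀ q, Q (q + 1) = -(A * A) * A ^ q + A * Q q + ∑ k, T k * P k q)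
    {q : ℕ} {W : ℝ} (h1 : 0 ≤ (A ^ (q + 1)).trace)
    (h2 : ∀ r s, r + s + 2 = q → ∑ k, (A ^ r * T k * A ^ s * T k).trace ≤ W) :
    (Q q).trace ≤ (q : ℝ) * (q - 1) / 2 * W := by
  have := rec2 hP0 hP hQ0 hQ h1 h2 q 0 (by simp)
  simpa using this

end rec

/-! ### diagonalisation -/

section diag

variable {A : Matrix κ κ ℝ} {b : OrthonormalBasis κ ℝ (EuclideanSpace ℝ κ)} {lam : κ → ℝ}

/-- the matrix with the columns `b a` -/
noncomputable def Um (b : OrthonormalBasis κ ℝ (EuclideanSpace ℝ κ)) : Matrix κ κ ℝ :=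
  Matrix.of fun i a => b a i

theorem Um_tm (b : OrthonormalBasis κ ℝ (EuclideanSpace ℝ κ)) : (Um b)ᵀ * Um b = 1 := by
  ext a c
  rw [mul_apply]
  have h := b.inner_eq_ite a c
  rw [PiLp.inner_apply] at h
  rw [one_apply, ← h]
  refine sum_congr rfl fun i _ => ?_
  simp only [Um, transpose_apply, of_apply]
  simp [mul_comm]

theorem Um_mt (b : OrthonormalBasis κ ℝ (EuclideanSpace ℝ κ)) : Um b * (Um b)ᵀ = 1 :=
  mul_eq_one_comm.1 (Um_tm b)

theorem diag_A (hA : ∀ a, A *ᵥ (b a : κ → ℝ) = lam a • (b a : κ → ℝ)) :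
    A * Um b = Um b * diagonal lam := by
  ext i a
  rw [mul_diagonal, mul_apply]
  have := congrFun (hA a) i
  simp only [mulVec, dotProduct, Pi.smul_apply, smul_eq_mul] at this
  simp only [Um, of_apply]
  rw [this, mul_comm]

theorem diag_pow (hA : ∀ a, A *ᵥ (b a : κ → ℝ) = lam a • (b a : κ → ℝ)) (r : ℕ) :
    A ^ r = Um b * diagonal (fun a => lam a ^ r) * (Um b)ᵀ := by
  have h1 : A ^ r * Um b = Um b * diagonal (fun a => lam a ^ r) := by
    induction r with
    | zero =>
      simp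
    | succ r ih =>
      rw [pow_succ, mul_assoc, diag_A hA, ← mul_assoc, ih, mul_assoc, diagonal_mul_diagonal]
      rfl
  rw [← h1, mul_assoc, Um_mt, mul_one]

theorem tr_pow (hA : ∀ a, A *ᵥ (b a : κ → ℝ) = lam a • (b a : κ → ℝ)) (r : ℕ) :
    (A ^ r).trace = ∑ a, lam a ^ r := by
  rw [diag_pow hA, trace_mul_comm, ← mul_assoc, Um_tm, one_mul, trace_diagonal]

theorem tr_AT (hA : ∀ a, A *ᵥ (b a : κ → ℝ) = lam a • (b a : κ → ℝ)) (r s : ℕ)
    (T : Matrix κ κ ℝ) (hT : Tᵀ = T) :
    (A ^ r * T * A ^ s * T).trace =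
      ∑ a, ∑ c, lam a ^ r * lam c ^ s * (((Um b)ᵀ * T * Um b) a c) ^ 2 := by
  have h1 : (A ^ r * T * A ^ s * T).trace = (diagonal (fun a => lam a ^ r) *
      ((Um b)ᵀ * T * Um b) * diagonal (fun a => lam a ^ s) * ((Um b)ᵀ * T * Um b)).trace := by
    rw [diag_pow hA r, diag_pow hA s]
    have : Um b * diagonal (fun a => lam a ^ r) * (Um b)ᵀ * T *
        (Um b * diagonal (fun a => lam a ^ s) * (Um b)ᵀ) * T = Um b *
        (diagonal (fun a => lam a ^ r) * (Um b)ᵀ * T * Um b * diagonal (fun a => lam a ^ s) *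
          (Um b)ᵀ * T) := by
      simp only [mul_assoc]
    rw [this, trace_mul_comm]
    simp only [mul_assoc]
  have hS : ∀ a c, ((Um b)ᵀ * T * Um b) c a = ((Um b)ᵀ * T * Um b) a c := fun a c => by
    have : ((Um b)ᵀ * T * Um b)ᵀ = (Um b)ᵀ * T * Um b := by
      rw [transpose_mul, transpose_mul, hT, transpose_transpose, mul_assoc]
    have h := congrFun (congrFun this a) c
    rwa [transpose_apply] at h
  rw [h1, trace]
  refine sum_congr rfl fun a _ => ?_
  rw [diag_apply, mul_apply]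
  refine sum_congr rfl fun c _ => ?_
  rw [mul_diagonal, diagonal_mul, hS a c]
  ring

end diag

/-! ### a pointwise inequality -/

theorem nesb {a b c : ℝ} (ha : 0 < a) (hb : 0 < b) (hc : 0 < c) (r s : ℕ) :
    a ^ r * b ^ s ≤ 2 * (a ^ (r + s + 1) / (b + c) + b ^ (r + s + 1) / (a + c) +
      c ^ (r + s + 1) / (a + b)) := by
  have key : ∀ x y z : ℝ, 0 < x → 0 < y → 0 < z → y ≤ x → z ≤ x → ∀ n : ℕ,
      x ^ n ≤ 2 * (x ^ (n + 1) / (y + z)) := by
    intro x y z hx hy hz hyx hzx n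
    rw [pow_succ, ← mul_div_assoc, le_div_iff₀ (by positivity)]
    have : 0 < x ^ n := by positivity
    nlinarith
  have p1 : 0 ≤ a ^ (r + s + 1) / (b + c) := by positivity
  have p2 : 0 ≤ b ^ (r + s + 1) / (a + c) := by positivity
  have p3 : 0 ≤ c ^ (r + s + 1) / (a + b) := by positivity
  have up : ∀ x : ℝ, a ≤ x → b ≤ x → a ^ r * b ^ s ≤ x ^ (r + s) := by
    intro x h1 h2
    rw [pow_add]
    exact mul_le_mul (pow_le_pow_left₀ ha.le h1 r) (pow_le_pow_left₀ hb.le h2 s) (by positivity)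
      (pow_nonneg (ha.le.trans h1) r)
  rcases le_total a b with hab | hab
  · rcases le_total b c with hbc | hbc
    · have h1 := key c a b hc ha hb (hab.trans hbc) hbc (r + s)
      have h2 := up c (hab.trans hbc) hbc
      linarith
    · have h1 := key b a c hb ha hc hab hbc (r + s)
      have h2 := up b hab le_rfl
      linarith
  · rcases le_total a c with hac | hac
    · have h1 := key c a b hc ha hb hac (hab.trans hac) (r + s)
      have h2 := up c hac (hab.trans hac)
      linarith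
    · have h1 := key a b c ha hb hc hab hac (r + s)
      have h2 := up a le_rfl hab
      linarith

/-- the bound of the weighted sum of the squared third moments -/
theorem third_sum {lam : κ → ℝ} (hl : ∀ a, 0 ≤ lam a) {τ : κ → κ → κ → ℝ}
    (h12 : ∀ a b c, τ a b c = τ b a c) (h23 : ∀ a b c, τ a b c = τ a c b)
    (hz : ∀ a b c, lam a = 0 → τ a b c = 0) {K : ℝ}
    (hS : ∀ c, ∑ a, ∑ b, τ a b c ^ 2 / (lam a + lam b) ≤ K * lam c) (r s : ℕ) :
    ∑ a, ∑ b, ∑ c, lam a ^ r * lam b ^ s * τ a b c ^ 2 ≤ 6 * K * ∑ a, lam a ^ (r + s + 2) := by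
  set n := r + s + 1 with hn
  -- the basic weighted sum
  set S := ∑ a, ∑ b, ∑ c, lam c ^ n * (τ a b c ^ 2 / (lam a + lam b)) with hSdef
  have hSb : S ≤ K * ∑ a, lam a ^ (r + s + 2) := by
    have e1 : S = ∑ c, lam c ^ n * ∑ a, ∑ b, τ a b c ^ 2 / (lam a + lam b) := by
      rw [hSdef]
      have : ∀ a, ∑ b, ∑ c, lam c ^ n * (τ a b c ^ 2 / (lam a + lam b)) =
          ∑ c, ∑ b, lam c ^ n * (τ a b c ^ 2 / (lam a + lam b)) := fun a => sum_comm
      simp_rw [this]
      rw [sum_comm]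
      refine sum_congr rfl fun c _ => ?_
      rw [mul_sum]
      refine sum_congr rfl fun a _ => ?_
      rw [mul_sum]
    rw [e1, mul_sum]
    refine sum_le_sum fun c _ => ?_
    have h1 := mul_le_mul_of_nonneg_left (hS c) (pow_nonneg (hl c) n)
    refine h1.trans (le_of_eq ?_)
    rw [hn, pow_succ _ (r + s + 1)]
    ring
  have hpt : ∀ a b c, lam a ^ r * lam b ^ s * τ a b c ^ 2 ≤
      2 * (lam a ^ n * (τ b c a ^ 2 / (lam b + lam c)) + lam b ^ n * (τ a c b ^ 2 / (lam a + lam c)) +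
        lam c ^ n * (τ a b c ^ 2 / (lam a + lam b))) := by
    intro a b c
    have t1 : τ b c a = τ a b c := by rw [h23, h12]
    have t2 : τ a c b = τ a b c := (h23 a b c).symm
    rw [t1, t2]
    have z2 : lam b = 0 → τ a b c = 0 := fun h => by rw [h12]; exact hz _ _ _ h
    have z3 : lam c = 0 → τ a b c = 0 := fun h => by rw [← t2, h12]; exact hz _ _ _ h
    by_cases ht : τ a b c = 0
    · simp [ht]
    have pa : 0 < lam a := lt_of_le_of_ne (hl a) fun h => ht (hz _ _ _ h.symm)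
    have pb : 0 < lam b := lt_of_le_of_ne (hl b) fun h => ht (z2 h.symm)
    have pc : 0 < lam c := lt_of_le_of_ne (hl c) fun h => ht (z3 h.symm)
    have h1 := mul_le_mul_of_nonneg_right (nesb pa pb pc r s) (sq_nonneg (τ a b c))
    refine h1.trans (le_of_eq ?_)
    rw [← hn]
    ring
  calc ∑ a, ∑ b, ∑ c, lam a ^ r * lam b ^ s * τ a b c ^ 2
      ≤ ∑ a, ∑ b, ∑ c, 2 * (lam a ^ n * (τ b c a ^ 2 / (lam b + lam c)) +
        lam b ^ n * (τ a c b ^ 2 / (lam a + lam c)) +
        lam c ^ n * (τ a b c ^ 2 / (lam a + lam b))) :=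
        sum_le_sum fun a _ => sum_le_sum fun b _ => sum_le_sum fun c _ => hpt a b c
    _ = 2 * (S + S + S) := by
        have e1 : ∑ a, ∑ b, ∑ c, lam a ^ n * (τ b c a ^ 2 / (lam b + lam c)) = S := by
          rw [hSdef, sum_comm]
          refine sum_congr rfl fun b _ => ?_
          exact sum_comm
        have e2 : ∑ a, ∑ b, ∑ c, lam b ^ n * (τ a c b ^ 2 / (lam a + lam c)) = S := by
          rw [hSdef]
          refine sum_congr rfl fun a _ => ?_
          rw [sum_comm]
        simp only [← mul_sum, sum_add_distrib]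
        simp only [mul_sum] at e1 e2 hSdef ⊢
        rw [e1, e2, ← hSdef]
    _ ≤ 6 * K * ∑ a, lam a ^ (r + s + 2) := by
        linarith

end Pool.Agent.KS6_97.Sch
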