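import Pool.Agent.KS6_97.Sch.Gen2
import Pool.Agent.KS6_97.Sch.MatA

/-!
# Third moments under a Poincare inequality
-/

set_option autoImplicit false

namespace Pool.Agent.KS6_97.Sch

open MeasureTheory Set Filter Topology
open scoped ENNReal InnerProductSpace ContDiff
open Pool.Agent.Q86.FIB
open Pool.Agent.Q86.EM

variable {κ : Type} [Fintype κ]

/-- an expectation functional -/
structure EF (E : (Eu κ → ℝ) → ℝ) : Prop where
  add : ∀ u v : Eu κ → ℝ, Continuous u → Continuous v → E (fun x => u x + v x) = E u + E v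
  smul : ∀ (c : ℝ) (u : Eu κ → ℝ), E (fun x => c * u x) = c * E u
  one : E (fun _ => 1) = 1
  nonneg : ∀ u : Eu κ → ℝ, Continuous u → (∀ x, 0 ≤ u x) → 0 ≤ E u

theorem ef_Ex {μ : Measure (Eu κ)} (hμ : BS μ) (p : ℝ × Eu κ) : EF fun u => Ex μ u p where
  add u v hu hv := Ex_add hμ hu hv p
  smul c u := Ex_mul c u p
  one := Ex_const hμ 1 p
  nonneg u hu h := by
    have := Ex_mono hμ (u := fun _ => 0) (v := u) continuous_const hu
      (Eventually.of_forall fun x => h x) p
    rwa [Ex_const hμ] at this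

namespace EF

variable {E : (Eu κ → ℝ) → ℝ} (hE : EF E)
include hE

theorem const (c : ℝ) : E (fun _ => c) = c := by
  have := hE.smul c (fun _ => 1)
  rw [hE.one, mul_one] at this
  simpa using this

theorem neg (u : Eu κ → ℝ) : E (fun x => - u x) = - E u := by
  have := hE.smul (-1) u
  simpa using this

theorem sub {u v : Eu κ → ℝ} (hu : Continuous u) (hv : Continuous v) :
    E (fun x => u x - v x) = E u - E v := by
  have := hE.add u (fun x => - v x) hu hv.neg
  rw [hE.neg] at this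
  simpa [sub_eq_add_neg] using this

theorem mono {u v : Eu κ → ℝ} (hu : Continuous u) (hv : Continuous v) (h : ∀ x, u x ≤ v x) :
    E u ≤ E v := by
  have h1 := hE.nonneg (fun x => v x - u x) (hv.sub hu) fun x => sub_nonneg.2 (h x)
  rw [hE.sub hv hu] at h1
  linarith

theorem sum {ι : Type} (s : Finset ι) {u : ι → Eu κ → ℝ} (hu : ∀ i, Continuous (u i)) :
    E (fun x => ∑ i ∈ s, u i x) = ∑ i ∈ s, E (u i) := by
  classical
  induction s using Finset.induction_on with
  | empty =>
    simp only [Finset.sum_empty]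
    exact hE.const 0
  | insert i s hi ih =>
    simp only [Finset.sum_insert hi]
    rw [hE.add _ _ (hu i) (continuous_finsetSum _ fun i _ => hu i), ih]

/-- Cauchy-Schwarz -/
theorem cs {u v : Eu κ → ℝ} (hu : Continuous u) (hv : Continuous v) :
    (E fun x => u x * v x) ^ 2 ≤ (E fun x => u x ^ 2) * E fun x => v x ^ 2 := by
  have key : ∀ c : ℝ, 0 ≤ (E fun x => u x ^ 2) * (c * c) + (2 * E fun x => u x * v x) * c +
      E fun x => v x ^ 2 := by
    intro c
    have h1 := hE.nonneg (fun x => (c * u x + v x) ^ 2) (by fun_prop) fun x => sq_nonneg _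
    have h2 : (fun x => (c * u x + v x) ^ 2) = fun x => ((c * c) * u x ^ 2 +
        (2 * c) * (u x * v x)) + v x ^ 2 := by
      funext x
      ring
    rw [h2, hE.add (fun x => (c * c) * u x ^ 2 + (2 * c) * (u x * v x)) _ (by fun_prop)
      (by fun_prop), hE.add _ _ (by fun_prop) (by fun_prop), hE.smul, hE.smul] at h1
    linarith
  have h := discrim_le_zero key
  unfold discrim at h
  linarith

theorem var_nonneg {u : Eu κ → ℝ} (hu : Continuous u) : (E u) ^ 2 ≤ E fun x => u x ^ 2 := by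
  have h := hE.cs hu (continuous_const (y := (1 : ℝ)))
  simp only [mul_one, one_pow] at h
  rw [hE.one, mul_one] at h
  exact h

/-- covariance form of Cauchy-Schwarz -/
theorem cov_cs {u v : Eu κ → ℝ} (hu : Continuous u) (hv : Continuous v) :
    (E (fun x => u x * v x) - E u * E v) ^ 2 ≤
      (E (fun x => u x ^ 2) - (E u) ^ 2) * (E (fun x => v x ^ 2) - (E v) ^ 2) := by
  have e1 : ∀ a b : Eu κ → ℝ, Continuous a → Continuous b →
      E (fun x => (a x - E a) * (b x - E b)) = E (fun x => a x * b x) - E a * E b := by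
    intro a b ha hb
    have h2 : (fun x => (a x - E a) * (b x - E b)) = fun x => (a x * b x -
        (E b * a x + E a * b x)) + E a * E b := by
      funext x
      ring
    rw [h2, hE.add (fun x => a x * b x - (E b * a x + E a * b x)) _ (by fun_prop) (by fun_prop),
      hE.sub (by fun_prop) (by fun_prop), hE.add _ _ (by fun_prop) (by fun_prop), hE.smul, hE.smul,
      hE.const]
    ring
  have h := hE.cs (u := fun x => u x - E u) (v := fun x => v x - E v) (by fun_prop) (by fun_prop)
  rw [e1 u v hu hv] at h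
  have s1 := e1 u u hu hu
  have s2 := e1 v v hv hv
  simp only [← pow_two] at s1 s2
  rw [s1, s2] at h
  exact h

end EF

/-- the mean vector -/
noncomputable def mn (E : (Eu κ → ℝ) → ℝ) : Eu κ := WithLp.toLp 2 fun k => E fun x => x k

section third

variable {E : (Eu κ → ℝ) → ℝ} (hE : EF E)
include hE

theorem E_inner (v : Eu κ) : E (fun x => ⟪v, x⟫_ℝ) = ⟪v, mn E⟫_ℝ := by
  have e : (fun x : Eu κ => ⟪v, x⟫_ℝ) = fun x => ∑ k, v k * x k := by
    funext x
    rw [PiLp.inner_apply]
    exact Finset.sum_congr rfl fun k _ => by simp [mul_comm]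
  rw [e, hE.sum _ fun k => by fun_prop, PiLp.inner_apply]
  refine Finset.sum_congr rfl fun k _ => ?_
  rw [hE.smul]
  simp [mn, mul_comm]

theorem E_cent (v : Eu κ) : E (fun x => ⟪v, x - mn E⟫_ℝ) = 0 := by
  have e : (fun x : Eu κ => ⟪v, x - mn E⟫_ℝ) = fun x => ⟪v, x⟫_ℝ - ⟪v, mn E⟫_ℝ := by
    funext x
    rw [inner_sub_right]
  rw [e, hE.sub (by fun_prop) (by fun_prop), E_inner hE, hE.const, sub_self]

/-- the third moment bound -/
theorem third [DecidableEq κ] {c : ℝ} (hc : 0 ≤ c)
    (hP : ∀ f : Eu κ → ℝ, ContDiff ℝ 1 f →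
      E (fun x => f x ^ 2) - (E f) ^ 2 ≤ c * E fun x => ‖fderiv ℝ f x‖ ^ 2)
    (b : OrthonormalBasis κ ℝ (Eu κ)) (lam : κ → ℝ) (hl : ∀ i, 0 ≤ lam i)
    (hcov : ∀ i j, E (fun x => ⟪b i, x - mn E⟫_ℝ * ⟪b j, x - mn E⟫_ℝ) = if i = j then lam i else 0)
    (k : κ) :
    ∑ i, ∑ j, (E fun x => ⟪b i, x - mn E⟫_ℝ * ⟪b j, x - mn E⟫_ℝ * ⟪b k, x - mn E⟫_ℝ) ^ 2 /
      (lam i + lam j) ≤ 2 * c * lam k := by
  obtain ⟨τ, hτ⟩ : ∃ τ : κ → κ → ℝ, ∀ i j, τ i j =
    E fun x => ⟪b i, x - mn E⟫_ℝ * ⟪b j, x - mn E⟫_ℝ * ⟪b k, x - mn E⟫_ℝ := ⟨_, fun i j => rfl⟩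
  obtain ⟨a, ha⟩ : ∃ a : κ → κ → ℝ, ∀ i j, a i j = τ i j / (lam i + lam j) := ⟨_, fun i j => rfl⟩
  simp_rw [← hτ]
  have hτs : ∀ i j, τ i j = τ j i := fun i j => by
    rw [hτ, hτ]
    congr 1
    funext x
    ring
  have has : ∀ i j, a i j = a j i := fun i j => by
    rw [ha, ha, hτs, add_comm]
  set X : κ → Eu κ → ℝ := fun i x => ⟪b i, x - mn E⟫_ℝ with hX
  have hXc : ∀ i, Continuous (X i) := fun i => by
    simp only [hX]
    fun_prop
  obtain ⟨f, hf⟩ : ∃ f : Eu κ → ℝ, f = fun x => ∑ i, ∑ j, a i j * (X i x * X j x) := ⟨_, rfl⟩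
  obtain ⟨G, hG⟩ : ∃ G : Eu κ → Eu κ, G = fun x => ∑ i, (2 * ∑ j, a i j * X j x) • b i := ⟨_, rfl⟩
  obtain ⟨S, hS⟩ : ∃ S : ℝ, S = ∑ i, ∑ j, τ i j ^ 2 / (lam i + lam j) := ⟨_, rfl⟩
  rw [← hS]
  have hXs : ∀ i, ContDiff ℝ 1 (X i) := fun i => by
    simp only [hX]
    exact contDiff_const.inner ℝ (contDiff_id.sub contDiff_const)
  have hfs : ContDiff ℝ 1 f := by
    rw [hf]
    exact ContDiff.sum fun i _ => ContDiff.sum fun j _ =>
      contDiff_const.mul ((hXs i).mul (hXs j))
  have hXd : ∀ i x, HasFDerivAt (X i) (innerSL ℝ (b i)) x := fun i x => by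
    have h1 := ((innerSL ℝ (b i)).hasFDerivAt (x := x)).sub_const (innerSL ℝ (b i) (mn E))
    refine h1.congr_of_eventuallyEq (Eventually.of_forall fun y => ?_)
    simp only [hX, innerSL_apply_apply, inner_sub_right]
  have hfd : ∀ x, HasFDerivAt f (innerSL ℝ (G x)) x := by
    intro x
    have h1 : HasFDerivAt f (∑ i, ∑ j, a i j • (X i x • innerSL ℝ (b j) +
        X j x • innerSL ℝ (b i))) x := by
      rw [hf]
      refine HasFDerivAt.fun_sum fun i _ => HasFDerivAt.fun_sum fun j _ => ?_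
      exact ((hXd i x).mul (hXd j x)).const_mul (a i j)
    have h2 : (∑ i, ∑ j, a i j • (X i x • innerSL ℝ (b j) + X j x • innerSL ℝ (b i))) =
        innerSL ℝ (G x) := by
      ext v
      rw [hG]
      simp only [map_sum, map_smul, sum_apply, smul_apply,
        add_apply, innerSL_apply_apply, smul_eq_mul]
      have e1 : ∑ i, ∑ j, a i j * (X i x * ⟪b j, v⟫_ℝ + X j x * ⟪b i, v⟫_ℝ) =
          (∑ i, ∑ j, a i j * (X i x * ⟪b j, v⟫_ℝ)) + ∑ i, ∑ j, a i j * (X j x * ⟪b i, v⟫_ℝ) := by
        simp only [mul_add, Finset.sum_add_distrib]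
      have e2 : (∑ i, ∑ j, a i j * (X i x * ⟪b j, v⟫_ℝ)) =
          ∑ i, ∑ j, a i j * (X j x * ⟪b i, v⟫_ℝ) := by
        rw [Finset.sum_comm]
        refine Finset.sum_congr rfl fun i _ => Finset.sum_congr rfl fun j _ => ?_
        rw [has]
      rw [e1, e2, ← two_mul, Finset.mul_sum]
      refine Finset.sum_congr rfl fun i _ => ?_
      rw [mul_assoc, Finset.sum_mul]
      congr 1
      refine Finset.sum_congr rfl fun j _ => ?_
      ring
    rw [← h2]
    exact h1
  have hnorm : ∀ x, ‖fderiv ℝ f x‖ ^ 2 = ∑ i, (2 * ∑ j, a i j * X j x) ^ 2 := by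
    intro x
    rw [(hfd x).fderiv, innerSL_apply_norm, ← real_inner_self_eq_norm_sq, hG]
    simp only
    rw [b.orthonormal.inner_sum]
    refine Finset.sum_congr rfl fun i _ => ?_
    simp [pow_two]
  -- the Dirichlet energy
  have hen : E (fun x => ‖fderiv ℝ f x‖ ^ 2) = 2 * S := by
    have e1 : (fun x => ‖fderiv ℝ f x‖ ^ 2) = fun x => ∑ i, ∑ j, ∑ l,
        (4 * (a i j * a i l)) * (X j x * X l x) := by
      funext x
      rw [hnorm]
      refine Finset.sum_congr rfl fun i _ => ?_
      rw [mul_pow, pow_two (∑ j, a i j * X j x), Finset.sum_mul_sum, Finset.mul_sum]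
      refine Finset.sum_congr rfl fun j _ => ?_
      rw [Finset.mul_sum]
      refine Finset.sum_congr rfl fun l _ => ?_
      ring
    have hXX : ∀ j l, Continuous fun x => X j x * X l x := fun j l => (hXc j).mul (hXc l)
    have c1 : ∀ i j l, Continuous fun x => (4 * (a i j * a i l)) * (X j x * X l x) := fun i j l =>
      continuous_const.mul (hXX j l)
    rw [e1, hE.sum _ fun i => continuous_finsetSum _ fun j _ => continuous_finsetSum _ fun l _ =>
      c1 i j l]
    have e2 : ∀ i, E (fun x => ∑ j, ∑ l, (4 * (a i j * a i l)) * (X j x * X l x)) =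
        ∑ j, 4 * a i j ^ 2 * lam j := by
      intro i
      rw [hE.sum _ fun j => continuous_finsetSum _ fun l _ => c1 i j l]
      refine Finset.sum_congr rfl fun j _ => ?_
      rw [hE.sum _ fun l => c1 i j l]
      simp_rw [hE.smul]
      have : ∀ l, E (fun x => X j x * X l x) = if j = l then lam j else 0 := fun l => hcov j l
      simp_rw [this]
      rw [Finset.sum_eq_single j]
      · simp only [if_true]
        ring
      · intro l _ hlj
        rw [if_neg (Ne.symm hlj), mul_zero]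
      · simp
    simp_rw [e2]
    have e3 : ∑ i, ∑ j, 4 * a i j ^ 2 * lam j = ∑ i, ∑ j, 2 * a i j ^ 2 * (lam i + lam j) := by
      have h1 : ∑ i, ∑ j, 2 * a i j ^ 2 * lam i = ∑ i, ∑ j, 2 * a i j ^ 2 * lam j := by
        rw [Finset.sum_comm]
        refine Finset.sum_congr rfl fun i _ => Finset.sum_congr rfl fun j _ => ?_
        rw [has]
      simp only [mul_add, Finset.sum_add_distrib]
      rw [h1]
      have : ∀ i j, 4 * a i j ^ 2 * lam j = 2 * a i j ^ 2 * lam j + 2 * a i j ^ 2 * lam j :=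
        fun i j => by ring
      simp_rw [this, Finset.sum_add_distrib]
    rw [e3, hS, Finset.mul_sum]
    refine Finset.sum_congr rfl fun i _ => ?_
    rw [Finset.mul_sum]
    refine Finset.sum_congr rfl fun j _ => ?_
    rw [ha]
    by_cases h : lam i + lam j = 0
    · simp [h]
    · field_simp
  -- the pairing
  have hpair : E (fun x => f x * X k x) = S := by
    have e1 : (fun x => f x * X k x) = fun x => ∑ i, ∑ j, a i j * (X i x * X j x * X k x) := by
      funext x
      rw [hf]
      simp only [Finset.sum_mul]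
      refine Finset.sum_congr rfl fun i _ => Finset.sum_congr rfl fun j _ => ?_
      ring
    have c1 : ∀ i j, Continuous fun x => a i j * (X i x * X j x * X k x) := fun i j =>
      continuous_const.mul (((hXc i).mul (hXc j)).mul (hXc k))
    rw [e1, hE.sum _ fun i => continuous_finsetSum _ fun j _ => c1 i j, hS]
    refine Finset.sum_congr rfl fun i _ => ?_
    rw [hE.sum _ fun j => c1 i j]
    refine Finset.sum_congr rfl fun j _ => ?_
    rw [hE.smul, ← hτ, ha]
    ring
  have h1 := hE.cov_cs hfs.continuous (hXc k)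
  have h2 : E (X k) = 0 := E_cent hE _
  have h3 : E (fun x => X k x ^ 2) = lam k := by
    have := hcov k k
    rw [if_pos rfl] at this
    rw [← this]
    congr 1
    funext x
    rw [pow_two]
  rw [hpair, h2, h3] at h1
  have h4 := hP f hfs
  rw [hen] at h4
  have hS0 : 0 ≤ S := by
    rw [hS]
    exact Finset.sum_nonneg fun i _ => Finset.sum_nonneg fun j _ =>
      div_nonneg (sq_nonneg _) (add_nonneg (hl i) (hl j))
  have h5 := mul_le_mul_of_nonneg_right h4 (hl k)
  have h6 : S ^ 2 ≤ c * (2 * S) * lam k := by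
    nlinarith
  rcases hS0.eq_or_lt with h | h
  · rw [← h]
    have := hl k
    positivity
  · have h7 : S * S ≤ (2 * c * lam k) * S := by
      rw [← pow_two]
      linarith
    exact le_of_mul_le_mul_right h7 h

end third

end Pool.Agent.KS6_97.Sch
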