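import Pool.Agent.KS6_97.Sch.MatB

/-!
# The generator applied to the trace of a power of the posterior covariance
-/

set_option autoImplicit false

namespace Pool.Agent.KS6_97.Sch

open MeasureTheory Set Filter Topology
open scoped ENNReal InnerProductSpace ContDiff
open Pool.Agent.Q86.FIB
open Pool.Agent.Q86.EM
open scoped Matrix

variable {κ : Type} [Fintype κ]

/-- the posterior covariance matrix -/
noncomputable def Cv (μ : Measure (Eu κ)) (p : ℝ × Eu κ) : Matrix κ κ ℝ :=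
  Matrix.of fun i j => Ex μ (fun x => x i * x j) p - Ex μ (fun x => x i) p * Ex μ (fun x => x j) p

theorem Cv_apply (μ : Measure (Eu κ)) (p : ℝ × Eu κ) (i j : κ) : Cv μ p i j =
    Ex μ (fun x => x i * x j) p - Ex μ (fun x => x i) p * Ex μ (fun x => x j) p := rfl

/-- matrix valued functions with entries in the algebra -/
def MAl (μ : Measure (Eu κ)) (M : ℝ × Eu κ → Matrix κ κ ℝ) : Prop := ∀ i j, Al μ fun p => M p i j

/-- entrywise derivative -/
noncomputable def mpd (v : ℝ × Eu κ) (M : ℝ × Eu κ → Matrix κ κ ℝ) (p : ℝ × Eu κ) :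
    Matrix κ κ ℝ := Matrix.of fun i j => pd v (fun p => M p i j) p

section lei

variable {μ : Measure (Eu κ)} (hμ : BS μ)

theorem Cv_al : MAl μ (Cv μ) := fun i j =>
  (Al.ex _ (by fun_prop)).sub (Al.mul _ _ (Al.ex _ (by fun_prop)) (Al.ex _ (by fun_prop)))

theorem MAl.mul {M N : ℝ × Eu κ → Matrix κ κ ℝ} (hM : MAl μ M) (hN : MAl μ N) :
    MAl μ fun p => M p * N p := fun i j => by
  simp only [Matrix.mul_apply]
  exact Al.sum _ fun k => Al.mul _ _ (hM i k) (hN k j)

include hμ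

theorem mpd_mul {M N : ℝ × Eu κ → Matrix κ κ ℝ} (hM : MAl μ M) (hN : MAl μ N) (v p : ℝ × Eu κ) :
    mpd v (fun p => M p * N p) p = mpd v M p * N p + M p * mpd v N p := by
  ext i j
  simp only [mpd, Matrix.add_apply, Matrix.mul_apply, Matrix.of_apply]
  rw [pd_sum _ fun k _ => (sm1 ((hM i k).smooth hμ)).mul (sm1 ((hN k j).smooth hμ)),
    ← Finset.sum_add_distrib]
  exact Finset.sum_congr rfl fun k _ =>
    pd_mul (sm1 ((hM i k).smooth hμ)) (sm1 ((hN k j).smooth hμ)) v p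

end lei

variable [DecidableEq κ]

theorem MAl.one {μ : Measure (Eu κ)} : MAl μ fun _ => (1 : Matrix κ κ ℝ) := fun _ _ => Al.const _

theorem MAl.pow {μ : Measure (Eu κ)} {M : ℝ × Eu κ → Matrix κ κ ℝ} (hM : MAl μ M) (q : ℕ) :
    MAl μ fun p => M p ^ q := by
  induction q with
  | zero =>
    simp only [pow_zero]
    exact MAl.one
  | succ q ih =>
    simp only [pow_succ]
    exact ih.mul hM

theorem Dg_sum {μ : Measure (Eu κ)} {ι : Type} (s : Finset ι) {F : ι → ℝ × Eu κ → ℝ}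
    (hF : ∀ i, ContDiff ℝ ∞ (F i)) (p : ℝ × Eu κ) :
    Dg μ (fun p => ∑ i ∈ s, F i p) p = ∑ i ∈ s, Dg μ (F i) p := by
  classical
  induction s using Finset.induction_on with
  | empty =>
    simp only [Finset.sum_empty]
    exact Dg_const 0 p
  | insert i s hi ih =>
    simp only [Finset.sum_insert hi]
    rw [Dg_add (hF i) (ContDiff.sum fun i _ => hF i), ih]

/-- the generator, entrywise -/
noncomputable def mDg (μ : Measure (Eu κ)) (M : ℝ × Eu κ → Matrix κ κ ℝ) (p : ℝ × Eu κ) :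
    Matrix κ κ ℝ := Matrix.of fun i j => Dg μ (fun p => M p i j) p

section gen

variable {μ : Measure (Eu κ)} (hμ : BS μ)
include hμ

theorem mDg_mul {M N : ℝ × Eu κ → Matrix κ κ ℝ} (hM : MAl μ M) (hN : MAl μ N) (p : ℝ × Eu κ) :
    mDg μ (fun p => M p * N p) p = mDg μ M p * N p + M p * mDg μ N p +
      ∑ k, mpd (ek k) M p * mpd (ek k) N p := by
  ext i j
  rw [Matrix.add_apply, Matrix.add_apply, Matrix.sum_apply]
  simp only [mDg, mpd, Matrix.mul_apply, Matrix.of_apply]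
  rw [Dg_sum _ fun k => ((hM i k).smooth hμ).mul ((hN k j).smooth hμ), Finset.sum_comm,
    ← Finset.sum_add_distrib, ← Finset.sum_add_distrib]
  exact Finset.sum_congr rfl fun k _ => Dg_mul ((hM i k).smooth hμ) ((hN k j).smooth hμ) p

theorem Dg_trace {M : ℝ × Eu κ → Matrix κ κ ℝ} (hM : MAl μ M) (p : ℝ × Eu κ) :
    Dg μ (fun p => (M p).trace) p = (mDg μ M p).trace := by
  unfold Matrix.trace
  simp only [Matrix.diag_apply]
  exact Dg_sum _ (fun i => (hM i i).smooth hμ) p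

/-- the derivative of the mean is the covariance -/
theorem pd_mean (i k : κ) (p : ℝ × Eu κ) : pd (ek k) (Ex μ fun x => x i) p = Cv μ p i k := by
  rw [pd_Ex hμ (by fun_prop)]
  have : ell (ek k) = fun x : Eu κ => x k := by
    funext x
    exact ell_ek k x
  rw [this]
  rfl

omit [DecidableEq κ] hμ in
theorem Cv_symm (p : ℝ × Eu κ) (i j : κ) : Cv μ p i j = Cv μ p j i := by
  rw [Cv_apply, Cv_apply, mul_comm (Ex μ (fun x => x i) p)]
  congr 2
  funext x
  ring

theorem mDg_Cv (p : ℝ × Eu κ) : mDg μ (Cv μ) p = -(Cv μ p * Cv μ p) := by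
  ext i j
  have hx : ∀ k : κ, Continuous fun x : Eu κ => x k := fun k => by fun_prop
  have hxx : Continuous fun x : Eu κ => x i * x j := by fun_prop
  have s1 : ContDiff ℝ ∞ (Ex μ fun x => x i * x j) := Ex_smooth hμ hxx
  have si : ContDiff ℝ ∞ (Ex μ fun x => x i) := Ex_smooth hμ (hx i)
  have sj : ContDiff ℝ ∞ (Ex μ fun x => x j) := Ex_smooth hμ (hx j)
  have h1 : Dg μ (fun p => Ex μ (fun x => x i * x j) p -
      Ex μ (fun x => x i) p * Ex μ (fun x => x j) p) p =
      - Ga (Ex μ fun x => x i) (Ex μ fun x => x j) p := by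
    rw [Dg_sub s1 (si.mul sj), Dg_mul si sj, Dg_Ex hμ hxx, Dg_Ex hμ (hx i),
      Dg_Ex hμ (hx j)]
    ring
  have h2 : mDg μ (Cv μ) p i j = Dg μ (fun p => Ex μ (fun x => x i * x j) p -
      Ex μ (fun x => x i) p * Ex μ (fun x => x j) p) p := rfl
  rw [h2, h1, Matrix.neg_apply, Matrix.mul_apply]
  unfold Ga
  congr 1
  refine Finset.sum_congr rfl fun k _ => ?_
  rw [pd_mean hμ, pd_mean hμ, Cv_symm p j k]

/-- the derivative of the covariance is the third central moment -/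
theorem mpd_Cv (p : ℝ × Eu κ) (i j k : κ) : mpd (ek k) (Cv μ) p i j =
    Ex μ (fun x => (x i - Ex μ (fun x => x i) p) * (x j - Ex μ (fun x => x j) p) *
      (x k - Ex μ (fun x => x k) p)) p := by
  have hx : ∀ k : κ, Continuous fun x : Eu κ => x k := fun k => by fun_prop
  have hxx : ∀ k l : κ, Continuous fun x : Eu κ => x k * x l := fun k l => by fun_prop
  have si : ContDiff ℝ ∞ (Ex μ fun x => x i) := Ex_smooth hμ (hx i)
  have sj : ContDiff ℝ ∞ (Ex μ fun x => x j) := Ex_smooth hμ (hx j)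
  have s1 : ContDiff ℝ ∞ (Ex μ fun x => x i * x j) := Ex_smooth hμ (hxx i j)
  have h1 : mpd (ek k) (Cv μ) p i j = pd (ek k) (fun p => Ex μ (fun x => x i * x j) p -
      Ex μ (fun x => x i) p * Ex μ (fun x => x j) p) p := rfl
  rw [h1, pd_sub (sm1 s1) (sm1 (si.mul sj)), pd_mul (sm1 si) (sm1 sj), pd_mean hμ, pd_mean hμ,
    pd_Ex hμ (hxx i j)]
  have : ell (ek k) = fun x : Eu κ => x k := by
    funext x
    exact ell_ek k x
  rw [this, Cv_apply, Cv_apply]
  obtain ⟨a, ha⟩ : ∃ a : ℝ, a = Ex μ (fun x => x i) p := ⟨_, rfl⟩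
  obtain ⟨b, hb⟩ : ∃ a : ℝ, a = Ex μ (fun x => x j) p := ⟨_, rfl⟩
  obtain ⟨c, hc⟩ : ∃ a : ℝ, a = Ex μ (fun x => x k) p := ⟨_, rfl⟩
  rw [← ha, ← hb, ← hc]
  have e : (fun x : Eu κ => (x i - a) * (x j - b) * (x k - c)) = fun x =>
      ((x i * x j * x k - (c * (x i * x j) + (b * (x i * x k) + a * (x j * x k)))) +
        (b * c * x i + (a * c * x j + a * b * x k))) - a * b * c := by
    funext x
    ring
  have hE := ef_Ex hμ p
  have c3 : Continuous fun x : Eu κ => x i * x j * x k := by fun_prop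
  have k1 := hE.sub (u := fun x : Eu κ => (x i * x j * x k -
    (c * (x i * x j) + (b * (x i * x k) + a * (x j * x k)))) +
        (b * c * x i + (a * c * x j + a * b * x k))) (v := fun _ => a * b * c) (by fun_prop)
        (by fun_prop)
  have k2 := hE.add (fun x : Eu κ => x i * x j * x k -
    (c * (x i * x j) + (b * (x i * x k) + a * (x j * x k))))
        (fun x => b * c * x i + (a * c * x j + a * b * x k)) (by fun_prop) (by fun_prop)
  have k3 := hE.sub (u := fun x : Eu κ => x i * x j * x k)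
    (v := fun x => c * (x i * x j) + (b * (x i * x k) + a * (x j * x k))) (by fun_prop)
        (by fun_prop)
  have k4 := hE.add (fun x : Eu κ => c * (x i * x j)) (fun x => b * (x i * x k) + a * (x j * x k))
    (by fun_prop) (by fun_prop)
  have k5 := hE.add (fun x : Eu κ => b * (x i * x k)) (fun x => a * (x j * x k))
    (by fun_prop) (by fun_prop)
  have k6 := hE.add (fun x : Eu κ => b * c * x i) (fun x => a * c * x j + a * b * x k)
    (by fun_prop) (by fun_prop)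
  have k7 := hE.add (fun x : Eu κ => a * c * x j) (fun x => a * b * x k)
    (by fun_prop) (by fun_prop)
  rw [e]
  simp only at k1 k2 k3 k4 k5 k6 k7
  rw [k1, k2, k3, k4, k5, k6, k7]
  rw [Ex_mul, Ex_mul, Ex_mul, Ex_mul, Ex_mul, Ex_mul, Ex_const hμ, ← ha, ← hb, ← hc]
  ring

theorem cov_form (p : ℝ × Eu κ) (u v : Eu κ) :
    Ex μ (fun x => ⟪u, x - mn (fun u => Ex μ u p)⟫_ℝ * ⟪v, x - mn (fun u => Ex μ u p)⟫_ℝ) p =
      (u : κ → ℝ) ⬝ᵥ (Cv μ p).mulVec (v : κ → ℝ) := by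
  have hE := ef_Ex hμ p
  have hm : ∀ i, (mn fun u => Ex μ u p) i = Ex μ (fun x => x i) p := fun i => rfl
  have hin : ∀ (u x : Eu κ), ⟪u, x - mn (fun u => Ex μ u p)⟫_ℝ =
      ∑ i, u i * (x i - Ex μ (fun x => x i) p) := fun u x => by
    rw [PiLp.inner_apply]
    refine Finset.sum_congr rfl fun i _ => ?_
    rw [PiLp.sub_apply, hm]
    simp [mul_comm]
  simp_rw [hin]
  have e : (fun x : Eu κ => (∑ i, u i * (x i - Ex μ (fun x => x i) p)) *
      ∑ i, v i * (x i - Ex μ (fun x => x i) p)) = fun x => ∑ i, ∑ j, (u i * v j) *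
        ((x i - Ex μ (fun x => x i) p) * (x j - Ex μ (fun x => x j) p)) := by
    funext x
    rw [Finset.sum_mul_sum]
    refine Finset.sum_congr rfl fun i _ => Finset.sum_congr rfl fun j _ => ?_
    ring
  have c1 : ∀ i j, Continuous fun x : Eu κ => (u i * v j) *
        ((x i - Ex μ (fun x => x i) p) * (x j - Ex μ (fun x => x j) p)) := fun i j => by fun_prop
  have k1 := hE.sum Finset.univ (u := fun i x => ∑ j, (u i * v j) *
        ((x i - Ex μ (fun x => x i) p) * (x j - Ex μ (fun x => x j) p))) fun i =>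
          continuous_finsetSum _ fun j _ => c1 i j
  rw [e]
  simp only at k1
  rw [k1, dotProduct]
  refine Finset.sum_congr rfl fun i _ => ?_
  have k2 := hE.sum Finset.univ (u := fun j x => (u i * v j) *
        ((x i - Ex μ (fun x => x i) p) * (x j - Ex μ (fun x => x j) p))) fun j => c1 i j
  simp only at k2
  rw [k2, Matrix.mulVec, dotProduct, Finset.mul_sum]
  refine Finset.sum_congr rfl fun j _ => ?_
  rw [Ex_mul, Cv_apply]
  obtain ⟨a, ha⟩ : ∃ a : ℝ, a = Ex μ (fun x => x i) p := ⟨_, rfl⟩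
  obtain ⟨b, hb⟩ : ∃ a : ℝ, a = Ex μ (fun x => x j) p := ⟨_, rfl⟩
  rw [← ha, ← hb]
  have e2 : (fun x : Eu κ => (x i - a) * (x j - b)) = fun x =>
      (x i * x j - (b * x i + a * x j)) + a * b := by
    funext x
    ring
  have k3 := hE.add (fun x : Eu κ => x i * x j - (b * x i + a * x j)) (fun _ => a * b)
    (by fun_prop) (by fun_prop)
  have k4 := hE.sub (u := fun x : Eu κ => x i * x j) (v := fun x => b * x i + a * x j)
    (by fun_prop) (by fun_prop)
  have k5 := hE.add (fun x : Eu κ => b * x i) (fun x => a * x j) (by fun_prop) (by fun_prop)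
  simp only at k3 k4 k5
  rw [e2, k3, k4, k5, Ex_mul, Ex_mul, Ex_const hμ, ← ha, ← hb]
  ring

/-- the third moments in a basis -/
theorem UTU (b : OrthonormalBasis κ ℝ (Eu κ)) (p : ℝ × Eu κ) (k a c : κ) :
    ((Um b)ᵀ * mpd (ek k) (Cv μ) p * Um b) a c =
      Ex μ (fun x => ⟪b a, x - mn (fun u => Ex μ u p)⟫_ℝ * ⟪b c, x - mn (fun u => Ex μ u p)⟫_ℝ *
        (x k - Ex μ (fun x => x k) p)) p := by
  have hE := ef_Ex hμ p
  have hm : ∀ i, (mn fun u => Ex μ u p) i = Ex μ (fun x => x i) p := fun i => rfl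
  have hin : ∀ (u x : Eu κ), ⟪u, x - mn (fun u => Ex μ u p)⟫_ℝ =
      ∑ i, u i * (x i - Ex μ (fun x => x i) p) := fun u x => by
    rw [PiLp.inner_apply]
    refine Finset.sum_congr rfl fun i _ => ?_
    rw [PiLp.sub_apply, hm]
    simp [mul_comm]
  simp_rw [hin]
  have e : (fun x : Eu κ => (∑ i, b a i * (x i - Ex μ (fun x => x i) p)) *
      (∑ i, b c i * (x i - Ex μ (fun x => x i) p)) * (x k - Ex μ (fun x => x k) p)) = fun x =>
      ∑ j, ∑ i, (b a i * b c j) *
        ((x i - Ex μ (fun x => x i) p) * (x j - Ex μ (fun x => x j) p) *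
          (x k - Ex μ (fun x => x k) p)) := by
    funext x
    rw [Finset.sum_mul_sum, Finset.sum_comm, Finset.sum_mul]
    refine Finset.sum_congr rfl fun j _ => ?_
    rw [Finset.sum_mul]
    refine Finset.sum_congr rfl fun i _ => ?_
    ring
  have c1 : ∀ i j, Continuous fun x : Eu κ => (b a i * b c j) *
        ((x i - Ex μ (fun x => x i) p) * (x j - Ex μ (fun x => x j) p) *
          (x k - Ex μ (fun x => x k) p)) := fun i j => by fun_prop
  have k1 := hE.sum Finset.univ (u := fun j x => ∑ i, (b a i * b c j) *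
        ((x i - Ex μ (fun x => x i) p) * (x j - Ex μ (fun x => x j) p) *
          (x k - Ex μ (fun x => x k) p))) fun j =>
          continuous_finsetSum _ fun i _ => c1 i j
  rw [e]
  simp only at k1
  rw [k1, Matrix.mul_apply]
  refine Finset.sum_congr rfl fun j _ => ?_
  have k2 := hE.sum Finset.univ (u := fun i x => (b a i * b c j) *
        ((x i - Ex μ (fun x => x i) p) * (x j - Ex μ (fun x => x j) p) *
          (x k - Ex μ (fun x => x k) p))) fun i => c1 i j
  simp only at k2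
  rw [k2, Matrix.mul_apply, Finset.sum_mul]
  refine Finset.sum_congr rfl fun i _ => ?_
  rw [Ex_mul, mpd_Cv hμ]
  simp only [Um, Matrix.transpose_apply, Matrix.of_apply]
  ring

/-- Parseval for the third moments -/
theorem UTU_sum (b : OrthonormalBasis κ ℝ (Eu κ)) (p : ℝ × Eu κ) (a c : κ) :
    ∑ k, (((Um b)ᵀ * mpd (ek k) (Cv μ) p * Um b) a c) ^ 2 =
      ∑ d, (Ex μ (fun x => ⟪b a, x - mn (fun u => Ex μ u p)⟫_ℝ *
        ⟪b c, x - mn (fun u => Ex μ u p)⟫_ℝ * ⟪b d, x - mn (fun u => Ex μ u p)⟫_ℝ) p) ^ 2 := by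
  have hE := ef_Ex hμ p
  have hm : ∀ i, (mn fun u => Ex μ u p) i = Ex μ (fun x => x i) p := fun i => rfl
  obtain ⟨V, hV⟩ : ∃ V : Eu κ, V = WithLp.toLp 2 fun k =>
    ((Um b)ᵀ * mpd (ek k) (Cv μ) p * Um b) a c := ⟨_, rfl⟩
  have hVk : ∀ k, V k = ((Um b)ᵀ * mpd (ek k) (Cv μ) p * Um b) a c := fun k => by rw [hV]
  have h1 : ‖V‖ ^ 2 = ∑ k, (((Um b)ᵀ * mpd (ek k) (Cv μ) p * Um b) a c) ^ 2 := by
    rw [EuclideanSpace.norm_sq_eq]
    refine Finset.sum_congr rfl fun k _ => ?_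
    rw [hVk, Real.norm_eq_abs, sq_abs]
  rw [← h1, ← b.sum_sq_norm_inner_right V]
  refine Finset.sum_congr rfl fun d _ => ?_
  rw [Real.norm_eq_abs, sq_abs]
  congr 1
  have e : (fun x : Eu κ => ⟪b a, x - mn (fun u => Ex μ u p)⟫_ℝ *
        ⟪b c, x - mn (fun u => Ex μ u p)⟫_ℝ * ⟪b d, x - mn (fun u => Ex μ u p)⟫_ℝ) = fun x =>
      ∑ k, b d k * (⟪b a, x - mn (fun u => Ex μ u p)⟫_ℝ * ⟪b c, x - mn (fun u => Ex μ u p)⟫_ℝ *
        (x k - Ex μ (fun x => x k) p)) := by
    funext x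
    have : ⟪b d, x - mn (fun u => Ex μ u p)⟫_ℝ = ∑ k, b d k * (x k - Ex μ (fun x => x k) p) := by
      rw [PiLp.inner_apply]
      refine Finset.sum_congr rfl fun i _ => ?_
      rw [PiLp.sub_apply, hm]
      simp [mul_comm]
    rw [this, Finset.mul_sum]
    refine Finset.sum_congr rfl fun k _ => ?_
    ring
  have k1 := hE.sum Finset.univ (u := fun k x => b d k * (⟪b a, x - mn (fun u => Ex μ u p)⟫_ℝ *
    ⟪b c, x - mn (fun u => Ex μ u p)⟫_ℝ * (x k - Ex μ (fun x => x k) p))) fun k => by fun_prop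
  simp only at k1
  rw [e, k1, PiLp.inner_apply]
  refine Finset.sum_congr rfl fun k _ => ?_
  rw [Ex_mul, hVk, UTU hμ]
  simp [mul_comm]

theorem Cv_herm (p : ℝ × Eu κ) : (Cv μ p).IsHermitian := by
  ext i j
  rw [Matrix.conjTranspose_apply, Cv_symm p j i]
  rfl

theorem eig (p : ℝ × Eu κ) : ∃ (b : OrthonormalBasis κ ℝ (Eu κ)) (lam : κ → ℝ),
    (∀ a, (Cv μ p).mulVec (b a : κ → ℝ) = lam a • (b a : κ → ℝ)) ∧ (∀ a, 0 ≤ lam a) ∧
    ∀ i j, Ex μ (fun x => ⟪b i, x - mn (fun u => Ex μ u p)⟫_ℝ *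
      ⟪b j, x - mn (fun u => Ex μ u p)⟫_ℝ) p = if i = j then lam i else 0 := by
  have hA := Cv_herm hμ p
  have hE := ef_Ex hμ p
  have h2 : ∀ i j, Ex μ (fun x => ⟪hA.eigenvectorBasis i, x - mn (fun u => Ex μ u p)⟫_ℝ *
      ⟪hA.eigenvectorBasis j, x - mn (fun u => Ex μ u p)⟫_ℝ) p =
      if i = j then hA.eigenvalues i else 0 := by
    intro i j
    rw [cov_form hμ, hA.mulVec_eigenvectorBasis j, dotProduct_smul]
    have h := hA.eigenvectorBasis.inner_eq_ite i j
    rw [PiLp.inner_apply] at h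
    have h3 : ((hA.eigenvectorBasis i : Eu κ) : κ → ℝ) ⬝ᵥ ((hA.eigenvectorBasis j : Eu κ) : κ → ℝ) =
        if i = j then 1 else 0 := by
      rw [← h]
      unfold dotProduct
      refine Finset.sum_congr rfl fun k _ => ?_
      simp [mul_comm]
    rw [h3]
    by_cases hij : i = j
    · subst hij
      simp
    · simp [hij]
  refine ⟨hA.eigenvectorBasis, hA.eigenvalues, fun a => hA.mulVec_eigenvectorBasis a, fun a => ?_,
    h2⟩
  have h3 := h2 a a
  rw [if_pos rfl] at h3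
  rw [← h3]
  exact hE.nonneg _ (by fun_prop) fun x => mul_self_nonneg _

/-- the main bound -/
theorem Dg_tr {p : ℝ × Eu κ} {c : ℝ} (hc : 0 ≤ c)
    (hP : ∀ f : Eu κ → ℝ, ContDiff ℝ 1 f →
      Ex μ (fun x => f x ^ 2) p - (Ex μ f p) ^ 2 ≤ c * Ex μ (fun x => ‖fderiv ℝ f x‖ ^ 2) p)
    (q : ℕ) :
    Dg μ (fun p => (Cv μ p ^ q).trace) p ≤ 6 * (q : ℝ) ^ 2 * c * (Cv μ p ^ q).trace := by
  have hE := ef_Ex hμ p
  obtain ⟨b, lam, hb, hl, hcov⟩ := eig hμ p
  have hal := Cv_al (μ := μ) (κ := κ)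
  obtain ⟨τ, hτ⟩ : ∃ τ : κ → κ → κ → ℝ, ∀ i j k, τ i j k =
    Ex μ (fun x => ⟪b i, x - mn (fun u => Ex μ u p)⟫_ℝ * ⟪b j, x - mn (fun u => Ex μ u p)⟫_ℝ *
      ⟪b k, x - mn (fun u => Ex μ u p)⟫_ℝ) p := ⟨_, fun i j k => rfl⟩
  have htr : ∀ r, (Cv μ p ^ r).trace = ∑ a, lam a ^ r := fun r => tr_pow hb r
  have h3 : ∀ r s, r + s + 2 = q →
      ∑ k, (Cv μ p ^ r * mpd (ek k) (Cv μ) p * Cv μ p ^ s * mpd (ek k) (Cv μ) p).trace ≤
        12 * c * (Cv μ p ^ q).trace := by
    intro r s hrs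
    have hT : ∀ k, (mpd (ek k) (Cv μ) p)ᵀ = mpd (ek k) (Cv μ) p := fun k => by
      ext i j
      rw [Matrix.transpose_apply, mpd_Cv hμ, mpd_Cv hμ]
      congr 1
      funext x
      ring
    simp_rw [fun k => tr_AT hb r s _ (hT k)]
    have e1 : ∑ k, ∑ a, ∑ d, lam a ^ r * lam d ^ s *
        (((Um b)ᵀ * mpd (ek k) (Cv μ) p * Um b) a d) ^ 2 =
        ∑ a, ∑ d, ∑ k, lam a ^ r * lam d ^ s * τ a d k ^ 2 := by
      rw [Finset.sum_comm]
      refine Finset.sum_congr rfl fun a _ => ?_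
      rw [Finset.sum_comm]
      refine Finset.sum_congr rfl fun d _ => ?_
      rw [← Finset.mul_sum, ← Finset.mul_sum, UTU_sum hμ]
      simp_rw [hτ]
    rw [e1, htr, ← hrs]
    have h12 : ∀ a b c, τ a b c = τ b a c := fun a b c => by
      rw [hτ, hτ]
      congr 1
      funext x
      ring
    have h23 : ∀ a b c, τ a b c = τ a c b := fun a b c => by
      rw [hτ, hτ]
      congr 1
      funext x
      ring
    have hz : ∀ i j k, lam i = 0 → τ i j k = 0 := by
      intro i j k hi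
      have h := hE.cs (u := fun x => ⟪b i, x - mn (fun u => Ex μ u p)⟫_ℝ)
        (v := fun x => ⟪b j, x - mn (fun u => Ex μ u p)⟫_ℝ * ⟪b k, x - mn (fun u => Ex μ u p)⟫_ℝ)
        (by fun_prop) (by fun_prop)
      have h4 := hcov i i
      rw [if_pos rfl, hi] at h4
      simp only [← pow_two] at h4
      rw [h4, zero_mul] at h
      have h5 : τ i j k = Ex μ (fun x => ⟪b i, x - mn (fun u => Ex μ u p)⟫_ℝ *
        (⟪b j, x - mn (fun u => Ex μ u p)⟫_ℝ * ⟪b k, x - mn (fun u => Ex μ u p)⟫_ℝ)) p := by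
        rw [hτ]
        congr 1
        funext x
        ring
      rw [← h5] at h
      exact pow_eq_zero_iff (two_ne_zero) |>.1 (le_antisymm h (sq_nonneg _))
    have hS : ∀ k, ∑ i, ∑ j, τ i j k ^ 2 / (lam i + lam j) ≤ 2 * c * lam k := by
      intro k
      have := third hE hc hP b lam hl hcov k
      simpa only [← hτ] using this
    have := third_sum hl h12 h23 hz hS r s
    refine this.trans (le_of_eq ?_)
    ring
  have hR := rec3 (A := Cv μ p) (T := fun k => mpd (ek k) (Cv μ) p)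
    (P := fun k r => mpd (ek k) (fun p => Cv μ p ^ r) p) (Q := fun r => mDg μ (fun p => Cv μ p ^ r) p)
    (q := q) (W := 12 * c * (Cv μ p ^ q).trace) ?_ ?_ ?_ ?_ ?_ h3
  · rw [Dg_trace hμ (hal.pow q)]
    refine hR.trans ?_
    have h0 : 0 ≤ (Cv μ p ^ q).trace := by
      rw [htr]
      exact Finset.sum_nonneg fun a _ => pow_nonneg (hl a) q
    have hq : (0 : ℝ) ≤ q := Nat.cast_nonneg q
    have h4 : 0 ≤ q * (c * (Cv μ p ^ q).trace) := mul_nonneg hq (mul_nonneg hc h0)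
    nlinarith
  · intro k
    ext i j
    simp only [mpd, pow_zero, Matrix.of_apply, Matrix.zero_apply]
    exact pd_const _ _ _
  · intro k r
    have : (fun p => Cv μ p ^ (r + 1)) = fun p => Cv μ p * Cv μ p ^ r := by
      funext p
      rw [pow_succ']
    rw [this, mpd_mul hμ hal (hal.pow r)]
  · ext i j
    simp only [mDg, pow_zero, Matrix.of_apply, Matrix.zero_apply]
    exact Dg_const _ _
  · intro r
    have : (fun p => Cv μ p ^ (r + 1)) = fun p => Cv μ p * Cv μ p ^ r := by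
      funext p
      rw [pow_succ']
    rw [this, mDg_mul hμ hal (hal.pow r), mDg_Cv hμ]
  · rw [htr]
    exact Finset.sum_nonneg fun a _ => pow_nonneg (hl a) _

end gen

end Pool.Agent.KS6_97.Sch
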