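import Pool.Agent.KS6_97.Sch.Var

/-!
# The Poincare inequality for log-concave densities of bounded support
-/

set_option autoImplicit false

namespace Pool.Agent.KS6_97.Sch

open MeasureTheory Set Filter Topology
open scoped ENNReal InnerProductSpace ContDiff Matrix
open Pool.Agent.H888R2.KT (LC pst gs zz gc)
open Pool.Agent.H212R2.KLS (mu Bdd)
open Pool.Agent.Q86.FIB
open Pool.Agent.Q86.EM

variable {κ : Type} [Fintype κ]

theorem ef_int {μ : Measure (Eu κ)} (hμ : BS μ) (h1 : μ univ = 1) : EF fun u => ∫ x, u x ∂μ := by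
  have h := ef_Ex hμ (0, 0)
  have e : (fun u => Ex μ u (0, 0)) = fun u => ∫ x, u x ∂μ := by
    funext u
    exact Ex_zero h1 u
  rwa [e] at h

namespace EF

variable {E : (Eu κ → ℝ) → ℝ} (hE : EF E)
include hE

theorem shift {u : Eu κ → ℝ} (hu : Continuous u) (c : ℝ) :
    E (fun x => (u x - c) ^ 2) - (E fun x => u x - c) ^ 2 = E (fun x => u x ^ 2) - (E u) ^ 2 := by
  have e : (fun x => (u x - c) ^ 2) = fun x => (u x ^ 2 - (2 * c) * u x) + c ^ 2 := by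
    funext x
    ring
  rw [e, hE.add (fun x => u x ^ 2 - (2 * c) * u x) _ (by fun_prop) (by fun_prop),
    hE.sub (by fun_prop) (by fun_prop), hE.smul, hE.const, hE.sub hu continuous_const, hE.const]
  ring

theorem scale (u : Eu κ → ℝ) (c : ℝ) :
    E (fun x => (c * u x) ^ 2) - (E fun x => c * u x) ^ 2 =
      c ^ 2 * (E (fun x => u x ^ 2) - (E u) ^ 2) := by
  have e : (fun x => (c * u x) ^ 2) = fun x => c ^ 2 * u x ^ 2 := by
    funext x
    ring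
  rw [e, hE.smul, hE.smul]
  ring

theorem var_split {u v : Eu κ → ℝ} (hu : Continuous u) (hv : Continuous v) :
    E (fun x => u x ^ 2) - (E u) ^ 2 ≤ 2 * (E (fun x => v x ^ 2) - (E v) ^ 2) +
      2 * E (fun x => (u x - v x) ^ 2) := by
  have h1 := hE.var_nonneg (u := fun x => v x - (u x - v x)) (by fun_prop)
  have e1 : (fun x => (v x - (u x - v x)) ^ 2) = fun x => (4 * v x ^ 2 - 4 * (u x * v x)) +
      u x ^ 2 := by
    funext x
    ring
  rw [e1, hE.add (fun x => 4 * v x ^ 2 - 4 * (u x * v x)) _ (by fun_prop) (by fun_prop),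
    hE.sub (u := fun x => 4 * v x ^ 2) (v := fun x => 4 * (u x * v x)) (by fun_prop) (by fun_prop),
    hE.smul, hE.smul, hE.sub (u := v) (v := fun x => u x - v x) hv (by fun_prop),
    hE.sub hu hv] at h1
  have e2 : (fun x => (u x - v x) ^ 2) = fun x => (u x ^ 2 - 2 * (u x * v x)) + v x ^ 2 := by
    funext x
    ring
  have h2 : E (fun x => (u x - v x) ^ 2) = E (fun x => u x ^ 2) - 2 * E (fun x => u x * v x) +
      E (fun x => v x ^ 2) := by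
    rw [e2, hE.add (fun x => u x ^ 2 - 2 * (u x * v x)) _ (by fun_prop) (by fun_prop),
      hE.sub (by fun_prop) (by fun_prop), hE.smul]
  have h3 := sq_nonneg (E u - E v)
  rw [h2]
  nlinarith

end EF

/-- a smooth truncation -/
noncomputable def psi (T x : ℝ) : ℝ := x / (1 + x ^ 2 / T ^ 2)

theorem psi_deriv {T : ℝ} (x : ℝ) :
    HasDerivAt (psi T) ((1 - x ^ 2 / T ^ 2) / (1 + x ^ 2 / T ^ 2) ^ 2) x := by
  have h0 : 1 + x ^ 2 / T ^ 2 ≠ 0 := by positivity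
  have h1 : HasDerivAt (fun x : ℝ => 1 + x ^ 2 / T ^ 2) (2 * x / T ^ 2) x := by
    have := ((hasDerivAt_pow 2 x).div_const (T ^ 2)).const_add 1
    simpa using this
  have h2 := (hasDerivAt_id x).div h1 h0
  convert! h2 using 1
  simp only [id]
  congr 1
  ring

theorem psi_smooth (T : ℝ) : ContDiff ℝ 1 (psi T) := by
  unfold psi
  exact contDiff_id.div (by fun_prop) fun x => by positivity

theorem psi_d_le {T : ℝ} (x : ℝ) : |(1 - x ^ 2 / T ^ 2) / (1 + x ^ 2 / T ^ 2) ^ 2| ≤ 1 := by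
  have h0 : 0 ≤ x ^ 2 / T ^ 2 := by positivity
  rw [abs_div, abs_of_pos (by positivity : 0 < (1 + x ^ 2 / T ^ 2) ^ 2),
    div_le_one (by positivity), abs_le]
  constructor <;> nlinarith

theorem psi_le {T : ℝ} (hT : 0 < T) (x : ℝ) : |psi T x| ≤ T := by
  unfold psi
  have h0 : 0 < 1 + x ^ 2 / T ^ 2 := by positivity
  rw [abs_div, abs_of_pos h0, div_le_iff₀ h0]
  have h1 : T * (1 + x ^ 2 / T ^ 2) = T + x ^ 2 / T := by
    field_simp
  rw [h1]
  have h2 : x ^ 2 / T = |x| ^ 2 / T := by rw [sq_abs]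
  rw [h2]
  have h3 : |x| = (|x| * T) / T := by field_simp
  have h4 : T = T ^ 2 / T := by field_simp
  have h5 : (|x| * T) / T ≤ (T ^ 2 + |x| ^ 2) / T := by
    refine div_le_div_of_nonneg_right ?_ hT.le
    nlinarith [sq_nonneg (|x| - T), abs_nonneg x]
  rw [add_div, ← h4, ← h3] at h5
  exact h5

theorem psi_sub {T : ℝ} (hT : 0 < T) (x : ℝ) : (x - psi T x) ^ 2 ≤ 1 / (4 * T ^ 2) * x ^ 4 := by
  unfold psi
  have h0 : 0 < T ^ 2 + x ^ 2 := by positivity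
  have h1 : x - x / (1 + x ^ 2 / T ^ 2) = x ^ 3 / (T ^ 2 + x ^ 2) := by
    field_simp
    ring
  rw [h1, div_pow, div_le_iff₀ (by positivity)]
  have h2 : 4 * (T ^ 2 * x ^ 2) ≤ (T ^ 2 + x ^ 2) ^ 2 := by nlinarith [sq_nonneg (T ^ 2 - x ^ 2)]
  have h3 : (x ^ 3) ^ 2 = 1 / (4 * T ^ 2) * x ^ 4 * (4 * (T ^ 2 * x ^ 2)) := by
    field_simp
  rw [h3]
  exact mul_le_mul_of_nonneg_left h2 (by positivity)

/-- the largest variance of a Lipschitz function -/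
theorem lip_sup : ∃ C : ℝ, 0 < C ∧ ∀ (κ : Type) [Fintype κ] [DecidableEq κ] (ρ : Eu κ → ℝ), LC ρ →
    mu ρ univ = 1 → ∀ (q : ℕ), q ≠ 0 → ∀ G0 : ℝ, 0 < G0 → TP (mu ρ) q (0, 0) ≤ G0 ^ q →
    ∀ f : Eu κ → ℝ, ContDiff ℝ 1 f → (∀ x, ‖fderiv ℝ f x‖ ≤ 1) →
      ∫ x, f x ^ 2 ∂(mu ρ) - (∫ x, f x ∂(mu ρ)) ^ 2 ≤ C * (q * G0) := by
  obtain ⟨C0, hC0, hem⟩ := Pool.Agent.Q86.EM.em
  obtain ⟨K, hK⟩ : ∃ K : ℝ, K = 1 + 4 * C0 := ⟨_, rfl⟩
  have hK1 : 1 < K := by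
    rw [hK]
    linarith
  obtain ⟨η, hη⟩ : ∃ η : ℝ, η = 1 / (2592 * K) := ⟨_, rfl⟩
  have hη0 : 0 < η := by
    rw [hη]
    positivity
  have hη1 : η ≤ 1 := by
    rw [hη, div_le_one (by positivity)]
    linarith
  refine ⟨32 / η ^ 3, by positivity, ?_⟩
  intro κ _ _ ρ hρ h1 q hq G0 hG0 hG
  have hμ := bs_lc hρ
  have hE := ef_int hμ h1
  have hq0 : (0 : ℝ) < q := by exact_mod_cast Nat.pos_of_ne_zero hq
  obtain ⟨R, hR0, hR⟩ := hμ.bdd
  set S : Set ℝ := {v | ∃ f : Eu κ → ℝ, ContDiff ℝ 1 f ∧ (∀ x, ‖fderiv ℝ f x‖ ≤ 1) ∧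
    v = ∫ x, f x ^ 2 ∂(mu ρ) - (∫ x, f x ∂(mu ρ)) ^ 2} with hS
  have hlip : ∀ f : Eu κ → ℝ, ContDiff ℝ 1 f → (∀ x, ‖fderiv ℝ f x‖ ≤ 1) → ∀ x,
      |f x - f 0| ≤ ‖x‖ := by
    intro f hf hd x
    have := convex_univ.norm_image_sub_le_of_norm_fderiv_le (𝕜 := ℝ) (f := f) (x := 0) (y := x)
      (C := 1) (fun y _ => hf.differentiable one_ne_zero y) (fun y _ => hd y) (mem_univ _)
      (mem_univ _)
    simpa using this
  have hbd : BddAbove S := by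
    refine ⟨R ^ 2, ?_⟩
    rintro v ⟨f, hf, hd, rfl⟩
    have h2 := hE.shift hf.continuous (f 0)
    beta_reduce at h2
    rw [← h2]
    have h3 : ∫ x, (f x - f 0) ^ 2 ∂(mu ρ) ≤ R ^ 2 := by
      have h4 := Ex_mono hμ (u := fun x => (f x - f 0) ^ 2) (v := fun _ => R ^ 2)
        ((hf.continuous.sub continuous_const).pow 2) continuous_const (by
          filter_upwards [hR] with x hx
          rw [← sq_abs]
          exact pow_le_pow_left₀ (abs_nonneg _) ((hlip f hf hd x).trans hx) 2) (0, 0)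
      rwa [Ex_const hμ, Ex_zero h1] at h4
    have h5 := sq_nonneg (∫ x, (f x - f 0) ∂(mu ρ))
    linarith
  have hle : ∀ f : Eu κ → ℝ, ContDiff ℝ 1 f → (∀ x, ‖fderiv ℝ f x‖ ≤ 1) →
      ∫ x, f x ^ 2 ∂(mu ρ) - (∫ x, f x ∂(mu ρ)) ^ 2 ≤ sSup S := fun f hf hd =>
    le_csSup hbd ⟨f, hf, hd, rfl⟩
  intro f hf hd
  refine (hle f hf hd).trans ?_
  by_contra hcon
  rw [not_le] at hcon
  obtain ⟨D, hD⟩ : ∃ D : ℝ, D = sSup S := ⟨_, rfl⟩
  rw [← hD] at hcon hle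
  have hD0 : 0 < D := lt_of_le_of_lt (by positivity) hcon
  obtain ⟨v, ⟨u, hu, hud, rfl⟩, hv⟩ := exists_lt_of_lt_csSup (s := S)
    ⟨_, ⟨fun _ => 0, contDiff_const, fun x => by simp, rfl⟩⟩ (b := D / 2) (by
      rw [← hD]
      linarith)
  have hP := hem κ ρ hρ h1 D hle
  -- centering
  obtain ⟨m, hm⟩ : ∃ m : ℝ, m = ∫ x, u x ∂(mu ρ) := ⟨_, rfl⟩
  obtain ⟨w, hw⟩ : ∃ w : Eu κ → ℝ, w = fun x => u x - m := ⟨_, rfl⟩
  have hwd : ContDiff ℝ 1 w := by
    rw [hw]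
    exact hu.sub contDiff_const
  have hwc := hwd.continuous
  have hwf : ∀ x, fderiv ℝ w x = fderiv ℝ u x := fun x => by
    rw [hw]
    exact fderiv_sub_const m
  have hw0 : ∫ x, w x ∂(mu ρ) = 0 := by
    have h2 := hE.sub hu.continuous (continuous_const (y := m))
    rw [hE.const] at h2
    beta_reduce at h2
    rw [hw]
    rw [h2, hm]
    ring
  have hw2 : ∫ x, w x ^ 2 ∂(mu ρ) = ∫ x, u x ^ 2 ∂(mu ρ) - (∫ x, u x ∂(mu ρ)) ^ 2 := by
    have h2 := hE.shift hu.continuous m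
    beta_reduce at h2
    rw [← h2]
    have h3 : ∫ x, (u x - m) ∂(mu ρ) = 0 := by
      rw [← hw0, hw]
    rw [h3, hw]
    ring
  have hwl : D / 2 ≤ ∫ x, w x ^ 2 ∂(mu ρ) := by
    rw [hw2]
    exact hv.le
  have hwu : ∫ x, w x ^ 2 ∂(mu ρ) ≤ D := by
    rw [hw2]
    exact hle u hu hud
  -- fourth moment
  have hw4 : ∫ x, w x ^ 4 ∂(mu ρ) ≤ K * D ^ 2 := by
    have h2 := hP (fun x => w x ^ 2) (hwd.pow 2)
    have e1 : ∀ x, (w x ^ 2) ^ 2 = w x ^ 4 := fun x => by ring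
    simp_rw [e1] at h2
    have h3 : ∫ x, ‖fderiv ℝ (fun x => w x ^ 2) x‖ ^ 2 ∂(mu ρ) ≤ 4 * D := by
      have hd2 : ∀ x, ‖fderiv ℝ (fun x => w x ^ 2) x‖ ^ 2 ≤ 4 * w x ^ 2 := by
        intro x
        have h4 := (hwd.differentiable one_ne_zero x).hasFDerivAt.pow 2
        rw [h4.fderiv, norm_smul, hwf, mul_pow]
        have h5 := pow_le_pow_left₀ (norm_nonneg _) (hud x) 2
        have h6 := mul_le_mul_of_nonneg_left h5 (sq_nonneg ‖(2 • w x ^ (2 - 1) : ℝ)‖)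
        refine h6.trans (le_of_eq ?_)
        simp only [nsmul_eq_mul, Real.norm_eq_abs, sq_abs]
        push_cast
        ring
      have h4 := hE.mono (u := fun x => ‖fderiv ℝ (fun x => w x ^ 2) x‖ ^ 2)
        (v := fun x => 4 * w x ^ 2) ((((hwd.pow 2).continuous_fderiv one_ne_zero).norm).pow 2)
        (by fun_prop) hd2
      rw [hE.smul] at h4
      beta_reduce at h4
      linarith
    have h4 := mul_le_mul_of_nonneg_left h3 (by positivity : 0 ≤ C0 * D)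
    have h5 : (∫ x, w x ^ 2 ∂(mu ρ)) ^ 2 ≤ D ^ 2 :=
      pow_le_pow_left₀ (by linarith) hwu 2
    rw [hK]
    nlinarith
  -- truncation
  obtain ⟨T, hT⟩ : ∃ T : ℝ, T = √(2 * K * D) := ⟨_, rfl⟩
  have hT0 : 0 < T := by
    rw [hT]
    positivity
  have hT2 : T ^ 2 = 2 * K * D := by
    rw [hT, Real.sq_sqrt (by positivity)]
  have hgd : ContDiff ℝ 1 fun x => psi T (w x) := (psi_smooth T).comp hwd
  have hgf : ∀ x, ‖fderiv ℝ (fun x => psi T (w x)) x‖ ≤ 1 := by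
    intro x
    have h2 := (psi_deriv (T := T) (w x)).comp_hasFDerivAt x
      (hwd.differentiable one_ne_zero x).hasFDerivAt
    have h3 : fderiv ℝ (fun x => psi T (w x)) x =
        ((1 - w x ^ 2 / T ^ 2) / (1 + w x ^ 2 / T ^ 2) ^ 2) • fderiv ℝ w x := h2.fderiv
    rw [h3, norm_smul, hwf, Real.norm_eq_abs]
    have h4 := mul_le_mul (psi_d_le (T := T) (w x)) (hud x) (norm_nonneg _) (by norm_num)
    linarith
  have hvg : D / 8 ≤ ∫ x, psi T (w x) ^ 2 ∂(mu ρ) - (∫ x, psi T (w x) ∂(mu ρ)) ^ 2 := by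
    have h2 := hE.var_split hwc hgd.continuous
    beta_reduce at h2
    rw [hw0] at h2
    have h3 : ∫ x, (w x - psi T (w x)) ^ 2 ∂(mu ρ) ≤ D / 8 := by
      have h4 := hE.mono (u := fun x => (w x - psi T (w x)) ^ 2)
        (v := fun x => 1 / (4 * T ^ 2) * w x ^ 4) ((hwc.sub hgd.continuous).pow 2)
        (by fun_prop) (fun x => psi_sub hT0 (w x))
      rw [hE.smul] at h4
      beta_reduce at h4
      have h5 := mul_le_mul_of_nonneg_left hw4 (by positivity : 0 ≤ 1 / (4 * T ^ 2))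
      have h6 : 1 / (4 * T ^ 2) * (K * D ^ 2) = D / 8 := by
        rw [hT2]
        field_simp
        ring
      linarith
    linarith
  have hmain := var_main hρ h1 hq hG0 hG hη0 hη1 (f := fun x => T⁻¹ * psi T (w x))
    (contDiff_const.mul hgd) (fun x => by
      rw [abs_mul, abs_of_pos (inv_pos.2 hT0)]
      have := mul_le_mul_of_nonneg_left (psi_le hT0 (w x)) (inv_pos.2 hT0).le
      rwa [inv_mul_cancel₀ hT0.ne'] at this) (A := T⁻¹) (fun x => by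
      have h2 : fderiv ℝ (fun x => T⁻¹ * psi T (w x)) x =
          T⁻¹ • fderiv ℝ (fun x => psi T (w x)) x :=
        fderiv_const_mul (hgd.differentiable one_ne_zero x) _
      rw [h2, norm_smul, Real.norm_of_nonneg (inv_pos.2 hT0).le]
      have := mul_le_mul_of_nonneg_left (hgf x) (inv_pos.2 hT0).le
      linarith)
  have hsc := hE.scale (fun x => psi T (w x)) T⁻¹
  beta_reduce at hsc
  rw [hsc] at hmain
  have h6 : (T⁻¹) ^ 2 * (D / 8) = 1 / (16 * K) := by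
    rw [inv_pow, hT2]
    field_simp
    ring
  have h7 := mul_le_mul_of_nonneg_left hvg (sq_nonneg T⁻¹)
  rw [h6] at h7
  have h8 : 81 * η = 1 / (32 * K) := by
    rw [hη]
    field_simp
    ring
  have h9 : 2 * T⁻¹ ^ 2 * (q * G0) / η ^ 3 = 1 / (32 * K) * (32 / η ^ 3 * (q * G0) / D) := by
    rw [inv_pow, hT2]
    field_simp
  have h10 : 32 / η ^ 3 * (q * G0) / D < 1 := by
    rw [div_lt_one hD0]
    exact hcon
  have h11 : 0 < 1 / (32 * K) := by positivity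
  have h12 := mul_lt_mul_of_pos_left h10 h11
  have h13 : 1 / (16 * K) = 2 * (1 / (32 * K)) := by
    field_simp
    norm_num
  rw [h8, h9] at hmain
  linarith

/-- **the Poincare inequality**, bounded support -/
theorem poin_bs : ∃ C : ℝ, 0 < C ∧ ∀ (κ : Type) [Fintype κ] [DecidableEq κ] (ρ : Eu κ → ℝ), LC ρ →
    mu ρ univ = 1 → ∀ (q : ℕ), q ≠ 0 → ∀ G0 : ℝ, 0 < G0 → TP (mu ρ) q (0, 0) ≤ G0 ^ q →
    ∀ f : Eu κ → ℝ, ContDiff ℝ 1 f →
      ∫ x, f x ^ 2 ∂(mu ρ) - (∫ x, f x ∂(mu ρ)) ^ 2 ≤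
        C * (q * G0) * ∫ x, ‖fderiv ℝ f x‖ ^ 2 ∂(mu ρ) := by
  obtain ⟨C0, hC0, hem⟩ := Pool.Agent.Q86.EM.em
  obtain ⟨C1, hC1, hl⟩ := lip_sup
  refine ⟨C0 * C1, by positivity, ?_⟩
  intro κ _ _ ρ hρ h1 q hq G0 hG0 hG f hf
  have h2 := hem κ ρ hρ h1 _ (hl κ ρ hρ h1 q hq G0 hG0 hG) f hf
  rw [mul_assoc C0]
  exact h2

end Pool.Agent.KS6_97.Sch
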