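import Pool.Agent.KS6_97.Sch.MatC

/-!
# Operator norm bounds and the Poincare inequality for the posterior
-/

set_option autoImplicit false

namespace Pool.Agent.KS6_97.Sch

open MeasureTheory Set Filter Topology
open scoped ENNReal InnerProductSpace ContDiff Matrix
open Pool.Agent.H888R2.KT (LC pst gs zz gc)
open Pool.Agent.H212R2.KLS (mu Bdd)
open Pool.Agent.Q86.FIB
open Pool.Agent.Q86.EM
open Pool.Agent.Q31.EM.COL (gg)

variable {κ : Type} [Fintype κ]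

/-- the variances of the linear functionals of norm one are at most `s` -/
def OpB (μ : Measure (Eu κ)) (p : ℝ × Eu κ) (s : ℝ) : Prop :=
  ∀ w : Eu κ, Ex μ (fun x => ⟪w, x⟫_ℝ ^ 2) p - (Ex μ (fun x => ⟪w, x⟫_ℝ) p) ^ 2 ≤ s * ‖w‖ ^ 2

/-- the Poincare inequality of the posterior -/
theorem post_PI {ρ : Eu κ → ℝ} (hρ : LC ρ) {t s : ℝ} (ht : 0 < t) (hs : 0 ≤ s) (y : Eu κ)
    (hO : OpB (mu ρ) (t, y) s) (f : Eu κ → ℝ) (hf : ContDiff ℝ 1 f) :
    Ex (mu ρ) (fun x => f x ^ 2) (t, y) - (Ex (mu ρ) f (t, y)) ^ 2 ≤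
      √(s / t) * Ex (mu ρ) (fun x => ‖fderiv ℝ f x‖ ^ 2) (t, y) := by
  have hμ := bs_lc hρ
  obtain ⟨K, hK⟩ : ∃ K : ℝ, K = Real.exp (-(‖y‖ ^ 2 / (2 * t))) := ⟨_, rfl⟩
  have hK0 : 0 < K := by
    rw [hK]
    exact Real.exp_pos _
  have hgg : ∀ x, gg t (t⁻¹ • y) x = K * Real.exp (ell (t, y) x) := by
    intro x
    rw [hK, ← Real.exp_add]
    unfold gg ell
    congr 1
    rw [norm_sub_sq_real, real_inner_smul_right, norm_smul, real_inner_comm, norm_inv,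
      Real.norm_of_nonneg ht.le]
    field_simp
    ring
  have hint : ∀ u : Eu κ → ℝ, ∫ x, u x * gg t (t⁻¹ • y) x ∂(mu ρ) = K * Nu (mu ρ) u (t, y) := by
    intro u
    unfold Nu
    rw [← integral_const_mul]
    refine integral_congr_ae (Eventually.of_forall fun x => ?_)
    simp only [hgg]
    ring
  have hint1 : ∫ x, gg t (t⁻¹ • y) x ∂(mu ρ) = K * Nu (mu ρ) (fun _ => 1) (t, y) := by
    rw [← hint]
    simp only [one_mul]
  obtain ⟨Z, hZ⟩ : ∃ Z : ℝ, Z = Nu (mu ρ) (fun _ => 1) (t, y) := ⟨_, rfl⟩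
  have hZ0 : 0 < Z := by
    rw [hZ]
    exact Z_pos hμ _
  have hNE : ∀ u : Eu κ → ℝ, Nu (mu ρ) u (t, y) = Z * Ex (mu ρ) u (t, y) := by
    intro u
    unfold Ex
    rw [← hZ]
    field_simp
  have hil := ilp hρ (a := t) (s := s) (t⁻¹ • y) ht hs ?_ f hf
  · rw [hint1, hint, hint, hint, ← hZ, hNE, hNE, hNE] at hil
    have hKZ : 0 < (K * Z) ^ 2 := by positivity
    refine le_of_mul_le_mul_left ?_ hKZ
    linarith
  · intro w
    rw [hint1, hint, hint, ← hZ, hNE, hNE]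
    have h1 := hO w
    have hKZ : 0 < (K * Z) ^ 2 := by positivity
    have h2 := mul_le_mul_of_nonneg_left h1 hKZ.le
    linarith

section eigs

variable [DecidableEq κ] {μ : Measure (Eu κ)} (hμ : BS μ)
include hμ

theorem lin_var (p : ℝ × Eu κ) (w : Eu κ) :
    Ex μ (fun x => ⟪w, x⟫_ℝ ^ 2) p - (Ex μ (fun x => ⟪w, x⟫_ℝ) p) ^ 2 =
      Ex μ (fun x => ⟪w, x - mn (fun u => Ex μ u p)⟫_ℝ * ⟪w, x - mn (fun u => Ex μ u p)⟫_ℝ) p := by
  have hE := ef_Ex hμ p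
  obtain ⟨a, ha⟩ : ∃ a : ℝ, a = ⟪w, mn (fun u => Ex μ u p)⟫_ℝ := ⟨_, rfl⟩
  have h1 : Ex μ (fun x => ⟪w, x⟫_ℝ) p = a := by
    rw [ha]
    exact E_inner hE w
  have e : (fun x => ⟪w, x - mn (fun u => Ex μ u p)⟫_ℝ * ⟪w, x - mn (fun u => Ex μ u p)⟫_ℝ) =
      fun x => (⟪w, x⟫_ℝ ^ 2 - (2 * a) * ⟪w, x⟫_ℝ) + a ^ 2 := by
    funext x
    rw [inner_sub_right, ← ha]
    ring
  have k1 := hE.add (fun x : Eu κ => ⟪w, x⟫_ℝ ^ 2 - (2 * a) * ⟪w, x⟫_ℝ) (fun _ => a ^ 2)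
    (by fun_prop) (by fun_prop)
  have k2 := hE.sub (u := fun x : Eu κ => ⟪w, x⟫_ℝ ^ 2) (v := fun x => (2 * a) * ⟪w, x⟫_ℝ)
    (by fun_prop) (by fun_prop)
  beta_reduce at k1 k2
  rw [e, k1, k2, Ex_mul, Ex_const hμ, h1]
  ring

/-- the variance of a linear functional in the eigenbasis -/
theorem lin_var_eig (p : ℝ × Eu κ) (b : OrthonormalBasis κ ℝ (Eu κ)) (lam : κ → ℝ)
    (hcov : ∀ i j, Ex μ (fun x => ⟪b i, x - mn (fun u => Ex μ u p)⟫_ℝ *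
      ⟪b j, x - mn (fun u => Ex μ u p)⟫_ℝ) p = if i = j then lam i else 0) (w : Eu κ) :
    Ex μ (fun x => ⟪w, x⟫_ℝ ^ 2) p - (Ex μ (fun x => ⟪w, x⟫_ℝ) p) ^ 2 =
      ∑ i, lam i * ⟪b i, w⟫_ℝ ^ 2 := by
  have hE := ef_Ex hμ p
  rw [lin_var hμ]
  have hw : ∀ x, ⟪w, x - mn (fun u => Ex μ u p)⟫_ℝ =
      ∑ i, ⟪b i, w⟫_ℝ * ⟪b i, x - mn (fun u => Ex μ u p)⟫_ℝ := fun x => by
    rw [← b.sum_inner_mul_inner w]
    refine Finset.sum_congr rfl fun i _ => ?_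
    rw [real_inner_comm]
  have e : (fun x => ⟪w, x - mn (fun u => Ex μ u p)⟫_ℝ * ⟪w, x - mn (fun u => Ex μ u p)⟫_ℝ) =
      fun x => ∑ i, ∑ j, (⟪b i, w⟫_ℝ * ⟪b j, w⟫_ℝ) * (⟪b i, x - mn (fun u => Ex μ u p)⟫_ℝ *
        ⟪b j, x - mn (fun u => Ex μ u p)⟫_ℝ) := by
    funext x
    rw [hw, Finset.sum_mul_sum]
    refine Finset.sum_congr rfl fun i _ => Finset.sum_congr rfl fun j _ => ?_
    ring
  have c1 : ∀ i j, Continuous fun x => (⟪b i, w⟫_ℝ * ⟪b j, w⟫_ℝ) *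
    (⟪b i, x - mn (fun u => Ex μ u p)⟫_ℝ * ⟪b j, x - mn (fun u => Ex μ u p)⟫_ℝ) := fun i j => by
      fun_prop
  have k1 := hE.sum Finset.univ (u := fun i x => ∑ j, (⟪b i, w⟫_ℝ * ⟪b j, w⟫_ℝ) *
    (⟪b i, x - mn (fun u => Ex μ u p)⟫_ℝ * ⟪b j, x - mn (fun u => Ex μ u p)⟫_ℝ)) fun i =>
      continuous_finsetSum _ fun j _ => c1 i j
  beta_reduce at k1
  rw [e, k1]
  refine Finset.sum_congr rfl fun i _ => ?_
  have k2 := hE.sum Finset.univ (u := fun j x => (⟪b i, w⟫_ℝ * ⟪b j, w⟫_ℝ) *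
    (⟪b i, x - mn (fun u => Ex μ u p)⟫_ℝ * ⟪b j, x - mn (fun u => Ex μ u p)⟫_ℝ)) fun j => c1 i j
  beta_reduce at k2
  rw [k2, Finset.sum_eq_single i]
  · rw [Ex_mul, hcov, if_pos rfl]
    ring
  · intro j _ hj
    rw [Ex_mul, hcov, if_neg (Ne.symm hj), mul_zero]
  · simp

/-- the operator norm is at most the Schatten norm -/
theorem op_tr (p : ℝ × Eu κ) {q : ℕ} (hq : q ≠ 0) :
    0 ≤ (Cv μ p ^ q).trace ∧ OpB μ p ((Cv μ p ^ q).trace ^ ((1 : ℝ) / q)) := by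
  obtain ⟨b, lam, hb, hl, hcov⟩ := eig hμ p
  have htr : (Cv μ p ^ q).trace = ∑ a, lam a ^ q := tr_pow hb q
  have h0 : 0 ≤ (Cv μ p ^ q).trace := by
    rw [htr]
    exact Finset.sum_nonneg fun a _ => pow_nonneg (hl a) q
  refine ⟨h0, fun w => ?_⟩
  rw [lin_var_eig hμ p b lam hcov]
  have h1 : ∀ a, lam a ≤ (Cv μ p ^ q).trace ^ ((1 : ℝ) / q) := by
    intro a
    have h2 : lam a ^ q ≤ (Cv μ p ^ q).trace := by
      rw [htr]
      exact Finset.single_le_sum (f := fun a => lam a ^ q) (fun a _ => pow_nonneg (hl a) q)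
        (Finset.mem_univ a)
    have h3 : lam a = (lam a ^ q) ^ ((1 : ℝ) / q) := by
      rw [one_div, Real.pow_rpow_inv_natCast (hl a) hq]
    rw [h3]
    exact Real.rpow_le_rpow (pow_nonneg (hl a) q) h2 (by positivity)
  calc ∑ i, lam i * ⟪b i, w⟫_ℝ ^ 2
      ≤ ∑ i, (Cv μ p ^ q).trace ^ ((1 : ℝ) / q) * ⟪b i, w⟫_ℝ ^ 2 :=
        Finset.sum_le_sum fun i _ => mul_le_mul_of_nonneg_right (h1 i) (sq_nonneg _)
    _ = (Cv μ p ^ q).trace ^ ((1 : ℝ) / q) * ‖w‖ ^ 2 := by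
        rw [← Finset.mul_sum, ← b.sum_sq_norm_inner_right w]
        simp only [Real.norm_eq_abs, sq_abs]

/-- the energy of a posterior mean -/
theorem Ga_bd {p : ℝ × Eu κ} {s : ℝ} (hs : 0 ≤ s) (hO : OpB μ p s) {f : Eu κ → ℝ}
    (hf : Continuous f) :
    Ga (Ex μ f) (Ex μ f) p ≤ s * (Ex μ (fun x => f x ^ 2) p - (Ex μ f p) ^ 2) := by
  have hE := ef_Ex hμ p
  have hpd : ∀ k, pd (ek k) (Ex μ f) p = Ex μ (fun x => f x * x k) p -
      Ex μ f p * Ex μ (fun x => x k) p := by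
    intro k
    rw [pd_Ex hμ hf]
    have : ell (ek k) = fun x : Eu κ => x k := by
      funext x
      exact ell_ek k x
    rw [this]
  obtain ⟨w, hw⟩ : ∃ w : Eu κ, w = WithLp.toLp 2 fun k => pd (ek k) (Ex μ f) p := ⟨_, rfl⟩
  have hwk : ∀ k, w k = pd (ek k) (Ex μ f) p := fun k => by rw [hw]
  have hG : Ga (Ex μ f) (Ex μ f) p = ‖w‖ ^ 2 := by
    unfold Ga
    rw [EuclideanSpace.norm_sq_eq]
    refine Finset.sum_congr rfl fun k _ => ?_
    rw [Real.norm_eq_abs, sq_abs, hwk, pow_two]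
  have hin : (fun x : Eu κ => ⟪w, x⟫_ℝ) = fun x => ∑ k, w k * x k := by
    funext x
    rw [PiLp.inner_apply]
    refine Finset.sum_congr rfl fun k _ => ?_
    simp [mul_comm]
  have hcovw : Ex μ (fun x => f x * ⟪w, x⟫_ℝ) p - Ex μ f p * Ex μ (fun x => ⟪w, x⟫_ℝ) p =
      ‖w‖ ^ 2 := by
    have e1 : (fun x : Eu κ => f x * ⟪w, x⟫_ℝ) = fun x => ∑ k, w k * (f x * x k) := by
      funext x
      have := congrFun hin x
      simp only at this
      rw [this, Finset.mul_sum]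
      refine Finset.sum_congr rfl fun k _ => ?_
      ring
    have k1 := hE.sum Finset.univ (u := fun k (x : Eu κ) => w k * (f x * x k)) fun k => by fun_prop
    have k2 := hE.sum Finset.univ (u := fun k (x : Eu κ) => w k * x k) fun k => by fun_prop
    beta_reduce at k1 k2
    rw [e1, k1, hin, k2, Finset.mul_sum, ← Finset.sum_sub_distrib, EuclideanSpace.norm_sq_eq]
    refine Finset.sum_congr rfl fun k _ => ?_
    rw [Ex_mul, Ex_mul, Real.norm_eq_abs, sq_abs]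
    have h1 := hpd k
    rw [← hwk] at h1
    rw [pow_two]
    nth_rewrite 4 [h1]
    ring
  have h1 := hE.cov_cs (u := f) (v := fun x => ⟪w, x⟫_ℝ) hf (by fun_prop)
  beta_reduce at h1
  rw [hcovw] at h1
  have h2 := hO w
  have h3 := hE.var_nonneg hf
  beta_reduce at h3
  have h4 := mul_le_mul_of_nonneg_left h2 (sub_nonneg.2 h3)
  rw [hG]
  have h5 := h1.trans h4
  rcases (sq_nonneg ‖w‖).eq_or_lt with h | h
  · rw [← h]
    exact mul_nonneg hs (sub_nonneg.2 h3)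
  · refine le_of_mul_le_mul_right ?_ h
    rw [← pow_two]
    refine h5.trans (le_of_eq ?_)
    ring

end eigs

/-- the operator norm is at most `1 / t` -/
theorem op_inv {ρ : Eu κ → ℝ} (hρ : LC ρ) {t : ℝ} (ht : 0 < t) (y : Eu κ) :
    OpB (mu ρ) (t, y) (1 / t) := by
  classical
  have hμ := bs_lc hρ
  obtain ⟨b, lam, hb, hl, hcov⟩ := eig hμ (t, y)
  intro w
  rcases isEmpty_or_nonempty κ with he | hne
  · have : w = 0 := Subsingleton.elim _ _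
    subst this
    simp only [inner_zero_left]
    rw [Ex_const hμ, Ex_const hμ, norm_zero]
    simp
  obtain ⟨a, ha⟩ := Finite.exists_max lam
  have hO : OpB (mu ρ) (t, y) (lam a) := by
    intro w
    rw [lin_var_eig hμ _ b lam hcov]
    calc ∑ i, lam i * ⟪b i, w⟫_ℝ ^ 2
        ≤ ∑ i, lam a * ⟪b i, w⟫_ℝ ^ 2 :=
          Finset.sum_le_sum fun i _ => mul_le_mul_of_nonneg_right (ha i) (sq_nonneg _)
      _ = lam a * ‖w‖ ^ 2 := by
          rw [← Finset.mul_sum, ← b.sum_sq_norm_inner_right w]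
          simp only [Real.norm_eq_abs, sq_abs]
  have h1 := post_PI hρ ht (hl a) y hO (fun x => ⟪b a, x⟫_ℝ)
    (contDiff_const.inner ℝ contDiff_id)
  rw [lin_var_eig hμ _ b lam hcov] at h1
  have h2 : ∑ i, lam i * ⟪b i, b a⟫_ℝ ^ 2 = lam a := by
    rw [Finset.sum_eq_single a]
    · rw [b.inner_eq_one]
      ring
    · intro i _ hi
      rw [b.inner_eq_zero hi]
      ring
    · simp
  have h3 : ∀ x : Eu κ, ‖fderiv ℝ (fun x => ⟪b a, x⟫_ℝ) x‖ ^ 2 = 1 := by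
    intro x
    have : HasFDerivAt (fun x => ⟪b a, x⟫_ℝ) (innerSL ℝ (b a)) x := (innerSL ℝ (b a)).hasFDerivAt
    rw [this.fderiv, innerSL_apply_norm, b.norm_eq_one, one_pow]
  simp_rw [h3] at h1
  rw [h2, Ex_const hμ, mul_one] at h1
  have h4 : lam a ≤ 1 / t := by
    have h5 : lam a ^ 2 ≤ lam a / t := by
      calc lam a ^ 2 ≤ √(lam a / t) ^ 2 := pow_le_pow_left₀ (hl a) h1 2
        _ = lam a / t := Real.sq_sqrt (div_nonneg (hl a) ht.le)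
    rcases (hl a).eq_or_lt with h | h
    · rw [← h]
      positivity
    · refine le_of_mul_le_mul_left ?_ h
      rw [← pow_two]
      refine h5.trans (le_of_eq ?_)
      ring
  exact (hO w).trans (mul_le_mul_of_nonneg_right h4 (sq_nonneg _))

end Pool.Agent.KS6_97.Sch
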