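import Pool.Agent.KS6_97.Sch.Op

/-!
# Growth of the Schatten norm of the posterior covariance
-/

set_option autoImplicit false

namespace Pool.Agent.KS6_97.Sch

open MeasureTheory Set Filter Topology
open scoped ENNReal InnerProductSpace ContDiff Matrix
open Pool.Agent.H888R2.KT (LC pst gs zz gc)
open Pool.Agent.H212R2.KLS (mu Bdd)
open Pool.Agent.Q86.FIB
open Pool.Agent.Q86.EM

variable {κ : Type} [Fintype κ] [DecidableEq κ]

theorem Nice.Dg_cb {ρ : Eu κ → ℝ} (hρ : LC ρ) {F : ℝ × Eu κ → ℝ} (hF : Nice F) :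
    Continuous (Dg (mu ρ) F) ∧ ∃ B : ℝ, ∀ p, |Dg (mu ρ) F p| ≤ B := by
  have hμ := bs_lc hρ
  have hx : ∀ k : κ, Continuous fun x : Eu κ => x k := fun k => by fun_prop
  constructor
  · unfold Dg
    refine ((pd_smooth hF.smooth _).continuous.add (continuous_const.mul
      (continuous_finsetSum _ fun k _ => (pd_smooth (pd_smooth hF.smooth _) _).continuous))).add
      (continuous_finsetSum _ fun k _ => (Ex_smooth hμ (hx k)).continuous.mul
        (pd_smooth hF.smooth _).continuous)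
  · choose b1 hb1 using hF.b1
    choose b2 hb2 using hF.b2
    choose m hm using fun k : κ => Ex_bdd hμ (hx k)
    refine ⟨b1 et + 1 / 2 * ∑ k, b2 (ek k) (ek k) + ∑ k, m k * b1 (ek k), fun p => ?_⟩
    unfold Dg
    refine (abs_add_le _ _).trans (add_le_add ((abs_add_le _ _).trans (add_le_add (hb1 _ _) ?_)) ?_)
    · rw [abs_mul, abs_of_pos (by norm_num : (0 : ℝ) < 1 / 2)]
      exact mul_le_mul_of_nonneg_left ((Finset.abs_sum_le_sum_abs _ _).trans
        (Finset.sum_le_sum fun k _ => hb2 _ _ _)) (by norm_num)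
    · refine (Finset.abs_sum_le_sum_abs _ _).trans (Finset.sum_le_sum fun k _ => ?_)
      rw [abs_mul]
      exact mul_le_mul (hm k p) (hb1 _ _) (abs_nonneg _) ((abs_nonneg _).trans (hm k p))

theorem EE_contOn {ρ : Eu κ → ℝ} (hρ : LC ρ) (h1 : mu ρ univ = 1) {F : ℝ × Eu κ → ℝ}
    (hF : Nice F) {T : ℝ} : ContinuousOn (EE ρ F) (Icc 0 T) := by
  intro t ht
  rcases ht.1.eq_or_lt with h | h
  · rw [← h]
    obtain ⟨B, hB⟩ := hF.b0
    exact (EE_zero hρ h1 hF.smooth.continuous hB).1.continuousWithinAt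
  · exact (EE_deriv hρ hF h).continuousAt.continuousWithinAt

theorem EE_incr {ρ : Eu κ → ℝ} (hρ : LC ρ) (h1 : mu ρ univ = 1) {F : ℝ × Eu κ → ℝ}
    (hF : Nice F) {T : ℝ} (hT : 0 ≤ T) {Φ φ : ℝ → ℝ} (hΦ : ContinuousOn Φ (Icc 0 T))
    (hφ : ∀ s ∈ Ioo 0 T, HasDerivAt Φ (φ s) s)
    (h : ∀ s ∈ Ioo 0 T, φ s ≤ EE ρ (Dg (mu ρ) F) s) : Φ T - Φ 0 ≤ EE ρ F T - F (0, 0) := by
  obtain ⟨B, hB⟩ := hF.b0
  have hd : ∀ s ∈ Ioo 0 T, HasDerivAt (fun s => EE ρ F s - Φ s) (EE ρ (Dg (mu ρ) F) s - φ s) s :=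
    fun s hs => (EE_deriv hρ hF hs.1).sub (hφ s hs)
  have hm := monotoneOn_of_deriv_nonneg (convex_Icc 0 T) (f := fun s => EE ρ F s - Φ s)
    ((EE_contOn hρ h1 hF).sub hΦ) (by
      rw [interior_Icc]
      exact fun s hs => (hd s hs).differentiableAt.differentiableWithinAt) (by
      rw [interior_Icc]
      intro s hs
      rw [(hd s hs).deriv]
      exact sub_nonneg.2 (h s hs))
  have h2 := hm (left_mem_Icc.2 hT) (right_mem_Icc.2 hT) hT
  simp only at h2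
  rw [(EE_zero hρ h1 hF.smooth.continuous hB).2] at h2
  linarith

theorem EE_decr {ρ : Eu κ → ℝ} (hρ : LC ρ) (h1 : mu ρ univ = 1) {F : ℝ × Eu κ → ℝ}
    (hF : Nice F) {T : ℝ} (hT : 0 ≤ T) {Φ φ : ℝ → ℝ} (hΦ : ContinuousOn Φ (Icc 0 T))
    (hφ : ∀ s ∈ Ioo 0 T, HasDerivAt Φ (φ s) s)
    (h : ∀ s ∈ Ioo 0 T, EE ρ (Dg (mu ρ) F) s ≤ φ s) : EE ρ F T - F (0, 0) ≤ Φ T - Φ 0 := by
  obtain ⟨B, hB⟩ := hF.b0
  have hd : ∀ s ∈ Ioo 0 T, HasDerivAt (fun s => Φ s - EE ρ F s) (φ s - EE ρ (Dg (mu ρ) F) s) s :=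
    fun s hs => (hφ s hs).sub (EE_deriv hρ hF hs.1)
  have hm := monotoneOn_of_deriv_nonneg (convex_Icc 0 T) (f := fun s => Φ s - EE ρ F s)
    (hΦ.sub (EE_contOn hρ h1 hF)) (by
      rw [interior_Icc]
      exact fun s hs => (hd s hs).differentiableAt.differentiableWithinAt) (by
      rw [interior_Icc]
      intro s hs
      rw [(hd s hs).deriv]
      exact sub_nonneg.2 (h s hs))
  have h2 := hm (left_mem_Icc.2 hT) (right_mem_Icc.2 hT) hT
  simp only at h2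
  rw [(EE_zero hρ h1 hF.smooth.continuous hB).2] at h2
  linarith

theorem EE_ge_const {ρ : Eu κ → ℝ} (hρ : LC ρ) (h1 : mu ρ univ = 1) {F : ℝ × Eu κ → ℝ}
    (hF : Continuous F) {B : ℝ} (hB : ∀ p, |F p| ≤ B) {t c : ℝ} (h : ∀ y, c ≤ F (t, y)) :
    c ≤ EE ρ F t := by
  rw [← EE_const hρ h1 c t]
  exact EE_mono hρ continuous_const hF (B := max |c| B) (fun p => le_max_left _ _)
    (fun p => (hB p).trans (le_max_right _ _)) t h

/-! ### powers -/

theorem pd_rpow {G : ℝ × Eu κ → ℝ} (hG : ContDiff ℝ ∞ G) (hpos : ∀ p, 0 < G p) (a : ℝ)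
    (v p : ℝ × Eu κ) : pd v (fun p => G p ^ a) p = a * (G p ^ (a - 1) * pd v G p) := by
  unfold pd
  have h1 := (hG.differentiable (by simp) p).hasFDerivAt.rpow_const (p := a)
    (Or.inl (hpos p).ne')
  rw [h1.fderiv]
  simp only [smul_apply, smul_eq_mul]
  ring

theorem rpow_smooth {G : ℝ × Eu κ → ℝ} (hG : ContDiff ℝ ∞ G) (hpos : ∀ p, 0 < G p) (a : ℝ) :
    ContDiff ℝ ∞ fun p => G p ^ a := hG.rpow_const_of_ne fun p => (hpos p).ne'

theorem pd_pd_rpow {G : ℝ × Eu κ → ℝ} (hG : ContDiff ℝ ∞ G) (hpos : ∀ p, 0 < G p) (a : ℝ)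
    (v w p : ℝ × Eu κ) : pd w (pd v fun p => G p ^ a) p =
      a * ((a - 1) * (G p ^ (a - 1 - 1) * pd w G p) * pd v G p + G p ^ (a - 1) * pd w (pd v G) p) := by
  have h1 : pd v (fun p => G p ^ a) = fun p => a * (G p ^ (a - 1) * pd v G p) := by
    funext p
    exact pd_rpow hG hpos a v p
  rw [h1, pd_const_mul (sm1 ((rpow_smooth hG hpos _).mul (pd_smooth hG v))),
    pd_mul (sm1 (rpow_smooth hG hpos _)) (sm1 (pd_smooth hG v)), pd_rpow hG hpos]

theorem Dg_rpow {μ : Measure (Eu κ)} {G : ℝ × Eu κ → ℝ} (hG : ContDiff ℝ ∞ G)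
    (hpos : ∀ p, 0 < G p) (a : ℝ) (p : ℝ × Eu κ) :
    Dg μ (fun p => G p ^ a) p = a * (G p ^ (a - 1) * Dg μ G p) +
      1 / 2 * (a * (a - 1)) * (G p ^ (a - 1 - 1) * Ga G G p) := by
  unfold Dg Ga
  simp only [pd_pd_rpow hG hpos, pd_rpow hG hpos]
  rw [mul_add (G p ^ (a - 1)), mul_add (G p ^ (a - 1)), mul_add a, mul_add a, ← Finset.mul_sum,
    Finset.sum_add_distrib, ← Finset.mul_sum]
  have e1 : ∑ k, (a - 1) * (G p ^ (a - 1 - 1) * pd (ek k) G p) * pd (ek k) G p =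
      (a - 1) * G p ^ (a - 1 - 1) * ∑ k, pd (ek k) G p * pd (ek k) G p := by
    rw [Finset.mul_sum]
    exact Finset.sum_congr rfl fun k _ => by ring
  have e2 : ∑ k, Ex μ (fun x => x k) p * (a * (G p ^ (a - 1) * pd (ek k) G p)) =
      a * G p ^ (a - 1) * ∑ k, Ex μ (fun x => x k) p * pd (ek k) G p := by
    rw [Finset.mul_sum]
    exact Finset.sum_congr rfl fun k _ => by ring
  rw [e1, e2]
  ring

theorem rpow_bd {x L a : ℝ} (hL : 0 < L) (h : L ≤ x) (ha : a ≤ 0) : |x ^ a| ≤ L ^ a := by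
  rw [abs_of_pos (Real.rpow_pos_of_pos (hL.trans_le h) a)]
  exact Real.rpow_le_rpow_of_nonpos hL h ha

theorem rpow_nice {μ : Measure (Eu κ)} (hμ : BS μ) {G : ℝ × Eu κ → ℝ} (hG : Al μ G) {L : ℝ}
    (hL : 0 < L) (h : ∀ p, L ≤ G p) {a : ℝ} (ha : a ≤ 0) : Nice fun p => G p ^ a := by
  have hs := hG.smooth hμ
  have hpos : ∀ p, 0 < G p := fun p => hL.trans_le (h p)
  refine ⟨rpow_smooth hs hpos a, ⟨L ^ a, fun p => rpow_bd hL (h p) ha⟩, fun v => ?_, fun v w => ?_⟩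
  · obtain ⟨B, hB⟩ := (hG.pd hμ v).bdd hμ
    refine ⟨|a| * (L ^ (a - 1) * B), fun p => ?_⟩
    rw [pd_rpow hs hpos, abs_mul, abs_mul]
    refine mul_le_mul_of_nonneg_left ?_ (abs_nonneg _)
    exact mul_le_mul (rpow_bd hL (h p) (by linarith)) (hB p) (abs_nonneg _)
      (Real.rpow_nonneg hL.le _)
  · obtain ⟨B, hB⟩ := (hG.pd hμ v).bdd hμ
    obtain ⟨B', hB'⟩ := (hG.pd hμ w).bdd hμ
    obtain ⟨B2, hB2⟩ := ((hG.pd hμ v).pd hμ w).bdd hμ
    refine ⟨|a| * (|a - 1| * (L ^ (a - 1 - 1) * B') * B + L ^ (a - 1) * B2), fun p => ?_⟩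
    rw [pd_pd_rpow hs hpos, abs_mul]
    refine mul_le_mul_of_nonneg_left ((abs_add_le _ _).trans (add_le_add ?_ ?_)) (abs_nonneg _)
    · rw [abs_mul, abs_mul, abs_mul]
      have hB0' := (abs_nonneg _).trans (hB' p)
      refine mul_le_mul (mul_le_mul_of_nonneg_left ?_ (abs_nonneg _)) (hB p) (abs_nonneg _)
        (mul_nonneg (abs_nonneg _) (mul_nonneg (Real.rpow_nonneg hL.le _) hB0'))
      exact mul_le_mul (rpow_bd hL (h p) (by linarith)) (hB' p) (abs_nonneg _)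
        (Real.rpow_nonneg hL.le _)
    · rw [abs_mul]
      exact mul_le_mul (rpow_bd hL (h p) (by linarith)) (hB2 p) (abs_nonneg _)
        (Real.rpow_nonneg hL.le _)

/-! ### the potential -/

/-- the trace of the `q`-th power of the posterior covariance -/
noncomputable def TP (μ : Measure (Eu κ)) (q : ℕ) (p : ℝ × Eu κ) : ℝ := (Cv μ p ^ q).trace

theorem TP_al {μ : Measure (Eu κ)} (q : ℕ) : Al μ (TP μ q) := by
  have h := (Cv_al (μ := μ) (κ := κ)).pow q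
  unfold TP Matrix.trace
  simp only [Matrix.diag_apply]
  exact Al.sum _ fun i => h i i

theorem TP_nn {μ : Measure (Eu κ)} (hμ : BS μ) {q : ℕ} (hq : q ≠ 0) (p : ℝ × Eu κ) :
    0 ≤ TP μ q p := (op_tr hμ p hq).1

/-- the generator on the potential -/
theorem Dg_pot {ρ : Eu κ → ℝ} (hρ : LC ρ) {q : ℕ} (hq : q ≠ 0) {L : ℝ} (hL : 0 < L) {t : ℝ}
    (ht : 0 < t) (y : Eu κ) :
    -(3 * q / √t) ≤ Dg (mu ρ) (fun p => (L + TP (mu ρ) q p) ^ (-(1 / (2 * q : ℝ)))) (t, y) := by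
  have hμ := bs_lc hρ
  have hq0 : (0 : ℝ) < q := by exact_mod_cast Nat.pos_of_ne_zero hq
  have hal : Al (mu ρ) fun p => L + TP (mu ρ) q p := Al.add _ _ (Al.const L) (TP_al q)
  have hpos : ∀ p, 0 < L + TP (mu ρ) q p := fun p => by
    have := TP_nn hμ hq p
    linarith
  obtain ⟨h0, hO⟩ := op_tr hμ (t, y) hq
  obtain ⟨P, hP⟩ : ∃ P : ℝ, P = TP (mu ρ) q (t, y) := ⟨_, rfl⟩
  have hP' : (Cv (mu ρ) (t, y) ^ q).trace = P := by
    rw [hP]
    rfl
  rw [hP'] at h0 hO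
  have hst : 0 < √t := Real.sqrt_pos.2 ht
  have hPq : 0 ≤ P ^ ((1 : ℝ) / q) := Real.rpow_nonneg h0 _
  have hc : √(P ^ ((1 : ℝ) / q) / t) = P ^ (1 / (2 * q : ℝ)) / √t := by
    rw [Real.sqrt_div hPq, Real.sqrt_eq_rpow, ← Real.rpow_mul h0]
    congr 2
    field_simp
  have h1 := Dg_tr hμ (p := (t, y)) (c := √(P ^ ((1 : ℝ) / q) / t)) (Real.sqrt_nonneg _)
    (fun f hf => post_PI hρ ht hPq y hO f hf) q
  rw [hc] at h1
  have h1' : Dg (mu ρ) (TP (mu ρ) q) (t, y) ≤ 6 * (q : ℝ) ^ 2 * (P ^ (1 / (2 * q : ℝ)) / √t) * P := by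
    rw [← hP']
    rw [← hP'] at h1
    exact h1
  have hDL : Dg (mu ρ) (fun p => L + TP (mu ρ) q p) (t, y) = Dg (mu ρ) (TP (mu ρ) q) (t, y) := by
    rw [Dg_add contDiff_const ((TP_al q).smooth hμ), Dg_const, zero_add]
  rw [Dg_rpow (hal.smooth hμ) hpos, hDL, ← hP]
  obtain ⟨r, hr⟩ : ∃ r : ℝ, r = 1 / (2 * q : ℝ) := ⟨_, rfl⟩
  have hr0 : 0 < r := by
    rw [hr]
    positivity
  rw [← hr] at h1' ⊢
  have hLP : 0 < L + P := by linarith
  have hG : 0 ≤ Ga (fun p => L + TP (mu ρ) q p) (fun p => L + TP (mu ρ) q p) (t, y) :=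
    Finset.sum_nonneg fun k _ => mul_self_nonneg _
  have h2 : 0 ≤ 1 / 2 * (-r * (-r - 1)) * ((L + P) ^ (-r - 1 - 1) *
      Ga (fun p => L + TP (mu ρ) q p) (fun p => L + TP (mu ρ) q p) (t, y)) := by
    have h3 : 0 ≤ -r * (-r - 1) := by nlinarith
    have h4 := Real.rpow_nonneg hLP.le (-r - 1 - 1)
    positivity
  have h5 : (L + P) ^ (-r - 1) * Dg (mu ρ) (TP (mu ρ) q) (t, y) ≤ 6 * (q : ℝ) ^ 2 / √t := by
    have h6 := mul_le_mul_of_nonneg_left h1' (Real.rpow_nonneg hLP.le (-r - 1))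
    refine h6.trans ?_
    have h7 : P ^ r * P ≤ (L + P) ^ (r + 1) := by
      rcases h0.eq_or_lt with h | h
      · rw [← h, mul_zero]
        exact Real.rpow_nonneg (by linarith) _
      · rw [← Real.rpow_add_one h.ne']
        exact Real.rpow_le_rpow h0 (by linarith) (by linarith)
    have h8 : (L + P) ^ (-r - 1) * (L + P) ^ (r + 1) = 1 := by
      rw [← Real.rpow_add hLP]
      have : -r - 1 + (r + 1) = 0 := by ring
      rw [this, Real.rpow_zero]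
    have h9 := mul_le_mul_of_nonneg_left h7 (Real.rpow_nonneg hLP.le (-r - 1))
    rw [h8] at h9
    calc (L + P) ^ (-r - 1) * (6 * (q : ℝ) ^ 2 * (P ^ r / √t) * P)
        = 6 * (q : ℝ) ^ 2 / √t * ((L + P) ^ (-r - 1) * (P ^ r * P)) := by ring
      _ ≤ 6 * (q : ℝ) ^ 2 / √t * 1 := mul_le_mul_of_nonneg_left h9 (by positivity)
      _ = _ := mul_one _
  have h10 := mul_le_mul_of_nonneg_left h5 hr0.le
  have h11 : r * (6 * (q : ℝ) ^ 2 / √t) = 3 * q / √t := by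
    rw [hr]
    field_simp
    ring
  rw [h11] at h10
  linarith

/-- **the tail function** -/
theorem tail {ρ : Eu κ → ℝ} (hρ : LC ρ) (h1 : mu ρ univ = 1) {q : ℕ} (hq : q ≠ 0) {G0 : ℝ}
    (hG0 : 0 < G0) (hG : TP (mu ρ) q (0, 0) ≤ G0 ^ q) {s η : ℝ} (hs : 0 ≤ s) (hη : 0 < η)
    (hη1 : η ≤ 1) (hsη : (q : ℝ) ^ 2 * s * G0 ≤ η ^ 4) :
    ∃ H : ℝ × Eu κ → ℝ, Continuous H ∧ (∃ B : ℝ, ∀ p, |H p| ≤ B) ∧ (∀ p, 0 ≤ H p) ∧
      (∀ p, 4 * G0 / η ^ 2 ≤ TP (mu ρ) q p ^ ((1 : ℝ) / q) → 1 / 2 ≤ H p) ∧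
      EE ρ H s ≤ 13 / 2 * η := by
  have hμ := bs_lc hρ
  have hq0 : (0 : ℝ) < q := by exact_mod_cast Nat.pos_of_ne_zero hq
  have hq1 : (1 : ℝ) ≤ q := by exact_mod_cast Nat.one_le_iff_ne_zero.2 hq
  obtain ⟨r, hr⟩ : ∃ r : ℝ, r = 1 / (2 * q : ℝ) := ⟨_, rfl⟩
  have hr0 : 0 < r := by
    rw [hr]
    positivity
  have hr1 : r ≤ 1 := by
    rw [hr, div_le_one (by positivity)]
    linarith
  obtain ⟨M, hM⟩ : ∃ M : ℝ, M = G0 / η ^ 2 := ⟨_, rfl⟩
  have hM0 : 0 < M := by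
    rw [hM]
    positivity
  obtain ⟨L, hL⟩ : ∃ L : ℝ, L = M ^ q := ⟨_, rfl⟩
  have hL0 : 0 < L := by
    rw [hL]
    positivity
  obtain ⟨β, hβ⟩ : ∃ β : ℝ, β = √M := ⟨_, rfl⟩
  have hβ0 : 0 < β := by
    rw [hβ]
    exact Real.sqrt_pos.2 hM0
  -- powers of the form x^q ^ (-r)
  have hpw : ∀ x : ℝ, 0 < x → (x ^ q) ^ (-r) = (√x)⁻¹ := by
    intro x hx
    rw [← Real.rpow_natCast, ← Real.rpow_mul hx.le, Real.sqrt_eq_rpow, ← Real.rpow_neg hx.le]
    congr 1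
    rw [hr]
    field_simp
  have hLr : L ^ (-r) = β⁻¹ := by
    rw [hL, hβ]
    exact hpw M hM0
  have hal : Al (mu ρ) fun p => L + TP (mu ρ) q p := Al.add _ _ (Al.const L) (TP_al q)
  have hge : ∀ p, L ≤ L + TP (mu ρ) q p := fun p => by
    have := TP_nn hμ hq p
    linarith
  have hpos : ∀ p, 0 < L + TP (mu ρ) q p := fun p => hL0.trans_le (hge p)
  have hN := rpow_nice hμ hal hL0 hge (a := -r) (by linarith)
  obtain ⟨F, hF⟩ : ∃ F : ℝ × Eu κ → ℝ, F = fun p => (L + TP (mu ρ) q p) ^ (-r) := ⟨_, rfl⟩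
  rw [← hF] at hN
  obtain ⟨B, hB⟩ := hN.b0
  have hFle : ∀ p, F p ≤ β⁻¹ := fun p => by
    have := rpow_bd (a := -r) hL0 (hge p) (by linarith)
    rw [hLr] at this
    rw [hF]
    exact (le_abs_self _).trans this
  have hFnn : ∀ p, 0 ≤ F p := fun p => by
    rw [hF]
    exact Real.rpow_nonneg (hpos p).le _
  -- growth
  have hgr := EE_incr hρ h1 hN hs (Φ := fun s => -(6 * q) * √s) (φ := fun s => -(3 * q / √s))
    (by fun_prop) (fun s hs => by
      have h2 := (Real.hasDerivAt_sqrt hs.1.ne').const_mul (-(6 * (q : ℝ)))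
      have h3 : 0 < √s := Real.sqrt_pos.2 hs.1
      convert! h2 using 1
      field_simp
      ring) (fun s hs => by
        obtain ⟨c1, B', hB'⟩ := hN.Dg_cb hρ
        refine EE_ge_const hρ h1 c1 hB' fun y => ?_
        have h2 := Dg_pot hρ hq hL0 hs.1 y
        rw [← hr] at h2
        rw [hF]
        exact h2)
  simp only [Real.sqrt_zero, mul_zero, sub_zero] at hgr
  -- the value at zero
  have h00 : 1 - η ^ 2 / 2 ≤ β * F (0, 0) := by
    have e1 : β⁻¹ * (1 + η ^ (2 * q)) ^ (-r) ≤ F (0, 0) := by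
      rw [hF]
      simp only
      rw [← hLr, ← Real.mul_rpow hL0.le (by positivity)]
      have e3 : L * (1 + η ^ (2 * q)) = L + G0 ^ q := by
        rw [hL, hM, div_pow, ← pow_mul]
        field_simp
      rw [e3]
      exact Real.rpow_le_rpow_of_nonpos (hpos _) (by linarith) (by linarith)
    have e2 : 1 - η ^ 2 / 2 ≤ (1 + η ^ (2 * q)) ^ (-r) := by
      have hη2 : η ^ (2 * q) ≤ η ^ 2 := by
        refine pow_le_pow_of_le_one hη.le hη1 ?_
        have := Nat.pos_of_ne_zero hq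
        omega
      have hb := rpow_one_add_le_one_add_mul_self (s := η ^ (2 * q)) (p := r)
        (by
          have : 0 ≤ η ^ (2 * q) := by positivity
          linarith) hr0.le hr1
      have hpos1 : 0 < 1 + η ^ (2 * q) := by positivity
      rw [Real.rpow_neg hpos1.le]
      have hr2 : r ≤ 1 / 2 := by
        rw [hr, div_le_div_iff₀ (by positivity) (by positivity)]
        linarith
      have hx : r * η ^ (2 * q) ≤ η ^ 2 / 2 := by
        have h3 : 0 ≤ η ^ (2 * q) := by positivity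
        have h4 := mul_le_mul hr2 hη2 h3 (by norm_num)
        linarith
      have hx0 : 0 ≤ r * η ^ (2 * q) := by positivity
      have h5 : 0 < (1 + η ^ (2 * q)) ^ r := Real.rpow_pos_of_pos hpos1 _
      have h6 : (1 + r * η ^ (2 * q))⁻¹ ≤ ((1 + η ^ (2 * q)) ^ r)⁻¹ := inv_anti₀ h5 hb
      refine le_trans ?_ h6
      rw [← one_div, le_div_iff₀ (by linarith)]
      nlinarith
    have e4 := mul_le_mul_of_nonneg_left e1 hβ0.le
    rw [← mul_assoc, mul_inv_cancel₀ hβ0.ne', one_mul] at e4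
    exact e2.trans e4
  refine ⟨fun p => 1 - β * F p, ?_, ?_, ?_, ?_, ?_⟩
  · exact continuous_const.sub (continuous_const.mul hN.smooth.continuous)
  · refine ⟨1 + β * B, fun p => (abs_sub _ _).trans ?_⟩
    rw [abs_one, abs_mul, abs_of_pos hβ0]
    have := mul_le_mul_of_nonneg_left (hB p) hβ0.le
    linarith
  · intro p
    have := mul_le_mul_of_nonneg_left (hFle p) hβ0.le
    rw [mul_inv_cancel₀ hβ0.ne'] at this
    linarith
  · intro p hp
    have hP0 := TP_nn hμ hq p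
    have h4 : (4 * M) ^ q ≤ TP (mu ρ) q p := by
      have h5 : 4 * M ≤ TP (mu ρ) q p ^ ((1 : ℝ) / q) := by
        rw [hM]
        refine le_trans (le_of_eq ?_) hp
        ring
      have h6 := pow_le_pow_left₀ (by positivity) h5 q
      rwa [one_div, Real.rpow_inv_natCast_pow hP0 hq] at h6
    have h7 : F p ≤ β⁻¹ / 2 := by
      rw [hF]
      simp only
      have h8 : (L + TP (mu ρ) q p) ^ (-r) ≤ ((4 * M) ^ q) ^ (-r) :=
        Real.rpow_le_rpow_of_nonpos (by positivity) (by linarith) (by linarith)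
      rw [hpw _ (by positivity)] at h8
      refine h8.trans (le_of_eq ?_)
      have h9 : √(4 * M) = 2 * β := by
        rw [Real.sqrt_mul (by norm_num), hβ]
        congr 1
        have : (4 : ℝ) = 2 ^ 2 := by norm_num
        rw [this, Real.sqrt_sq (by norm_num)]
      rw [h9, mul_inv]
      ring
    have h10 := mul_le_mul_of_nonneg_left h7 hβ0.le
    have h11 : β * (β⁻¹ / 2) = 1 / 2 := by
      field_simp
    linarith
  · have e1 : EE ρ (fun p => 1 - β * F p) s = 1 - β * EE ρ F s := by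
      have h2 := EE_add hρ (F := fun _ => (1 : ℝ)) (G := fun p => (-β) * F p) continuous_const
        (continuous_const.mul hN.smooth.continuous) (B := max 1 (β * B)) (fun p => by simp)
        (fun p => by
          rw [abs_mul, abs_neg, abs_of_pos hβ0]
          exact (mul_le_mul_of_nonneg_left (hB p) hβ0.le).trans (le_max_right _ _)) s
      rw [EE_const hρ h1, EE_mul] at h2
      have h3 : (fun p => 1 - β * F p) = fun p => 1 + (-β) * F p := by
        funext p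
        ring
      rw [h3, h2]
      ring
    rw [e1]
    have h2 := mul_le_mul_of_nonneg_left hgr hβ0.le
    have h3 : β * √s * q ≤ η := by
      have h4 : (β * √s * q) ^ 2 ≤ η ^ 2 := by
        rw [mul_pow, mul_pow, hβ, Real.sq_sqrt hM0.le, Real.sq_sqrt hs, hM]
        rw [div_mul_eq_mul_div, div_mul_eq_mul_div, div_le_iff₀ (by positivity)]
        nlinarith
      exact abs_le_of_sq_le_sq' h4 hη.le |>.2
    have h5 : η ^ 2 ≤ η := by nlinarith
    nlinarith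

end Pool.Agent.KS6_97.Sch
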