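import Pool.Agent.KS6_97.Sch.ILp

/-!
# The posterior means `E[u(X) | t, y]`, weight `exp (⟪y, x⟫ - t |x|² / 2)`, as functions of `(t, y)`
-/

set_option autoImplicit false

namespace Pool.Agent.KS6_97.Sch

open MeasureTheory Set Filter Topology
open scoped ENNReal InnerProductSpace ContDiff
open Pool.Agent.Q86.FIB
open Pool.Agent.Q86.EM

variable {κ : Type} [Fintype κ]

/-- finite nonzero measures with bounded support -/
structure BS (μ : Measure (Eu κ)) : Prop where
  fin : IsFiniteMeasure μ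
  ne : μ ≠ 0
  bdd : ∃ R : ℝ, 0 ≤ R ∧ ∀ᵐ x ∂μ, ‖x‖ ≤ R

/-- the exponent, linear in `v = (t, y)` -/
noncomputable def ell (v : ℝ × Eu κ) (x : Eu κ) : ℝ := ⟪v.2, x⟫_ℝ - v.1 / 2 * ‖x‖ ^ 2

/-- the exponent as a linear functional -/
noncomputable def ellL (x : Eu κ) : ℝ × Eu κ →L[ℝ] ℝ :=
  (innerSL ℝ x).comp (ContinuousLinearMap.snd ℝ ℝ (Eu κ)) -
    (‖x‖ ^ 2 / 2) • ContinuousLinearMap.fst ℝ ℝ (Eu κ)

theorem ellL_apply (x : Eu κ) (v : ℝ × Eu κ) : ellL x v = ell v x := by
  unfold ellL ell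
  simp only [sub_apply, ContinuousLinearMap.coe_comp, Function.comp_apply,
    ContinuousLinearMap.coe_snd', innerSL_apply_apply, smul_apply, ContinuousLinearMap.coe_fst',
    smul_eq_mul]
  rw [real_inner_comm]
  ring

theorem ellL_cont : Continuous fun x : Eu κ => ellL x := by
  unfold ellL
  fun_prop

theorem ell_cont (v : ℝ × Eu κ) : Continuous (ell v) := by
  unfold ell
  fun_prop

theorem ell_bd {R : ℝ} (v : ℝ × Eu κ) {x : Eu κ} (hx : ‖x‖ ≤ R) :
    |ell v x| ≤ ‖v‖ * (R + R ^ 2) := by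
  have hR : 0 ≤ R := (norm_nonneg _).trans hx
  unfold ell
  have h1 : |⟪v.2, x⟫_ℝ| ≤ ‖v‖ * R :=
    (abs_real_inner_le_norm _ _).trans (mul_le_mul (norm_snd_le v) hx (norm_nonneg _) (norm_nonneg _))
  have h2 : |v.1 / 2 * ‖x‖ ^ 2| ≤ ‖v‖ * R ^ 2 := by
    rw [abs_mul, abs_of_nonneg (sq_nonneg ‖x‖), abs_div]
    refine mul_le_mul ?_ (pow_le_pow_left₀ (norm_nonneg _) hx 2) (sq_nonneg _) (norm_nonneg _)
    have h3 : |v.1| ≤ ‖v‖ := norm_fst_le v
    have h4 : |(2 : ℝ)| = 2 := by norm_num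
    rw [h4]
    have := abs_nonneg v.1
    linarith
  have h3 := abs_sub (⟪v.2, x⟫_ℝ) (v.1 / 2 * ‖x‖ ^ 2)
  rw [mul_add]
  linarith

theorem ellL_bd {R : ℝ} {x : Eu κ} (hx : ‖x‖ ≤ R) : ‖ellL x‖ ≤ R + R ^ 2 := by
  have hR : 0 ≤ R := (norm_nonneg _).trans hx
  refine ContinuousLinearMap.opNorm_le_bound _ (by positivity) fun v => ?_
  rw [ellL_apply, Real.norm_eq_abs, mul_comm]
  exact ell_bd v hx

/-- the unnormalised posterior mean -/
noncomputable def Nu (μ : Measure (Eu κ)) (u : Eu κ → ℝ) (p : ℝ × Eu κ) : ℝ :=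
  ∫ x, u x * Real.exp (ell p x) ∂μ

/-- the posterior mean -/
noncomputable def Ex (μ : Measure (Eu κ)) (u : Eu κ → ℝ) (p : ℝ × Eu κ) : ℝ :=
  Nu μ u p / Nu μ (fun _ => 1) p

section basic

variable {μ : Measure (Eu κ)} (hμ : BS μ)
include hμ

theorem BS.integrable {F : Eu κ → ℝ} (hF : Continuous F) : Integrable F μ := by
  obtain ⟨R, hR0, hR⟩ := hμ.bdd
  have := hμ.fin
  obtain ⟨M, hM⟩ := (isCompact_closedBall (0 : Eu κ) R).exists_bound_of_continuousOn hF.continuousOn
  refine (integrable_const M).mono' hF.aestronglyMeasurable ?_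
  filter_upwards [hR] with x hx
  exact hM x (by rwa [mem_closedBall_zero_iff])

theorem BS.int_w {u : Eu κ → ℝ} (hu : Continuous u) (p : ℝ × Eu κ) :
    Integrable (fun x => u x * Real.exp (ell p x)) μ :=
  hμ.integrable (hu.mul (ell_cont p).rexp)

theorem Nu_add {u v : Eu κ → ℝ} (hu : Continuous u) (hv : Continuous v) (p : ℝ × Eu κ) :
    Nu μ (fun x => u x + v x) p = Nu μ u p + Nu μ v p := by
  unfold Nu
  simp_rw [add_mul]
  exact integral_add (hμ.int_w hu p) (hμ.int_w hv p)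

theorem Nu_hasFDerivAt {u : Eu κ → ℝ} (hu : Continuous u) (p : ℝ × Eu κ) :
    HasFDerivAt (Nu μ u) (∫ x, (u x * Real.exp (ell p x)) • ellL x ∂μ) p := by
  obtain ⟨R, hR0, hR⟩ := hμ.bdd
  have := hμ.fin
  obtain ⟨M, hM⟩ := (isCompact_closedBall (0 : Eu κ) R).exists_bound_of_continuousOn hu.continuousOn
  have hM0 : 0 ≤ M := (norm_nonneg _).trans (hM 0 (by simp [hR0]))
  refine hasFDerivAt_integral_of_dominated_of_fderiv_le (s := Metric.ball p 1)
    (F' := fun q x => (u x * Real.exp (ell q x)) • ellL x)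
    (bound := fun _ => M * Real.exp ((‖p‖ + 1) * (R + R ^ 2)) * (R + R ^ 2)) ?_ ?_ ?_ ?_ ?_ ?_ ?_
  · exact Metric.ball_mem_nhds p one_pos
  · exact Eventually.of_forall fun q => (hu.mul (ell_cont q).rexp).aestronglyMeasurable
  · exact hμ.int_w hu p
  · exact ((hu.mul (ell_cont p).rexp).smul ellL_cont).aestronglyMeasurable
  · filter_upwards [hR] with x hx q hq
    rw [norm_smul, norm_mul, Real.norm_of_nonneg (Real.exp_nonneg _)]
    have h1 : ‖q‖ ≤ ‖p‖ + 1 := by
      have h2 : ‖q - p‖ < 1 := by simpa [dist_eq_norm] using hq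
      have h3 := norm_add_le (q - p) p
      rw [sub_add_cancel] at h3
      linarith
    refine mul_le_mul (mul_le_mul (hM x (by rwa [mem_closedBall_zero_iff])) (Real.exp_le_exp.2 ?_)
      (Real.exp_nonneg _) hM0) (ellL_bd hx) (norm_nonneg _) (by positivity)
    refine (le_abs_self _).trans ((ell_bd q hx).trans ?_)
    exact mul_le_mul_of_nonneg_right h1 (by positivity)
  · exact integrable_const _
  · refine Eventually.of_forall fun x q _ => ?_
    have h1 : HasFDerivAt (fun q : ℝ × Eu κ => ell q x) (ellL x) q := by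
      have : (fun q : ℝ × Eu κ => ell q x) = ellL x := by
        funext q
        rw [ellL_apply]
      rw [this]
      exact (ellL x).hasFDerivAt
    have h2 := (h1.exp).const_mul (u x)
    rw [smul_smul] at h2
    exact h2

theorem pd_Nu {u : Eu κ → ℝ} (hu : Continuous u) (v p : ℝ × Eu κ) :
    pd v (Nu μ u) p = Nu μ (fun x => u x * ell v x) p := by
  unfold pd
  rw [(Nu_hasFDerivAt hμ hu p).fderiv]
  rw [ContinuousLinearMap.integral_apply]
  · unfold Nu
    refine integral_congr_ae (Eventually.of_forall fun x => ?_)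
    simp only [smul_apply, ellL_apply, smul_eq_mul]
    ring
  · obtain ⟨R, hR0, hR⟩ := hμ.bdd
    have := hμ.fin
    have hc : Continuous fun x => (u x * Real.exp (ell p x)) • ellL x :=
      (hu.mul (ell_cont p).rexp).smul ellL_cont
    obtain ⟨M, hM⟩ := (isCompact_closedBall (0 : Eu κ) R).exists_bound_of_continuousOn
      hc.continuousOn
    refine (integrable_const M).mono' hc.aestronglyMeasurable ?_
    filter_upwards [hR] with x hx
    exact hM x (by rwa [mem_closedBall_zero_iff])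

theorem Nu_smooth {u : Eu κ → ℝ} (hu : Continuous u) : ContDiff ℝ ∞ (Nu μ u) := by
  have key : ∀ (n : ℕ) (u : Eu κ → ℝ), Continuous u → ContDiff ℝ n (Nu μ u) := by
    intro n
    induction n with
    | zero =>
      intro u hu
      have : Continuous (Nu μ u) :=
        continuous_iff_continuousAt.2 fun p => (Nu_hasFDerivAt hμ hu p).continuousAt
      exact_mod_cast contDiff_zero.2 this
    | succ n ih =>
      intro u hu
      have h1 : ContDiff ℝ ((n : WithTop ℕ∞) + 1) (Nu μ u) := by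
        rw [contDiff_succ_iff_fderiv_apply]
        refine ⟨fun p => (Nu_hasFDerivAt hμ hu p).differentiableAt, ?_, fun v => ?_⟩
        · intro h
          simp at h
        · have e : (fun p => fderiv ℝ (Nu μ u) p v) = Nu μ (fun x => u x * ell v x) := by
            funext p
            exact pd_Nu hμ hu v p
          rw [e]
          exact ih _ (hu.mul (ell_cont v))
      exact_mod_cast h1
  rw [contDiff_infty]
  exact fun n => key n u hu

theorem Z_pos (p : ℝ × Eu κ) : 0 < Nu μ (fun _ => 1) p := by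
  unfold Nu
  simp only [one_mul]
  have hi : Integrable (fun x => Real.exp (ell p x)) μ := hμ.integrable (ell_cont p).rexp
  rw [integral_pos_iff_support_of_nonneg (fun x => (Real.exp_pos _).le) hi]
  have : Function.support (fun x => Real.exp (ell p x)) = univ := by
    ext x
    simp
  rw [this]
  exact Measure.measure_univ_pos.2 hμ.ne

theorem Ex_smooth {u : Eu κ → ℝ} (hu : Continuous u) : ContDiff ℝ ∞ (Ex μ u) :=
  (Nu_smooth hμ hu).div (Nu_smooth hμ continuous_const) fun p => (Z_pos hμ p).ne'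

theorem Ex_add {u v : Eu κ → ℝ} (hu : Continuous u) (hv : Continuous v) (p : ℝ × Eu κ) :
    Ex μ (fun x => u x + v x) p = Ex μ u p + Ex μ v p := by
  unfold Ex
  rw [Nu_add hμ hu hv, add_div]

omit hμ in
theorem Ex_mul (c : ℝ) (u : Eu κ → ℝ) (p : ℝ × Eu κ) :
    Ex μ (fun x => c * u x) p = c * Ex μ u p := by
  unfold Ex Nu
  simp_rw [mul_assoc]
  rw [integral_const_mul, mul_div_assoc]

theorem Ex_sub {u v : Eu κ → ℝ} (hu : Continuous u) (hv : Continuous v) (p : ℝ × Eu κ) :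
    Ex μ (fun x => u x - v x) p = Ex μ u p - Ex μ v p := by
  have h1 := Ex_add hμ hu (hv.const_mul (-1)) p
  rw [Ex_mul] at h1
  have e : (fun x => u x - v x) = fun x => u x + -1 * v x := by
    funext x
    ring
  rw [e, h1]
  ring

theorem Ex_const (c : ℝ) (p : ℝ × Eu κ) : Ex μ (fun _ => c) p = c := by
  have h1 : Ex μ (fun _ => (1 : ℝ)) p = 1 := by
    unfold Ex
    exact div_self (Z_pos hμ p).ne'
  have h2 := Ex_mul (μ := μ) c (fun _ => (1 : ℝ)) p
  rw [h1, mul_one] at h2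
  simpa using h2

theorem Ex_sum {ι : Type} (s : Finset ι) {u : ι → Eu κ → ℝ} (hu : ∀ i, Continuous (u i))
    (p : ℝ × Eu κ) : Ex μ (fun x => ∑ i ∈ s, u i x) p = ∑ i ∈ s, Ex μ (u i) p := by
  classical
  induction s using Finset.induction_on with
  | empty =>
    simp only [Finset.sum_empty]
    exact Ex_const hμ 0 p
  | insert i s hi ih =>
    simp only [Finset.sum_insert hi]
    rw [Ex_add hμ (hu i) (continuous_finsetSum _ fun i _ => hu i), ih]

theorem Ex_mono {u v : Eu κ → ℝ} (hu : Continuous u) (hv : Continuous v)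
    (h : ∀ᵐ x ∂μ, u x ≤ v x) (p : ℝ × Eu κ) : Ex μ u p ≤ Ex μ v p := by
  unfold Ex
  refine div_le_div_of_nonneg_right ?_ (Z_pos hμ p).le
  unfold Nu
  refine integral_mono_ae (hμ.int_w hu p) (hμ.int_w hv p) ?_
  filter_upwards [h] with x hx
  exact mul_le_mul_of_nonneg_right hx (Real.exp_nonneg _)

theorem Ex_bd {u : Eu κ → ℝ} (hu : Continuous u) {M : ℝ} (h : ∀ᵐ x ∂μ, |u x| ≤ M)
    (p : ℝ × Eu κ) : |Ex μ u p| ≤ M := by
  rw [abs_le]
  constructor
  · have h1 := Ex_mono hμ (u := fun _ => -M) (v := u) continuous_const hu (by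
      filter_upwards [h] with x hx
      exact (abs_le.1 hx).1) p
    rwa [Ex_const hμ] at h1
  · have h1 := Ex_mono hμ (u := u) (v := fun _ => M) hu continuous_const (by
      filter_upwards [h] with x hx
      exact (abs_le.1 hx).2) p
    rwa [Ex_const hμ] at h1

theorem Ex_bdd {u : Eu κ → ℝ} (hu : Continuous u) : ∃ M : ℝ, ∀ p, |Ex μ u p| ≤ M := by
  obtain ⟨R, hR0, hR⟩ := hμ.bdd
  obtain ⟨M, hM⟩ := (isCompact_closedBall (0 : Eu κ) R).exists_bound_of_continuousOn hu.continuousOn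
  refine ⟨M, fun p => Ex_bd hμ hu ?_ p⟩
  filter_upwards [hR] with x hx
  exact hM x (by rwa [mem_closedBall_zero_iff])

/-- the derivative of a posterior mean is a covariance -/
theorem pd_Ex {u : Eu κ → ℝ} (hu : Continuous u) (v p : ℝ × Eu κ) :
    pd v (Ex μ u) p = Ex μ (fun x => u x * ell v x) p - Ex μ u p * Ex μ (ell v) p := by
  have hZ := (Z_pos hμ p).ne'
  have h0 : (fun p => Ex μ u p * Nu μ (fun _ => 1) p) = Nu μ u := by
    funext p
    unfold Ex
    exact div_mul_cancel₀ _ (Z_pos hμ p).ne'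
  have h1 := pd_mul (sm1 (Ex_smooth hμ hu)) (sm1 (Nu_smooth hμ (continuous_const (y := (1 : ℝ))))) v p
  rw [h0, pd_Nu hμ hu, pd_Nu hμ continuous_const] at h1
  simp only [one_mul] at h1
  have h2 : pd v (Ex μ u) p = (Nu μ (fun x => u x * ell v x) p -
      Ex μ u p * Nu μ (fun x => ell v x) p) / Nu μ (fun _ => 1) p := by
    rw [eq_div_iff hZ]
    linarith
  rw [h2, sub_div, mul_div_assoc]
  rfl

end basic

/-- the algebra generated by the posterior means -/
inductive Al (μ : Measure (Eu κ)) : (ℝ × Eu κ → ℝ) → Prop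
  | const (c : ℝ) : Al μ fun _ => c
  | ex (u : Eu κ → ℝ) (hu : Continuous u) : Al μ (Ex μ u)
  | add (F G : ℝ × Eu κ → ℝ) (hF : Al μ F) (hG : Al μ G) : Al μ fun p => F p + G p
  | mul (F G : ℝ × Eu κ → ℝ) (hF : Al μ F) (hG : Al μ G) : Al μ fun p => F p * G p

section alg

variable {μ : Measure (Eu κ)} (hμ : BS μ)

theorem Al.neg {F : ℝ × Eu κ → ℝ} (hF : Al μ F) : Al μ fun p => - F p := by
  have := Al.mul _ _ (Al.const (μ := μ) (-1)) hF
  simpa using this

theorem Al.sub {F G : ℝ × Eu κ → ℝ} (hF : Al μ F) (hG : Al μ G) : Al μ fun p => F p - G p := by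
  have := Al.add _ _ hF hG.neg
  simpa [sub_eq_add_neg] using this

theorem Al.sum {ι : Type} (s : Finset ι) {F : ι → ℝ × Eu κ → ℝ} (hF : ∀ i, Al μ (F i)) :
    Al μ fun p => ∑ i ∈ s, F i p := by
  classical
  induction s using Finset.induction_on with
  | empty =>
    simp only [Finset.sum_empty]
    exact Al.const 0
  | insert i s hi ih =>
    simp only [Finset.sum_insert hi]
    exact Al.add _ _ (hF i) ih

include hμ

theorem Al.smooth {F : ℝ × Eu κ → ℝ} (hF : Al μ F) : ContDiff ℝ ∞ F := by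
  induction hF with
  | const c => exact contDiff_const
  | ex u hu => exact Ex_smooth hμ hu
  | add F G _ _ h1 h2 => exact h1.add h2
  | mul F G _ _ h1 h2 => exact h1.mul h2

theorem Al.bdd {F : ℝ × Eu κ → ℝ} (hF : Al μ F) : ∃ M : ℝ, ∀ p, |F p| ≤ M := by
  induction hF with
  | const c => exact ⟨|c|, fun _ => le_rfl⟩
  | ex u hu => exact Ex_bdd hμ hu
  | add F G _ _ h1 h2 =>
    obtain ⟨M1, h1⟩ := h1
    obtain ⟨M2, h2⟩ := h2
    exact ⟨M1 + M2, fun p => (abs_add_le _ _).trans (add_le_add (h1 p) (h2 p))⟩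
  | mul F G _ _ h1 h2 =>
    obtain ⟨M1, h1⟩ := h1
    obtain ⟨M2, h2⟩ := h2
    refine ⟨M1 * M2, fun p => ?_⟩
    rw [abs_mul]
    exact mul_le_mul (h1 p) (h2 p) (abs_nonneg _) ((abs_nonneg _).trans (h1 p))

theorem Al.pd {F : ℝ × Eu κ → ℝ} (hF : Al μ F) (v : ℝ × Eu κ) : Al μ (pd v F) := by
  induction hF with
  | const c =>
    have : Q86.FIB.pd v (fun _ : ℝ × Eu κ => c) = fun _ => 0 := by
      funext p
      exact pd_const c v p
    rw [this]
    exact Al.const 0
  | ex u hu =>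
    have : Q86.FIB.pd v (Ex μ u) = fun p => Ex μ (fun x => u x * ell v x) p -
        Ex μ u p * Ex μ (ell v) p := by
      funext p
      exact pd_Ex hμ hu v p
    rw [this]
    exact (Al.ex _ (hu.mul (ell_cont v))).sub (Al.mul _ _ (Al.ex _ hu) (Al.ex _ (ell_cont v)))
  | add F G hF hG h1 h2 =>
    have : Q86.FIB.pd v (fun p => F p + G p) = fun p => Q86.FIB.pd v F p + Q86.FIB.pd v G p := by
      funext p
      exact pd_add (sm1 (hF.smooth hμ)) (sm1 (hG.smooth hμ)) v p
    rw [this]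
    exact Al.add _ _ h1 h2
  | mul F G hF hG h1 h2 =>
    have : Q86.FIB.pd v (fun p => F p * G p) = fun p => Q86.FIB.pd v F p * G p +
        F p * Q86.FIB.pd v G p := by
      funext p
      exact pd_mul (sm1 (hF.smooth hμ)) (sm1 (hG.smooth hμ)) v p
    rw [this]
    exact Al.add _ _ (Al.mul _ _ h1 hG) (Al.mul _ _ hF h2)

end alg

/-! ### the generator -/

section gen

variable [DecidableEq κ]

/-- the direction of the `k`-th coordinate of `y` -/
noncomputable def ek (k : κ) : ℝ × Eu κ := (0, bs κ k)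

/-- the direction of `t` -/
noncomputable def et : ℝ × Eu κ := (1, 0)

theorem ell_ek (k : κ) (x : Eu κ) : ell (ek k) x = x k := by
  unfold ell ek bs
  rw [EuclideanSpace.inner_single_left]
  simp

theorem ell_et (x : Eu κ) : ell et x = -(1 / 2) * ∑ k, x k * x k := by
  unfold ell et
  simp only [inner_zero_left, zero_sub]
  rw [EuclideanSpace.norm_sq_eq]
  simp only [Real.norm_eq_abs, sq_abs]
  simp only [pow_two]
  ring

/-- the generator `∂_t + Δ / 2 + ∑ E[x_k] ∂_k` -/
noncomputable def Dg (μ : Measure (Eu κ)) (F : ℝ × Eu κ → ℝ) (p : ℝ × Eu κ) : ℝ :=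
  pd et F p + 1 / 2 * ∑ k, pd (ek k) (pd (ek k) F) p +
    ∑ k, Ex μ (fun x => x k) p * pd (ek k) F p

/-- carré du champ -/
noncomputable def Ga (F G : ℝ × Eu κ → ℝ) (p : ℝ × Eu κ) : ℝ := ∑ k, pd (ek k) F p * pd (ek k) G p

variable {μ : Measure (Eu κ)}

theorem Dg_const (c : ℝ) (p : ℝ × Eu κ) : Dg μ (fun _ => c) p = 0 := by
  unfold Dg
  have h : ∀ v : ℝ × Eu κ, pd v (fun _ : ℝ × Eu κ => c) = fun _ => 0 := fun v => by
    funext p
    exact pd_const c v p
  simp [h, pd_const]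

theorem Dg_add {F G : ℝ × Eu κ → ℝ} (hF : ContDiff ℝ ∞ F) (hG : ContDiff ℝ ∞ G) (p : ℝ × Eu κ) :
    Dg μ (fun p => F p + G p) p = Dg μ F p + Dg μ G p := by
  unfold Dg
  have h : ∀ v : ℝ × Eu κ, pd v (fun p => F p + G p) = fun p => pd v F p + pd v G p := fun v => by
    funext p
    exact pd_add (sm1 hF) (sm1 hG) v p
  simp only [h]
  have h2 : ∀ k : κ, pd (ek k) (fun p => pd (ek k) F p + pd (ek k) G p) p =
      pd (ek k) (pd (ek k) F) p + pd (ek k) (pd (ek k) G) p := fun k =>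
    pd_add (sm1 (pd_smooth hF _)) (sm1 (pd_smooth hG _)) _ _
  simp only [h2, mul_add, Finset.sum_add_distrib]
  ring

theorem Dg_mul {F G : ℝ × Eu κ → ℝ} (hF : ContDiff ℝ ∞ F) (hG : ContDiff ℝ ∞ G) (p : ℝ × Eu κ) :
    Dg μ (fun p => F p * G p) p = Dg μ F p * G p + F p * Dg μ G p + Ga F G p := by
  unfold Dg Ga
  have h : ∀ v : ℝ × Eu κ, pd v (fun p => F p * G p) = fun p => pd v F p * G p + F p * pd v G p :=
    fun v => by
      funext p
      exact pd_mul (sm1 hF) (sm1 hG) v p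
  simp only [h]
  have h2 : ∀ k : κ, pd (ek k) (fun p => pd (ek k) F p * G p + F p * pd (ek k) G p) p =
      pd (ek k) (pd (ek k) F) p * G p + 2 * (pd (ek k) F p * pd (ek k) G p) +
        F p * pd (ek k) (pd (ek k) G) p := fun k => by
    rw [pd_add (sm1 ((pd_smooth hF _).mul hG)) (sm1 (hF.mul (pd_smooth hG _))),
      pd_mul (sm1 (pd_smooth hF _)) (sm1 hG), pd_mul (sm1 hF) (sm1 (pd_smooth hG _))]
    ring
  simp only [h2, mul_add, Finset.sum_add_distrib]
  rw [← Finset.mul_sum, ← Finset.sum_mul, ← Finset.mul_sum]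
  have h3 : ∑ k, Ex μ (fun x => x k) p * (pd (ek k) F p * G p) =
      (∑ k, Ex μ (fun x => x k) p * pd (ek k) F p) * G p := by
    rw [Finset.sum_mul]
    exact Finset.sum_congr rfl fun k _ => by ring
  have h4 : ∑ k, Ex μ (fun x => x k) p * (F p * pd (ek k) G p) =
      F p * ∑ k, Ex μ (fun x => x k) p * pd (ek k) G p := by
    rw [Finset.mul_sum]
    exact Finset.sum_congr rfl fun k _ => by ring
  rw [h3, h4]
  ring

theorem Dg_neg {F : ℝ × Eu κ → ℝ} (hF : ContDiff ℝ ∞ F) (p : ℝ × Eu κ) :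
    Dg μ (fun p => - F p) p = - Dg μ F p := by
  have h1 := Dg_add (μ := μ) hF hF.neg p
  have h2 : (fun p => F p + - F p) = fun _ => (0 : ℝ) := by
    funext p
    ring
  rw [h2, Dg_const] at h1
  linarith

theorem Dg_sub {F G : ℝ × Eu κ → ℝ} (hF : ContDiff ℝ ∞ F) (hG : ContDiff ℝ ∞ G) (p : ℝ × Eu κ) :
    Dg μ (fun p => F p - G p) p = Dg μ F p - Dg μ G p := by
  have h1 := Dg_add (μ := μ) hF hG.neg p
  rw [Dg_neg hG] at h1
  simpa [sub_eq_add_neg] using h1

/-- posterior means are annihilated by the generator -/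
theorem Dg_Ex (hμ : BS μ) {u : Eu κ → ℝ} (hu : Continuous u) (p : ℝ × Eu κ) :
    Dg μ (Ex μ u) p = 0 := by
  have hx : ∀ k : κ, Continuous fun x : Eu κ => x k := fun k => by fun_prop
  have h1 : ∀ (k : κ) (u : Eu κ → ℝ), Continuous u → pd (ek k) (Ex μ u) =
      fun p => Ex μ (fun x => u x * x k) p - Ex μ u p * Ex μ (fun x => x k) p := fun k u hu => by
    funext p
    rw [pd_Ex hμ hu]
    simp only [ell_ek]
    have : ell (ek k) = fun x : Eu κ => x k := by
      funext x
      exact ell_ek k x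
    rw [this]
  have h2 : ∀ k, pd (ek k) (pd (ek k) (Ex μ u)) p =
      (Ex μ (fun x => u x * x k * x k) p - Ex μ (fun x => u x * x k) p * Ex μ (fun x => x k) p) -
      ((Ex μ (fun x => u x * x k) p - Ex μ u p * Ex μ (fun x => x k) p) * Ex μ (fun x => x k) p +
        Ex μ u p * (Ex μ (fun x => x k * x k) p - Ex μ (fun x => x k) p * Ex μ (fun x => x k) p)) := by
    intro k
    have huk : Continuous fun x : Eu κ => u x * x k := hu.mul (hx k)
    rw [h1 k u hu, pd_sub (sm1 (Ex_smooth hμ huk))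
      (sm1 ((Ex_smooth hμ hu).mul (Ex_smooth hμ (hx k)))),
      pd_mul (sm1 (Ex_smooth hμ hu)) (sm1 (Ex_smooth hμ (hx k))), h1 k _ huk, h1 k u hu,
      h1 k _ (hx k)]
  have h3 : pd et (Ex μ u) p = -(1 / 2) * ∑ k, (Ex μ (fun x => u x * x k * x k) p -
      Ex μ u p * Ex μ (fun x => x k * x k) p) := by
    rw [pd_Ex hμ hu]
    have e1 : (fun x => u x * ell et x) = fun x => -(1 / 2) * ∑ k, u x * x k * x k := by
      funext x
      rw [ell_et]
      simp_rw [mul_assoc]
      rw [← Finset.mul_sum]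
      ring
    have e2 : ell (et (κ := κ)) = fun x => -(1 / 2) * ∑ k, x k * x k := by
      funext x
      exact ell_et x
    have c1 : ∀ k : κ, Continuous fun x : Eu κ => u x * x k * x k := fun k =>
      (hu.mul (hx k)).mul (hx k)
    have c2 : ∀ k : κ, Continuous fun x : Eu κ => x k * x k := fun k => (hx k).mul (hx k)
    rw [e1, e2, Ex_mul, Ex_mul, Ex_sum hμ _ c1, Ex_sum hμ _ c2, Finset.sum_sub_distrib,
      ← Finset.mul_sum]
    ring
  unfold Dg
  rw [h3]
  simp only [h2]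
  simp only [h1 _ u hu]
  rw [Finset.mul_sum, Finset.mul_sum, ← Finset.sum_add_distrib, ← Finset.sum_add_distrib]
  refine Finset.sum_eq_zero fun k _ => ?_
  ring

end gen

end Pool.Agent.KS6_97.Sch
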