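import Pool.Agent.KS6_97.Sch.Phi

/-!
# Variances of bounded Lipschitz functions
-/

set_option autoImplicit false

namespace Pool.Agent.KS6_97.Sch

open MeasureTheory Set Filter Topology
open scoped ENNReal InnerProductSpace ContDiff Matrix
open Pool.Agent.H888R2.KT (LC pst gs zz gc)
open Pool.Agent.H212R2.KLS (mu Bdd)
open Pool.Agent.Q86.FIB
open Pool.Agent.Q86.EM

variable {κ : Type} [Fintype κ]

theorem Ex_zero {μ : Measure (Eu κ)} (h1 : μ univ = 1) (u : Eu κ → ℝ) :
    Ex μ u (0, 0) = ∫ x, u x ∂μ := by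
  have h : ∀ x : Eu κ, ell (0, 0) x = 0 := fun x => by
    unfold ell
    simp
  unfold Ex Nu
  simp_rw [h]
  simp only [Real.exp_zero, mul_one, integral_const, Measure.real, h1, ENNReal.toReal_one,
    smul_eq_mul, mul_one, div_one]

variable [DecidableEq κ]

/-- a bound in expectation from the tail function -/
theorem EE_tail {ρ : Eu κ → ℝ} (hρ : LC ρ) (h1 : mu ρ univ = 1) {H u : ℝ × Eu κ → ℝ}
    (hH : Continuous H) (hHb : ∃ B : ℝ, ∀ p, |H p| ≤ B) (hu : Continuous u)
    (hub : ∃ B : ℝ, ∀ p, |u p| ≤ B) {a b c s : ℝ} (hb : 0 ≤ b) (hE : EE ρ H s ≤ c)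
    (h : ∀ y, u (s, y) ≤ a + b * H (s, y)) : EE ρ u s ≤ a + b * c := by
  obtain ⟨B, hB⟩ := hHb
  obtain ⟨B', hB'⟩ := hub
  have hB0 := (abs_nonneg _).trans (hB 0)
  have hbd : ∀ p, |b * H p| ≤ b * B := fun p => by
    rw [abs_mul, abs_of_nonneg hb]
    exact mul_le_mul_of_nonneg_left (hB p) hb
  have h2 := EE_mono hρ (F := u) (G := fun p => a + b * H p) hu
    (continuous_const.add (continuous_const.mul hH)) (B := max B' (|a| + b * B))
    (fun p => (hB' p).trans (le_max_left _ _))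
    (fun p => ((abs_add_le _ _).trans (add_le_add le_rfl (hbd p))).trans (le_max_right _ _)) s h
  have h3 := EE_add hρ (F := fun _ => a) (G := fun p => b * H p) continuous_const
    (continuous_const.mul hH) (B := max |a| (b * B)) (fun p => le_max_left _ _)
    (fun p => (hbd p).trans (le_max_right _ _)) s
  rw [EE_const hρ h1, EE_mul] at h3
  rw [h3] at h2
  have := mul_le_mul_of_nonneg_left hE hb
  linarith

/-- **variances of bounded Lipschitz functions** -/
theorem var_main {ρ : Eu κ → ℝ} (hρ : LC ρ) (h1 : mu ρ univ = 1) {q : ℕ} (hq : q ≠ 0) {G0 : ℝ}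
    (hG0 : 0 < G0) (hG : TP (mu ρ) q (0, 0) ≤ G0 ^ q) {η : ℝ} (hη : 0 < η) (hη1 : η ≤ 1)
    {f : Eu κ → ℝ} (hf : ContDiff ℝ 1 f) (hf1 : ∀ x, |f x| ≤ 1) {A : ℝ}
    (hfd : ∀ x, ‖fderiv ℝ f x‖ ≤ A) :
    ∫ x, f x ^ 2 ∂(mu ρ) - (∫ x, f x ∂(mu ρ)) ^ 2 ≤ 81 * η + 2 * A ^ 2 * (q * G0) / η ^ 3 := by
  have hμ := bs_lc hρ
  have hq0 : (0 : ℝ) < q := by exact_mod_cast Nat.pos_of_ne_zero hq
  have hA0 : 0 ≤ A := (norm_nonneg _).trans (hfd 0)
  have hfc := hf.continuous
  have hdc : Continuous fun x => ‖fderiv ℝ f x‖ ^ 2 :=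
    ((hf.continuous_fderiv (by norm_num)).norm).pow 2
  obtain ⟨c, hc⟩ : ∃ c : ℝ, c = (q : ℝ) ^ 2 * G0 := ⟨_, rfl⟩
  have hc0 : 0 < c := by
    rw [hc]
    positivity
  obtain ⟨t, ht⟩ : ∃ t : ℝ, t = η ^ 4 / c := ⟨_, rfl⟩
  have ht0 : 0 < t := by
    rw [ht]
    positivity
  have hct : c * t = η ^ 4 := by
    rw [ht]
    field_simp
  -- the elements of the algebra
  have hf2c : Continuous fun x => f x ^ 2 := hfc.pow 2
  have a1 : Al (mu ρ) (Ex (mu ρ) fun x => f x ^ 2) := Al.ex _ hf2c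
  have a2 : Al (mu ρ) (Ex (mu ρ) f) := Al.ex _ hfc
  have a3 : Al (mu ρ) fun p => Ex (mu ρ) f p * Ex (mu ρ) f p := Al.mul _ _ a2 a2
  have a4 : Al (mu ρ) fun p => Ex (mu ρ) (fun x => f x ^ 2) p - Ex (mu ρ) f p * Ex (mu ρ) f p :=
    a1.sub a3
  have hV0 : ∀ p, 0 ≤ Ex (mu ρ) (fun x => f x ^ 2) p - Ex (mu ρ) f p ^ 2 := fun p => by
    have := (ef_Ex hμ p).var_nonneg hfc
    linarith
  have hV1 : ∀ p, Ex (mu ρ) (fun x => f x ^ 2) p - Ex (mu ρ) f p ^ 2 ≤ 1 := fun p => by
    have h2 := Ex_mono hμ (u := fun x => f x ^ 2) (v := fun _ => 1) hf2c continuous_const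
      (Eventually.of_forall fun x => by
        have := hf1 x
        rw [← sq_abs]
        nlinarith [abs_nonneg (f x)]) p
    rw [Ex_const hμ] at h2
    have := sq_nonneg (Ex (mu ρ) f p)
    linarith
  -- the generator
  have hDM : ∀ p, Dg (mu ρ) (fun p => Ex (mu ρ) f p * Ex (mu ρ) f p) p =
      Ga (Ex (mu ρ) f) (Ex (mu ρ) f) p := fun p => by
    rw [Dg_mul (a2.smooth hμ) (a2.smooth hμ), Dg_Ex hμ hfc]
    ring
  have hn3 := a3.nice hμ
  -- the growth of the second moment of the posterior mean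
  have hgrow := EE_decr hρ h1 hn3 ht0.le (Φ := fun s => 68 * √(√(c * s)))
    (φ := fun s => 17 * √(√(c * s)) / s) (by fun_prop) (fun s hs => by
      have hs0 := hs.1
      have hcs : 0 < c * s := by positivity
      have hr1 : 0 < √(c * s) := Real.sqrt_pos.2 hcs
      have hr2 : 0 < √(√(c * s)) := Real.sqrt_pos.2 hr1
      have d1 : HasDerivAt (fun s => c * s) c s := by
        have := (hasDerivAt_id s).const_mul c
        rw [mul_one] at this
        exact this
      have d2 := d1.sqrt hcs.ne'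
      have d3 := (d2.sqrt hr1.ne').const_mul (68 : ℝ)
      convert! d3 using 1
      obtain ⟨x, hx⟩ : ∃ x : ℝ, x = √(√(c * s)) := ⟨_, rfl⟩
      have e1 : √(c * s) = x ^ 2 := by
        rw [hx, Real.sq_sqrt hr1.le]
      have e2 : c * s = x ^ 4 := by
        have : x ^ 4 = (x ^ 2) ^ 2 := by ring
        rw [this, ← e1, Real.sq_sqrt hcs.le]
      rw [← hx] at hr2 ⊢
      rw [e1]
      have e3 : c = x ^ 4 / s := by
        rw [← e2]
        field_simp
      rw [e3]
      field_simp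
      ring) (fun s hs => by
      have hs0 := hs.1
      have hcs : 0 < c * s := by positivity
      have hr1 : 0 < √(c * s) := Real.sqrt_pos.2 hcs
      have hr2 : 0 < √(√(c * s)) := Real.sqrt_pos.2 hr1
      obtain ⟨x, hx⟩ : ∃ x : ℝ, x = √(√(c * s)) := ⟨_, rfl⟩
      have e1 : √(c * s) = x ^ 2 := by
        rw [hx, Real.sq_sqrt hr1.le]
      have e2 : c * s = x ^ 4 := by
        have : x ^ 4 = (x ^ 2) ^ 2 := by ring
        rw [this, ← e1, Real.sq_sqrt hcs.le]
      rw [← hx] at hr2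
      have hx1 : x ≤ 1 := by
        have h2 : x ^ 4 ≤ 1 ^ 4 := by
          rw [← e2]
          have h3 : c * s ≤ c * t := mul_le_mul_of_nonneg_left hs.2.le hc0.le
          rw [hct] at h3
          have h4 : η ^ 4 ≤ 1 := pow_le_one₀ hη.le hη1
          linarith
        exact le_of_pow_le_pow_left₀ (by norm_num) (by norm_num) h2
      obtain ⟨H, hHc, hHb, hH0, hHt, hHE⟩ := tail hρ h1 hq hG0 hG (s := s) (η := x) hs0.le hr2 hx1
        (by
          rw [← e2, hc]
          exact le_of_eq (by ring))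
      have h2 := EE_tail hρ h1 (u := Dg (mu ρ) fun p => Ex (mu ρ) f p * Ex (mu ρ) f p)
        (a := 4 * G0 / x ^ 2) (b := 2 / s) hHc hHb (hn3.Dg_cb hρ).1 (hn3.Dg_cb hρ).2
        (by positivity) hHE (fun y => by
          rw [hDM]
          have hp0 := hH0 (s, y)
          rcases le_total (4 * G0 / x ^ 2) (TP (mu ρ) q (s, y) ^ ((1 : ℝ) / q)) with h3 | h3
          · have h4 := Ga_bd hμ (by positivity) (op_inv hρ hs0 y) hfc
            have h5 := mul_le_mul_of_nonneg_left (hV1 (s, y)) (by positivity : 0 ≤ 1 / s)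
            have h6 := hHt (s, y) h3
            have h7 := mul_le_mul_of_nonneg_left h6 (by positivity : 0 ≤ 2 / s)
            have h8 : 2 / s * (1 / 2) = 1 / s * 1 := by ring
            have h9 : 0 ≤ 4 * G0 / x ^ 2 := by positivity
            linarith
          · obtain ⟨h0, hO⟩ := op_tr hμ (s, y) hq
            have h4 := Ga_bd hμ (Real.rpow_nonneg h0 _) hO hfc
            have h5 := mul_le_mul_of_nonneg_left (hV1 (s, y)) (Real.rpow_nonneg h0 ((1 : ℝ) / q))
            have h6 : 0 ≤ 2 / s * H (s, y) := by positivity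
            have h7 : (Cv (mu ρ) (s, y) ^ q).trace = TP (mu ρ) q (s, y) := rfl
            rw [h7] at h4 h5
            linarith)
      refine h2.trans ?_
      rw [← hx]
      have e3 : 4 * G0 / x ^ 2 ≤ 4 * x / s := by
        rw [div_le_div_iff₀ (by positivity) hs0]
        have hq1 : (1 : ℝ) ≤ q := by exact_mod_cast Nat.one_le_iff_ne_zero.2 hq
        have h3 : G0 ≤ c := by
          rw [hc]
          nlinarith [mul_le_mul hq1 hq1 (by norm_num) hq0.le]
        have h4 : G0 * s ≤ x ^ 4 := by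
          rw [← e2]
          exact mul_le_mul_of_nonneg_right h3 hs0.le
        have h5 : x ^ 4 ≤ x * x ^ 2 := by
          have : x ^ 4 = x * (x * x ^ 2) := by ring
          rw [this]
          refine mul_le_mul_of_nonneg_left ?_ hr2.le
          have := mul_le_mul_of_nonneg_right hx1 (sq_nonneg x)
          linarith
        linarith
      have e4 : 2 / s * (13 / 2 * x) = 13 * x / s := by ring
      rw [e4]
      have e5 : 4 * x / s + 13 * x / s = 17 * x / s := by ring
      linarith)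
  simp only [mul_zero, Real.sqrt_zero, sub_zero] at hgrow
  have hrt : √(√(c * t)) = η := by
    rw [hct]
    have : η ^ 4 = (η ^ 2) ^ 2 := by ring
    rw [this, Real.sqrt_sq (by positivity), Real.sqrt_sq hη.le]
  rw [hrt] at hgrow
  -- the second moment
  have hn1 := a1.nice hμ
  have hDe : ∀ s, EE ρ (Dg (mu ρ) (Ex (mu ρ) fun x => f x ^ 2)) s = 0 := fun s => by
    have : Dg (mu ρ) (Ex (mu ρ) fun x => f x ^ 2) = fun _ => 0 := by
      funext p
      exact Dg_Ex hμ hf2c p
    rw [this, EE_const hρ h1]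
  have hsec := EE_incr hρ h1 hn1 ht0.le (Φ := fun _ => 0) (φ := fun _ => 0) continuousOn_const
    (fun s _ => hasDerivAt_const s 0) (fun s _ => (hDe s).ge)
  simp only [sub_self] at hsec
  -- the variance at time t
  obtain ⟨H, hHc, hHb, hH0, hHt, hHE⟩ := tail hρ h1 hq hG0 hG (s := t) (η := η) ht0.le hη hη1
    (by
      rw [← hct, hc]
      exact le_of_eq (by ring))
  have hvt := EE_tail hρ h1
    (u := fun p => Ex (mu ρ) (fun x => f x ^ 2) p - Ex (mu ρ) f p * Ex (mu ρ) f p)
    (a := 2 * A ^ 2 * (q * G0) / η ^ 3) (b := 2) hHc hHb (a4.nice hμ).smooth.continuous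
    (a4.nice hμ).b0 (by norm_num) hHE (fun y => by
      simp only [← pow_two]
      have hp0 := hH0 (t, y)
      have hnn : 0 ≤ 2 * A ^ 2 * (q * G0) / η ^ 3 := by positivity
      rcases le_total (4 * G0 / η ^ 2) (TP (mu ρ) q (t, y) ^ ((1 : ℝ) / q)) with h3 | h3
      · have h4 := hHt (t, y) h3
        have h5 := hV1 (t, y)
        linarith
      · obtain ⟨h0, hO⟩ := op_tr hμ (t, y) hq
        have h4 := post_PI hρ ht0 (Real.rpow_nonneg h0 _) y hO f hf
        have h7 : (Cv (mu ρ) (t, y) ^ q).trace = TP (mu ρ) q (t, y) := rfl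
        rw [h7] at h4
        have h5 : Ex (mu ρ) (fun x => ‖fderiv ℝ f x‖ ^ 2) (t, y) ≤ A ^ 2 := by
          have h6 := Ex_mono hμ (u := fun x => ‖fderiv ℝ f x‖ ^ 2) (v := fun _ => A ^ 2) hdc
            continuous_const (Eventually.of_forall fun x =>
              pow_le_pow_left₀ (norm_nonneg _) (hfd x) 2) (t, y)
          rwa [Ex_const hμ] at h6
        have h6 : √(TP (mu ρ) q (t, y) ^ ((1 : ℝ) / q) / t) ≤ 2 * (q * G0) / η ^ 3 := by
          rw [Real.sqrt_le_left (by positivity)]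
          calc TP (mu ρ) q (t, y) ^ ((1 : ℝ) / q) / t ≤ (4 * G0 / η ^ 2) / t :=
                div_le_div_of_nonneg_right h3 ht0.le
            _ = (2 * (q * G0) / η ^ 3) ^ 2 := by
                rw [ht, hc]
                field_simp
                ring
        have h8 := mul_le_mul h6 h5 (by
          have := Ex_mono hμ (u := fun _ => 0) (v := fun x => ‖fderiv ℝ f x‖ ^ 2)
            continuous_const hdc (Eventually.of_forall fun x => sq_nonneg _) (t, y)
          rwa [Ex_const hμ] at this) (by positivity)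
        have h9 : 2 * (q * G0) / η ^ 3 * A ^ 2 = 2 * A ^ 2 * (q * G0) / η ^ 3 := by ring
        linarith)
  have hsplit : EE ρ (fun p => Ex (mu ρ) (fun x => f x ^ 2) p - Ex (mu ρ) f p * Ex (mu ρ) f p) t =
      EE ρ (Ex (mu ρ) fun x => f x ^ 2) t - EE ρ (fun p => Ex (mu ρ) f p * Ex (mu ρ) f p) t := by
    obtain ⟨B1, hB1⟩ := hn1.b0
    obtain ⟨B3, hB3⟩ := hn3.b0
    have h2 := EE_add hρ (F := Ex (mu ρ) fun x => f x ^ 2)
      (G := fun p => (-1) * (Ex (mu ρ) f p * Ex (mu ρ) f p)) hn1.smooth.continuous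
      (continuous_const.mul hn3.smooth.continuous) (B := max B1 B3)
      (fun p => (hB1 p).trans (le_max_left _ _)) (fun p => by
        rw [abs_mul, abs_neg, abs_one, one_mul]
        exact (hB3 p).trans (le_max_right _ _)) t
    rw [EE_mul] at h2
    have h3 : (fun p => Ex (mu ρ) (fun x => f x ^ 2) p - Ex (mu ρ) f p * Ex (mu ρ) f p) =
        fun p => Ex (mu ρ) (fun x => f x ^ 2) p + (-1) * (Ex (mu ρ) f p * Ex (mu ρ) f p) := by
      funext p
      ring
    rw [h3, h2]
    ring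
  rw [hsplit] at hvt
  rw [Ex_zero h1] at hgrow hsec
  rw [pow_two (∫ x, f x ∂(mu ρ))]
  linarith

end Pool.Agent.KS6_97.Sch
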